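import Pool.Agent.H3.Refl.Defs

/-!
# Module targets for MP_f86ddb_al

Each module proves one of these statements (as `theorem m2 : TargetM2 := ...` and so on).
`Q = q ^ n`, `q = Fintype.card F`.
-/

namespace Pool.Agent.H3.Refl

open scoped Classical
open Finset

/-- M2 (Gauss sum evaluation). `gaussSumOn β ψ b (rp b R) = (-Q)^(dim R + dim R^⊥)` for good `R`
when `dim V < 2n`.  Proof: the sum is an integer `N_0 - N_1` because for every `α ∈ F^*` some
`U ∈ F[C]` satisfies `Uᵀ β U = α β` (`U^(Q+1) = α`, the adjoint of `U` is `U^Q` since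
`C^Q = C⁻¹`); it is `≡ 1 mod Q+1` because `⟨C⟩` (order `Q+1`) acts freely on the nonzero vectors
of `(R^⊥)^ι`; its square is `(|R| |R^⊥|)^{2n} = Q^(2 (dim R + dim R^⊥))` because the polar radical
of `x ↦ ∑ β_ij b(x_i,x_j)` on `(R^⊥)^ι` is `R^ι`: on `R^⊥/R` (dimension `< 2n`) the form `b` is
nondegenerate, `b(u,w) = b(Tw,u)`, and `(βᵀβ⁻¹) y = - T y` is impossible for `y ≠ 0` since
`p(εCᵀ)` is invertible for `p = charpoly (-T)`. -/
def TargetM2 : Prop :=
  ∀ (F : Type) [Field F] [Fintype F] (n : ℕ) (β C : Matrix (Fin (2 * n)) (Fin (2 * n)) F) (ε : F),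
    SingerForm n β C ε → ∀ ψ : AddChar F ℂ, ψ ≠ 1 →
    ∀ (V : Type) [AddCommGroup V] [Module F V] [Fintype V] (b : V →ₗ[F] V →ₗ[F] F),
    Module.finrank F V < 2 * n → ∀ R : Submodule F V, Good b R →
      gaussSumOn β ψ b (rp b R) =
        (-(Fintype.card F : ℂ) ^ n) ^ (Module.finrank F R + Module.finrank F (rp b R))

/-- Triangular sequences with prescribed diagonal. -/
def tri {F ι : Type} [Field F] [Fintype ι] (β : Matrix ι ι F) (m : ℕ) (a : Fin m → F) :
    Set (Fin m → ι → F) :=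
  {w | (∀ i j, i < j → bil β (w i) (w j) = 0) ∧ ∀ i, bil β (w i) (w i) = a i}

/-- M3 (Fourier recursion). -/
def TargetM3 : Prop :=
  ∀ (F : Type) [Field F] [Fintype F] (ι : Type) [Fintype ι] (β : Matrix ι ι F)
    (ψ : AddChar F ℂ), ψ ≠ 1 → ∀ (m : ℕ) (a : Fin m → F),
      L β ψ (List.ofFn fun i => - a i) PUnit 0 =
        (Fintype.card F : ℂ) ^ (m * (m + 1) / 2) * (Set.ncard (tri β m a) : ℂ)

/-- M4b (factorisations of `c` correspond to triangular sequences, abstract version).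
`ℛ` is the set of allowed reflections. -/
def TargetM4b : Prop :=
  ∀ (F V : Type) [Field F] [Fintype F] [AddCommGroup V] [Module F V] [Fintype V]
    (B β : V →ₗ[F] V →ₗ[F] F) (δ : F) (c : V ≃ₗ[F] V) (ℛ : Set (V ≃ₗ[F] V)),
    (∀ x y, B x y = β x y + δ * β y x) →
    (∀ x y, β (x - c x) y = B x y) →
    Function.Bijective (fun x => x - c x) →
    (∀ x, (∀ y, B x y = 0) → x = 0) →
    (∀ t ∈ ℛ, ∃ (w : V) (κ : F), w ≠ 0 ∧ κ ≠ 0 ∧ ∀ x, t x = x - (κ⁻¹ * B x w) • w) →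
    (∀ w : V, β w w ≠ 0 → ∃ t ∈ ℛ, ∀ x, t x = x - ((β w w)⁻¹ * B x w) • w) →
    Set.ncard {w : Fin (Module.finrank F V) → V |
        (∀ i j, i < j → β (w i) (w j) = 0) ∧ ∀ i, β (w i) (w i) ≠ 0} =
      (Fintype.card F - 1) ^ (Module.finrank F V) *
        Set.ncard {t : Fin (Module.finrank F V) → (V ≃ₗ[F] V) |
          (∀ i, t i ∈ ℛ) ∧ (List.ofFn t).prod = c}

/-- M4a, symplectic case.  Here `β x y = ω ((1-c)⁻¹ x) y` in coordinates, `ε = 1`. -/
def TargetM4Sp : Prop :=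
  ∀ (F V : Type) [Field F] [Fintype F] [AddCommGroup V] [Module F V] [Fintype V] (n : ℕ)
    (ω : LinearMap.BilinForm F V) (c : V ≃ₗ[F] V), 0 < n → Module.finrank F V = 2 * n →
    ω.IsAlt → ω.Nondegenerate → c ∈ isomGroup ω → IsIrred c →
    orderOf c = Fintype.card F ^ n + 1 →
    ∃ (β C : Matrix (Fin (2 * n)) (Fin (2 * n)) F) (ε : F), SingerForm n β C ε ∧
      Set.ncard {w : Fin (2 * n) → Fin (2 * n) → F |
        (∀ i j, i < j → bil β (w i) (w j) = 0) ∧ ∀ i, bil β (w i) (w i) ≠ 0} =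
      (Fintype.card F - 1) ^ (2 * n) * Set.ncard (factorizations (isomGroup ω) c (2 * n))

/-- M4a, orthogonal case (every nondegenerate quadratic form).  Here
`β x y = B ((1-c)⁻¹ x) y` in coordinates, `B` the polar form, `ε = -1`. -/
def TargetM4O : Prop :=
  ∀ (F V : Type) [Field F] [Fintype F] [AddCommGroup V] [Module F V] [Fintype V] (n : ℕ)
    (Q : QuadraticForm F V) (c : V ≃ₗ[F] V), 0 < n → Module.finrank F V = 2 * n →
    (∀ x, (∀ y, QuadraticMap.polar Q x y = 0) → x = 0) → c ∈ orthGroup Q → IsIrred c →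
    orderOf c = Fintype.card F ^ n + 1 →
    ∃ (β C : Matrix (Fin (2 * n)) (Fin (2 * n)) F) (ε : F), SingerForm n β C ε ∧
      Set.ncard {w : Fin (2 * n) → Fin (2 * n) → F |
        (∀ i j, i < j → bil β (w i) (w j) = 0) ∧ ∀ i, bil β (w i) (w i) ≠ 0} =
      (Fintype.card F - 1) ^ (2 * n) * Set.ncard (factorizations (orthGroup Q) c (2 * n))

end Pool.Agent.H3.Refl
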