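import Mathlib

/-!
# Bilinear spaces, good subspaces, one-step extensions

Definitions used by the modules of the proof for MP_f86ddb_al.
-/

namespace Pool.Agent.H3.Refl

open scoped Classical
open Finset

section Bil

variable {F V : Type} [Field F] [AddCommGroup V] [Module F V]

/-- Right orthogonal space `{v | b(i,v) = 0 for all i ∈ I}`. -/
def rp (b : V →ₗ[F] V →ₗ[F] F) (I : Submodule F V) : Submodule F V where
  carrier := {v | ∀ i ∈ I, b i v = 0}
  add_mem' := by
    intro x y hx hy i hi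
    simp [hx i hi, hy i hi]
  zero_mem' := by intro i _; simp
  smul_mem' := by
    intro c x hx i hi
    simp [hx i hi]

/-- Left orthogonal space `{v | b(v,i) = 0 for all i ∈ I}`. -/
def lp (b : V →ₗ[F] V →ₗ[F] F) (I : Submodule F V) : Submodule F V where
  carrier := {v | ∀ i ∈ I, b v i = 0}
  add_mem' := by
    intro x y hx hy i hi
    simp [hx i hi, hy i hi]
  zero_mem' := by intro i _; simp
  smul_mem' := by
    intro c x hx i hi
    simp [hx i hi]

theorem mem_rp {b : V →ₗ[F] V →ₗ[F] F} {I : Submodule F V} {v : V} :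
    v ∈ rp b I ↔ ∀ i ∈ I, b i v = 0 := Iff.rfl

theorem mem_lp {b : V →ₗ[F] V →ₗ[F] F} {I : Submodule F V} {v : V} :
    v ∈ lp b I ↔ ∀ i ∈ I, b v i = 0 := Iff.rfl

/-- `I ≤ I^⊥ ≤ ^⊥I`. -/
structure PreGood (b : V →ₗ[F] V →ₗ[F] F) (I : Submodule F V) : Prop where
  le_rp : I ≤ rp b I
  rp_le : rp b I ≤ lp b I

/-- `I ≤ I^⊥ ≤ ^⊥I` and the form induced on `I^⊥/I` is nondegenerate. -/
structure Good (b : V →ₗ[F] V →ₗ[F] F) (I : Submodule F V) : Prop extends PreGood b I where
  rad : ∀ e ∈ rp b I, (∀ u ∈ rp b I, b u e = 0) → e ∈ I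

/-- The extension of `b` to `V × F` with `b^+((u,m),(v,l)) = b(u,v) + l r(u) + d m l`. -/
def ext (b : V →ₗ[F] V →ₗ[F] F) (r : Module.Dual F V) (d : F) :
    (V × F) →ₗ[F] (V × F) →ₗ[F] F :=
  LinearMap.mk₂ F (fun x y => b x.1 y.1 + y.2 * r x.1 + d * x.2 * y.2)
    (by intro x x' y; simp; ring)
    (by intro c x y; simp; ring)
    (by intro x y y'; simp; ring)
    (by intro c x y; simp; ring)

@[simp] theorem ext_apply (b : V →ₗ[F] V →ₗ[F] F) (r : Module.Dual F V) (d : F) (x y : V × F) :
    ext b r d x y = b x.1 y.1 + y.2 * r x.1 + d * x.2 * y.2 := rfl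

end Bil

section Fin

variable {F V : Type} [Field F] [Fintype F] [AddCommGroup V] [Module F V] [Fintype V]

instance instFiniteDual : Finite (Module.Dual F V) :=
  Finite.of_injective (fun f : Module.Dual F V => (f : V → F)) DFunLike.coe_injective

noncomputable instance instFintypeDual : Fintype (Module.Dual F V) := Fintype.ofFinite _

/-- The weights `w(I) = 1 - ∑_{I' > I good} w(I')`. -/
noncomputable def w (b : V →ₗ[F] V →ₗ[F] F) : Submodule F V → ℂ :=
  (wellFounded_gt (α := Submodule F V)).fix fun I rec =>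
    1 - ∑ I' : {I' : Submodule F V // I' > I ∧ Good b I'}, rec I'.1 I'.2.1

omit [Fintype F] in
theorem w_eq (b : V →ₗ[F] V →ₗ[F] F) (I : Submodule F V) :
    w b I = 1 - ∑ I' : {I' : Submodule F V // I' > I ∧ Good b I'}, w b I'.1 := by
  unfold w
  rw [WellFounded.fix_eq]

/-- Normalised-free Gauss sum of `β ⊗ b`, where `β` is a square matrix. -/
noncomputable def gaussSum {ι : Type} [Fintype ι] (β : Matrix ι ι F) (ψ : AddChar F ℂ)
    (b : V →ₗ[F] V →ₗ[F] F) : ℂ :=
  ∑ x : ι → V, ψ (∑ i, ∑ j, β i j * b (x i) (x j))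

/-- The same sum over the vectors with entries in the subspace `K`. -/
noncomputable def gaussSumOn {ι : Type} [Fintype ι] (β : Matrix ι ι F) (ψ : AddChar F ℂ)
    (b : V →ₗ[F] V →ₗ[F] F) (K : Submodule F V) : ℂ :=
  ∑ x : ι → K, ψ (∑ i, ∑ j, β i j * b (x i) (x j))

end Fin

/-- The iterated sums `L`. -/
noncomputable def L {F : Type} [Field F] [Fintype F] {ι : Type} [Fintype ι] (β : Matrix ι ι F)
    (ψ : AddChar F ℂ) : List F → ∀ (V : Type) [AddCommGroup V] [Module F V] [Fintype V],
    (V →ₗ[F] V →ₗ[F] F) → ℂ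
  | [], _, _, _, _, b => gaussSum β ψ b
  | a :: as, V, _, _, _, b =>
      ∑ r : Module.Dual F V, ∑ d : F, ψ (a * d) * L β ψ as (V × F) (ext b r d)

/-- Hypotheses on the pair of matrices `β`, `C` over a field with `q` elements: `β` is an
invertible `2n × 2n` matrix, `C` is an isometry of `β` of order `q ^ n + 1`, `βᵀ = ε Cᵀ β`
with `ε = ± 1`, and `C` is not a zero of a nonzero polynomial of degree `< 2n`, in the strong
sense that the values of such polynomials are invertible. -/
structure SingerForm {F : Type} [Field F] [Fintype F] (n : ℕ)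
    (β C : Matrix (Fin (2 * n)) (Fin (2 * n)) F) (ε : F) : Prop where
  n_pos : 0 < n
  det_ne : IsUnit β
  isom : C.transpose * β * C = β
  asym : β.transpose = ε • (C.transpose * β)
  eps : ε = 1 ∨ ε = -1
  order : orderOf C = Fintype.card F ^ n + 1
  irr : ∀ p : Polynomial F, p ≠ 0 → p.natDegree < 2 * n → IsUnit (Polynomial.aeval C p)

/-- The bilinear form of a matrix. -/
def bil {F ι : Type} [Field F] [Fintype ι] (β : Matrix ι ι F) (u v : ι → F) : F :=
  ∑ i, ∑ j, β i j * u i * v j

/-! ### Group side -/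

section Grp

variable {F V : Type} [Field F] [AddCommGroup V] [Module F V]

/-- A reflection: a non-identity linear automorphism which fixes a hyperplane pointwise. -/
def IsReflection (t : V ≃ₗ[F] V) : Prop :=
  t ≠ 1 ∧ ∃ H : Submodule F V, IsCoatom H ∧ ∀ x ∈ H, t x = x

/-- The isometry group of a bilinear form. -/
def isomGroup (ω : LinearMap.BilinForm F V) : Subgroup (V ≃ₗ[F] V) where
  carrier := {g | ∀ x y, ω (g x) (g y) = ω x y}
  mul_mem' := by
    intro g h hg hh x y
    simp only [LinearEquiv.mul_apply]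
    rw [hg, hh]
  one_mem' := by intro x y; rfl
  inv_mem' := by
    intro g hg x y
    have := hg (g⁻¹ x) (g⁻¹ y)
    simpa [← LinearEquiv.mul_apply] using this.symm

/-- The orthogonal group of a quadratic form. -/
def orthGroup (Q : QuadraticForm F V) : Subgroup (V ≃ₗ[F] V) where
  carrier := {g | ∀ x, Q (g x) = Q x}
  mul_mem' := by
    intro g h hg hh x
    simp only [LinearEquiv.mul_apply]
    rw [hg, hh]
  one_mem' := by intro x; rfl
  inv_mem' := by
    intro g hg x
    have := hg (g⁻¹ x)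
    simpa [← LinearEquiv.mul_apply] using this.symm

/-- The only invariant subspaces of `c` are `0` and `V`. -/
def IsIrred (c : V ≃ₗ[F] V) : Prop :=
  ∀ W : Submodule F V, (∀ x ∈ W, c x ∈ W) → W = ⊥ ∨ W = ⊤

/-- Factorisations of `c` into `N` reflections of the group `G`. -/
def factorizations (G : Subgroup (V ≃ₗ[F] V)) (c : V ≃ₗ[F] V) (N : ℕ) :
    Set (Fin N → (V ≃ₗ[F] V)) :=
  {t | (∀ i, t i ∈ G ∧ IsReflection (t i)) ∧ (List.ofFn t).prod = c}

end Grp

end Pool.Agent.H3.Refl
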