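import Pool.Agent.H3.Refl.Targets

/-!
# M1a: good subspaces and the weights
-/

namespace Pool.Agent.H3.Refl

open scoped Classical
open Finset

section Basic

variable {F V : Type} [Field F] [AddCommGroup V] [Module F V]
  {b b' : V →ₗ[F] V →ₗ[F] F} {I J R : Submodule F V}

theorem rp_anti (h : I ≤ J) : rp b J ≤ rp b I := fun _ hv i hi => hv i (h hi)

theorem lp_anti (h : I ≤ J) : lp b J ≤ lp b I := fun _ hv i hi => hv i (h hi)

theorem preGood_bot (b : V →ₗ[F] V →ₗ[F] F) : PreGood b ⊥ := by
  constructor
  · exact bot_le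
  · intro v _ i hi
    rw [Submodule.mem_bot] at hi
    simp [hi]

theorem mem_rp_sup_span {e v : V} :
    v ∈ rp b (R ⊔ Submodule.span F {e}) ↔ v ∈ rp b R ∧ b e v = 0 := by
  constructor
  · intro h
    exact ⟨fun i hi => h i (Submodule.mem_sup_left hi),
      h e (Submodule.mem_sup_right (Submodule.mem_span_singleton_self e))⟩
  · rintro ⟨h1, h2⟩ i hi
    obtain ⟨y, hy, z, hz, rfl⟩ := Submodule.mem_sup.mp hi
    obtain ⟨c, rfl⟩ := Submodule.mem_span_singleton.mp hz
    simp [h1 y hy, h2]

/-- Data of a non-good pre-good subspace. -/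
theorem exists_rad (hR : PreGood b R) (hn : ¬ Good b R) :
    ∃ e, e ∈ rp b R ∧ e ∉ R ∧ ∀ u ∈ rp b R, b u e = 0 := by
  by_contra hcon
  push Not at hcon
  apply hn
  refine ⟨hR, fun e he hu => ?_⟩
  by_contra heR
  obtain ⟨u, hu1, hu2⟩ := hcon e he heR
  exact hu2 (hu u hu1)

theorem preGood_sup (hR : PreGood b R) {e : V} (he : e ∈ rp b R)
    (hu : ∀ u ∈ rp b R, b u e = 0) : PreGood b (R ⊔ Submodule.span F {e}) := by
  constructor
  · rw [sup_le_iff]
    constructor
    · intro v hv
      rw [mem_rp_sup_span]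
      exact ⟨hR.le_rp hv, hR.rp_le he v hv⟩
    · rw [Submodule.span_singleton_le_iff_mem, mem_rp_sup_span]
      exact ⟨he, hu e he⟩
  · intro v hv
    rw [mem_rp_sup_span] at hv
    intro i hi
    obtain ⟨y, hy, z, hz, rfl⟩ := Submodule.mem_sup.mp hi
    obtain ⟨c, rfl⟩ := Submodule.mem_span_singleton.mp hz
    simp [hR.rp_le hv.1 y hy, hu v hv.1]

theorem Good.sup_le (hI : Good b I) (hRI : R ≤ I) {e : V}
    (hu : ∀ u ∈ rp b R, b u e = 0) : R ⊔ Submodule.span F {e} ≤ I := by
  rw [sup_le_iff]
  refine ⟨hRI, ?_⟩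
  rw [Submodule.span_singleton_le_iff_mem]
  apply hI.rad
  · intro i hi
    exact hu i (rp_anti hRI (hI.le_rp hi))
  · intro u hu'
    exact hu u (rp_anti hRI hu')

/-- The forms `b` and `b'` agree on `(rp b I) × V`. -/
theorem rp_congr (h : ∀ u ∈ rp b I, ∀ v, b' u v = b u v) (hJ : J ≤ rp b I) :
    rp b' J = rp b J := by
  ext v
  constructor
  · intro hv i hi
    rw [← h i (hJ hi) v]; exact hv i hi
  · intro hv i hi
    rw [h i (hJ hi) v]; exact hv i hi

theorem good_of_congr (h : ∀ u ∈ rp b I, ∀ v, b' u v = b u v) (hIJ : I ≤ J)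
    (hJ : Good b J) : Good b' J := by
  have hJK : J ≤ rp b I := hJ.le_rp.trans (rp_anti hIJ)
  have hrp : rp b' J = rp b J := rp_congr h hJK
  refine ⟨⟨?_, ?_⟩, ?_⟩
  · rw [hrp]; exact hJ.le_rp
  · rw [hrp]
    intro v hv i hi
    rw [h v (rp_anti hIJ hv)]
    exact hJ.rp_le hv i hi
  · rw [hrp]
    intro e he hu
    apply hJ.rad e he
    intro u hu'
    rw [← h u (rp_anti hIJ hu')]
    exact hu u hu'

theorem good_congr (hI : I ≤ rp b I) (h : ∀ u ∈ rp b I, ∀ v, b' u v = b u v) (hIJ : I ≤ J) :
    Good b' J ↔ Good b J := by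
  have hrp : rp b' I = rp b I := rp_congr h hI
  constructor
  · intro hJ
    apply good_of_congr (b := b') (b' := b) (I := I) _ hIJ hJ
    intro u hu v
    rw [hrp] at hu
    exact (h u hu v).symm
  · exact good_of_congr h hIJ

end Basic

section Fin

variable {F V : Type} [Field F] [AddCommGroup V] [Module F V] [Fintype V]
  {b b' : V →ₗ[F] V →ₗ[F] F} {I J R : Submodule F V}

theorem w_eq' (b : V →ₗ[F] V →ₗ[F] F) (I : Submodule F V) :
    w b I = 1 - ∑ I' with (I < I' ∧ Good b I'), w b I' := by
  rw [w_eq]
  congr 1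
  rw [Finset.sum_subtype (p := fun I' : Submodule F V => I' > I ∧ Good b I')]
  intro x
  simp

/-- `∑_{I ≥ R good} w(I) = 1` for pre-good `R`. -/
theorem sum_w (hR : PreGood b R) : ∑ I with (R ≤ I ∧ Good b I), w b I = 1 := by
  revert hR
  induction R using WellFoundedGT.induction with
  | ind R ih =>
  intro hR
  by_cases hg : Good b R
  · have : (univ.filter fun I => R ≤ I ∧ Good b I) =
        insert R (univ.filter fun I => R < I ∧ Good b I) := by
      ext I
      simp only [mem_filter, mem_univ, true_and, mem_insert]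
      constructor
      · rintro ⟨h1, h2⟩
        rcases eq_or_lt_of_le h1 with h | h
        · exact Or.inl h.symm
        · exact Or.inr ⟨h, h2⟩
      · rintro (h | h)
        · subst h; exact ⟨le_refl _, hg⟩
        · exact ⟨h.1.le, h.2⟩
    rw [this, sum_insert (by simp), w_eq' b R]
    ring
  · obtain ⟨e, he, heR, hu⟩ := exists_rad hR hg
    have hlt : R < R ⊔ Submodule.span F {e} := by
      refine lt_of_le_of_ne le_sup_left ?_
      intro h
      apply heR
      rw [h]
      exact Submodule.mem_sup_right (Submodule.mem_span_singleton_self e)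
    have := ih _ hlt (preGood_sup hR he hu)
    rw [← this]
    apply sum_congr _ (fun _ _ => rfl)
    ext I
    simp only [mem_filter, mem_univ, true_and]
    constructor
    · rintro ⟨h1, h2⟩
      exact ⟨h2.sup_le h1 hu, h2⟩
    · rintro ⟨h1, h2⟩
      exact ⟨hlt.le.trans h1, h2⟩

theorem w_congr (hI : I ≤ rp b I) (h : ∀ u ∈ rp b I, ∀ v, b' u v = b u v) (hIJ : I ≤ J) :
    w b' J = w b J := by
  revert hIJ
  induction J using WellFoundedGT.induction with
  | ind J ih =>
  intro hIJ
  rw [w_eq' b', w_eq' b]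
  congr 1
  have : (univ.filter fun I' => J < I' ∧ Good b' I') =
      (univ.filter fun I' => J < I' ∧ Good b I') := by
    ext I'
    simp only [mem_filter, mem_univ, true_and]
    constructor
    · rintro ⟨h1, h2⟩
      exact ⟨h1, (good_congr hI h (hIJ.trans h1.le)).mp h2⟩
    · rintro ⟨h1, h2⟩
      exact ⟨h1, (good_congr hI h (hIJ.trans h1.le)).mpr h2⟩
  rw [this]
  apply sum_congr rfl
  intro I' hI'
  simp only [mem_filter, mem_univ, true_and] at hI'
  exact ih I' hI'.1 (hIJ.trans hI'.1.le)

end Fin

/-! ### Rank equalities -/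

section Rank

variable {F X Y : Type} [Field F] [AddCommGroup X] [Module F X] [AddCommGroup Y] [Module F Y]
  [FiniteDimensional F X] [FiniteDimensional F Y]

theorem finrank_range_flip (P : X →ₗ[F] Y →ₗ[F] F) :
    Module.finrank F (LinearMap.range P.flip) = Module.finrank F (LinearMap.range P) := by
  have h1 : P.flip = P.dualMap ∘ₗ (Module.evalEquiv F Y : Y →ₗ[F] Module.Dual F (Module.Dual F Y)) := by
    ext y x
    simp
  rw [h1, LinearMap.range_comp_of_range_eq_top _ (LinearEquiv.range _)]
  exact LinearMap.finrank_range_dualMap_eq_finrank_range P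

theorem finrank_ker_flip (P : X →ₗ[F] Y →ₗ[F] F) :
    Module.finrank F X + Module.finrank F (LinearMap.ker P.flip) =
      Module.finrank F Y + Module.finrank F (LinearMap.ker P) := by
  have h1 := LinearMap.finrank_range_add_finrank_ker P
  have h2 := LinearMap.finrank_range_add_finrank_ker P.flip
  have h3 := finrank_range_flip P
  omega

end Rank

section Fin2

variable {F V : Type} [Field F] [AddCommGroup V] [Module F V] [FiniteDimensional F V]
  {b b' : V →ₗ[F] V →ₗ[F] F} {I J R : Submodule F V}

/-- The left radical of `b` on `rp b I` is contained in `I` too. -/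
theorem Good.lrad (hI : Good b I) {e : V} (he : e ∈ rp b I) (hu : ∀ u ∈ rp b I, b e u = 0) :
    e ∈ I := by
  set K := rp b I with hK
  let P : K →ₗ[F] K →ₗ[F] F := (b.domRestrict₁₂ K K)
  have hP : ∀ x y : K, P x y = b x y := fun x y => rfl
  -- right radical
  have h1 : LinearMap.ker P.flip = I.comap K.subtype := by
    ext x
    simp only [LinearMap.mem_ker, Submodule.mem_comap, Submodule.subtype_apply]
    constructor
    · intro h
      apply hI.rad x.1 x.2
      intro u hu
      have := LinearMap.congr_fun h ⟨u, hu⟩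
      simpa [hP] using this
    · intro h
      ext ⟨u, hu⟩
      simp only [LinearMap.flip_apply, hP, LinearMap.zero_apply]
      exact hI.rp_le hu _ h
  have h2 : I.comap K.subtype ≤ LinearMap.ker P := by
    intro x hx
    simp only [Submodule.mem_comap, Submodule.subtype_apply] at hx
    rw [LinearMap.mem_ker]
    ext ⟨u, hu⟩
    simp only [hP, LinearMap.zero_apply]
    exact hu _ hx
  have h3 := finrank_ker_flip P
  rw [h1] at h3
  have h4 : I.comap K.subtype = LinearMap.ker P :=
    Submodule.eq_of_le_of_finrank_eq h2 (by omega)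
  have h5 : (⟨e, he⟩ : K) ∈ LinearMap.ker P := by
    rw [LinearMap.mem_ker]
    ext ⟨u, hu'⟩
    simp only [hP, LinearMap.zero_apply]
    exact hu u hu'
  rw [← h4] at h5
  simpa using h5

/-- `dim I + dim I^⊥` is the same for good subspaces `R ≤ I`. -/
theorem Good.finrank_add (hR : Good b R) (hI : Good b I) (hRI : R ≤ I) :
    Module.finrank F I + Module.finrank F (rp b I) =
      Module.finrank F R + Module.finrank F (rp b R) := by
  set K := rp b R with hK
  have hIK : I ≤ K := hI.le_rp.trans (rp_anti hRI)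
  have hI'K : rp b I ≤ K := rp_anti hRI
  let P : I →ₗ[F] K →ₗ[F] F := (b.domRestrict₁₂ I K)
  have hP : ∀ (x : I) (y : K), P x y = b x y := fun x y => rfl
  have h1 : LinearMap.ker P.flip = (rp b I).comap K.subtype := by
    ext x
    simp only [LinearMap.mem_ker, Submodule.mem_comap, Submodule.subtype_apply]
    constructor
    · intro h i hi
      have := LinearMap.congr_fun h ⟨i, hi⟩
      simpa [hP] using this
    · intro h
      ext ⟨u, hu⟩
      simp only [LinearMap.flip_apply, hP, LinearMap.zero_apply]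
      exact h u hu
  have h2 : LinearMap.ker P = R.comap I.subtype := by
    ext x
    simp only [LinearMap.mem_ker, Submodule.mem_comap, Submodule.subtype_apply]
    constructor
    · intro h
      apply hR.lrad (hIK x.2)
      intro u hu
      have := LinearMap.congr_fun h ⟨u, hu⟩
      simpa [hP] using this
    · intro h
      ext ⟨u, hu⟩
      simp only [hP, LinearMap.zero_apply]
      exact hu _ h
  have h3 := finrank_ker_flip P
  rw [h1, h2] at h3
  have h4 : Module.finrank F ((rp b I).comap K.subtype) = Module.finrank F (rp b I) :=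
    (Submodule.comapSubtypeEquivOfLe hI'K).finrank_eq
  have h5 : Module.finrank F (R.comap I.subtype) = Module.finrank F R :=
    (Submodule.comapSubtypeEquivOfLe hRI).finrank_eq
  omega

end Fin2

end Pool.Agent.H3.Refl
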