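import Pool.Agent.H3.Refl.M1a

/-!
# M1b: good subspaces of one-step extensions
-/

namespace Pool.Agent.H3.Refl

open scoped Classical
open Finset

section Class

variable {F V : Type} [Field F] [AddCommGroup V] [Module F V]
  {b : V →ₗ[F] V →ₗ[F] F} {I J : Submodule F V} {r : Module.Dual F V} {d : F}

theorem rp_ext_prod_bot (hr : ∀ i ∈ I, r i = 0) :
    rp (ext b r d) (I.prod ⊥) = (rp b I).prod ⊤ := by
  ext ⟨v, m⟩
  simp only [mem_rp, Submodule.mem_prod, Submodule.mem_bot, Submodule.mem_top, and_true, ext_apply]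
  constructor
  · intro h i hi
    have := h (i, 0) ⟨hi, rfl⟩
    simpa [hr i hi] using this
  · rintro h ⟨i, k⟩ ⟨hi, hk⟩
    simp only at hi hk
    subst hk
    simp [h i hi, hr i hi]

theorem rp_ext_prod_top (hr : ∀ i ∈ I, r i = 0) :
    rp (ext b r 0) (I.prod ⊤) = (rp b I).prod ⊤ := by
  ext ⟨v, m⟩
  simp only [mem_rp, Submodule.mem_prod, Submodule.mem_top, and_true, ext_apply]
  constructor
  · intro h i hi
    have := h (i, 0) hi
    simpa [hr i hi] using this
  · rintro h ⟨i, k⟩ hi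
    simp only at hi
    simp [h i hi, hr i hi]

theorem preGood_prod_bot (hI : PreGood b I) (hr : ∀ i ∈ I, r i = 0) :
    PreGood (ext b r d) (I.prod ⊥) := by
  constructor
  · rw [rp_ext_prod_bot hr]
    exact Submodule.prod_mono hI.le_rp bot_le
  · rw [rp_ext_prod_bot hr]
    rintro ⟨v, m⟩ ⟨hv, _⟩ ⟨i, k⟩ ⟨hi, hk⟩
    simp only at hi hk hv
    rw [SetLike.mem_coe, Submodule.mem_bot] at hk
    simp [hk, hI.rp_le hv i hi]

/-- Good subspaces of the extension with `e ∈ (I⁺)^⊥`, case `d ≠ 0`. -/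
theorem class_ne (hd : d ≠ 0) (Ip : Submodule F (V × F)) :
    (Good (ext b r d) Ip ∧ ((0, 1) : V × F) ∈ rp (ext b r d) Ip) ↔
      ∃ I, Ip = I.prod ⊥ ∧ Good b I ∧ ∀ i ∈ I, r i = 0 := by
  constructor
  · rintro ⟨hg, he⟩
    have h2 : ∀ x ∈ Ip, x.2 = 0 := by
      intro x hx
      have := hg.rp_le he x hx
      simpa [hd] using this
    have h1 : ∀ x ∈ Ip, r x.1 = 0 := by
      intro x hx
      have := he x hx
      simpa [h2 x hx] using this
    have h3 : Ip = (Ip.comap (LinearMap.inl F V F)).prod ⊥ := by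
      ext ⟨v, m⟩
      simp only [Submodule.mem_prod, Submodule.mem_comap, LinearMap.inl_apply, Submodule.mem_bot]
      constructor
      · intro h
        have := h2 _ h
        simp only at this
        subst this
        exact ⟨h, rfl⟩
      · rintro ⟨h, hm⟩
        subst hm
        exact h
    set I := Ip.comap (LinearMap.inl F V F) with hI
    have hrI : ∀ i ∈ I, r i = 0 := fun i hi => h1 (i, 0) hi
    refine ⟨I, h3, ?_, hrI⟩
    rw [h3] at hg
    have hrp := rp_ext_prod_bot (b := b) (d := d) hrI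
    refine ⟨⟨?_, ?_⟩, ?_⟩
    · intro i hi
      have : ((i, 0) : V × F) ∈ rp (ext b r d) (I.prod ⊥) := hg.le_rp ⟨hi, Submodule.zero_mem _⟩
      rw [hrp] at this
      exact this.1
    · intro v hv i hi
      have h4 : ((v, 0) : V × F) ∈ rp (ext b r d) (I.prod ⊥) := by
        rw [hrp]; exact ⟨hv, by simp⟩
      have h5 := hg.rp_le h4 (i, 0) ⟨hi, Submodule.zero_mem _⟩
      simpa using h5
    · intro e he hu
      have h4 : ((e, 0) : V × F) ∈ rp (ext b r d) (I.prod ⊥) := by
        rw [hrp]; exact ⟨he, by simp⟩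
      have h5 := hg.rad _ h4 (by
        intro u hu'
        rw [hrp] at hu'
        simp [hu u.1 hu'.1])
      exact h5.1
  · rintro ⟨I, rfl, hI, hr⟩
    have hrp := rp_ext_prod_bot (b := b) (d := d) hr
    refine ⟨⟨preGood_prod_bot hI.toPreGood hr, ?_⟩, ?_⟩
    · rw [hrp]
      rintro ⟨e, m⟩ ⟨he, _⟩ hu
      have hm : m = 0 := by
        have := hu (0, 1) ⟨by simp, by simp⟩
        simpa [hd] using this
      subst hm
      refine ⟨?_, Submodule.zero_mem _⟩
      apply hI.rad e he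
      intro u hu'
      have := hu (u, 0) ⟨hu', by simp⟩
      simpa using this
    · rw [hrp]; exact ⟨by simp, by simp⟩

/-- Good subspaces of the extension with `e ∈ (I⁺)^⊥`, case `d = 0`. -/
theorem class_zero [FiniteDimensional F V] (Ip : Submodule F (V × F)) :
    (Good (ext b r 0) Ip ∧ ((0, 1) : V × F) ∈ rp (ext b r 0) Ip) ↔
      ∃ I, Ip = I.prod ⊤ ∧ Good b I ∧ ∀ i ∈ rp b I, r i = 0 := by
  constructor
  · rintro ⟨hg, he⟩
    have heI : ((0, 1) : V × F) ∈ Ip := by
      apply hg.lrad he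
      intro u _
      simp
    have h1 : ∀ x ∈ Ip, r x.1 = 0 := by
      intro x hx
      have := he x hx
      simpa using this
    have h3 : Ip = (Ip.comap (LinearMap.inl F V F)).prod ⊤ := by
      ext ⟨v, m⟩
      simp only [Submodule.mem_prod, Submodule.mem_comap, LinearMap.inl_apply, Submodule.mem_top,
        and_true]
      have key : ((v, m) : V × F) = (v, 0) + m • ((0, 1) : V × F) := by simp
      constructor
      · intro h
        have h4 : ((v, 0) : V × F) = (v, m) - m • ((0, 1) : V × F) := by simp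
        rw [h4]
        exact Ip.sub_mem h (Ip.smul_mem m heI)
      · intro h
        rw [key]
        exact Ip.add_mem h (Ip.smul_mem m heI)
    set I := Ip.comap (LinearMap.inl F V F) with hI
    have hrI : ∀ i ∈ I, r i = 0 := fun i hi => h1 (i, 0) hi
    rw [h3] at hg
    have hrp := rp_ext_prod_top (b := b) hrI
    have hrI' : ∀ i ∈ rp b I, r i = 0 := by
      intro v hv
      have h4 : ((v, 0) : V × F) ∈ rp (ext b r 0) (I.prod ⊤) := by
        rw [hrp]; exact ⟨hv, by simp⟩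
      have h5 := hg.rp_le h4 (0, 1) ⟨by simp, by simp⟩
      simpa using h5
    refine ⟨I, h3, ?_, hrI'⟩
    refine ⟨⟨?_, ?_⟩, ?_⟩
    · intro i hi
      have : ((i, 0) : V × F) ∈ rp (ext b r 0) (I.prod ⊤) := hg.le_rp ⟨hi, by simp⟩
      rw [hrp] at this
      exact this.1
    · intro v hv i hi
      have h4 : ((v, 0) : V × F) ∈ rp (ext b r 0) (I.prod ⊤) := by
        rw [hrp]; exact ⟨hv, by simp⟩
      have h5 := hg.rp_le h4 (i, 0) ⟨hi, by simp⟩
      simpa using h5
    · intro e he hu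
      have h4 : ((e, 0) : V × F) ∈ rp (ext b r 0) (I.prod ⊤) := by
        rw [hrp]; exact ⟨he, by simp⟩
      have h5 := hg.rad _ h4 (by
        intro u hu'
        rw [hrp] at hu'
        simp [hu u.1 hu'.1])
      exact h5.1
  · rintro ⟨I, rfl, hI, hr'⟩
    have hr : ∀ i ∈ I, r i = 0 := fun i hi => hr' i (hI.le_rp hi)
    have hrp := rp_ext_prod_top (b := b) hr
    refine ⟨⟨⟨?_, ?_⟩, ?_⟩, ?_⟩
    · rw [hrp]
      exact Submodule.prod_mono hI.le_rp le_rfl
    · rw [hrp]
      rintro ⟨v, m⟩ ⟨hv, _⟩ ⟨i, k⟩ ⟨hi, hk⟩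
      simp only at hi hk hv
      simp [hI.rp_le hv i hi, hr' v hv]
    · rw [hrp]
      rintro ⟨e, m⟩ ⟨he, _⟩ hu
      refine ⟨?_, by simp⟩
      apply hI.rad e he
      intro u hu'
      have := hu (u, 0) ⟨hu', by simp⟩
      simpa [hr' u hu'] using this
    · rw [hrp]; exact ⟨by simp, by simp⟩

theorem prod_bot_le_iff : I.prod (⊥ : Submodule F F) ≤ J.prod ⊥ ↔ I ≤ J := by
  constructor
  · intro h i hi
    exact (h (show ((i, 0) : V × F) ∈ I.prod ⊥ from ⟨hi, Submodule.zero_mem _⟩)).1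
  · intro h
    exact Submodule.prod_mono h le_rfl

theorem prod_top_le_iff : I.prod (⊤ : Submodule F F) ≤ J.prod ⊤ ↔ I ≤ J := by
  constructor
  · intro h i hi
    exact (h (show ((i, 0) : V × F) ∈ I.prod ⊤ from ⟨hi, by simp⟩)).1
  · intro h
    exact Submodule.prod_mono h le_rfl

theorem prod_bot_le_top_iff : I.prod (⊥ : Submodule F F) ≤ J.prod ⊤ ↔ I ≤ J := by
  constructor
  · intro h i hi
    exact (h (show ((i, 0) : V × F) ∈ I.prod ⊥ from ⟨hi, Submodule.zero_mem _⟩)).1
  · intro h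
    exact Submodule.prod_mono h bot_le

theorem prod_bot_inj : I.prod (⊥ : Submodule F F) = J.prod ⊥ ↔ I = J := by
  constructor
  · intro h
    exact le_antisymm (prod_bot_le_iff.mp h.le) (prod_bot_le_iff.mp h.ge)
  · rintro rfl; rfl

theorem prod_top_inj : I.prod (⊤ : Submodule F F) = J.prod ⊤ ↔ I = J := by
  constructor
  · intro h
    exact le_antisymm (prod_top_le_iff.mp h.le) (prod_top_le_iff.mp h.ge)
  · rintro rfl; rfl

theorem prod_top_lt_iff : I.prod (⊤ : Submodule F F) < J.prod ⊤ ↔ I < J := by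
  rw [lt_iff_le_and_ne, lt_iff_le_and_ne, prod_top_le_iff, Ne, Ne, prod_top_inj]

end Class

section W

variable {F V : Type} [Field F] [Fintype F] [AddCommGroup V] [Module F V] [Fintype V]
  {b : V →ₗ[F] V →ₗ[F] F} {I J : Submodule F V} {r : Module.Dual F V} {d : F}

/-- `w(I × F) = w(I)` when `d = 0` and `r` vanishes on `I^⊥`. -/
theorem w_prod_top (hI : Good b I) (hr : ∀ i ∈ rp b I, r i = 0) :
    w (ext b r 0) (I.prod ⊤) = w b I := by
  revert hI hr
  induction I using WellFoundedGT.induction with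
  | ind I ih =>
  intro hI hr
  rw [w_eq' (ext b r 0), w_eq' b]
  congr 1
  symm
  refine Finset.sum_bij (fun (I' : Submodule F V) _ => I'.prod (⊤ : Submodule F F)) ?_ ?_ ?_ ?_
  · intro I' hI'
    simp only [mem_filter, mem_univ, true_and] at hI' ⊢
    refine ⟨prod_top_lt_iff.mpr hI'.1, ?_⟩
    exact ((class_zero _).mpr ⟨I', rfl, hI'.2, fun i hi => hr i (rp_anti hI'.1.le hi)⟩).1
  · intro I' _ I'' _ h
    exact prod_top_inj.mp h
  · intro Ip hIp
    simp only [mem_filter, mem_univ, true_and] at hIp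
    have he : ((0, 1) : V × F) ∈ rp (ext b r 0) Ip := by
      apply hIp.2.le_rp
      apply hIp.1.le
      exact ⟨by simp, by simp⟩
    obtain ⟨I', rfl, hI', _⟩ := (class_zero _).mp ⟨hIp.2, he⟩
    refine ⟨I', ?_, rfl⟩
    simp only [mem_filter, mem_univ, true_and]
    exact ⟨prod_top_lt_iff.mp hIp.1, hI'⟩
  · intro I' hI'
    simp only [mem_filter, mem_univ, true_and] at hI'
    exact (ih I' hI'.1 hI'.2 (fun i hi => hr i (rp_anti hI'.1.le hi))).symm

end W

/-! ### Translation -/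

section Trans

variable {F V : Type} [Field F] [AddCommGroup V] [Module F V]

theorem exists_gamma {W : Type} [AddCommGroup W] [Module F W] {K : Submodule F W} {e : W}
    (he : e ∉ K) : ∃ γ : Module.Dual F W, (∀ u ∈ K, γ u = 0) ∧ γ e = 1 := by
  obtain ⟨f, hf1, hf2⟩ := Submodule.exists_dual_map_eq_bot_of_notMem he inferInstance
  refine ⟨(f e)⁻¹ • f, ?_, ?_⟩
  · intro u hu
    have : f u ∈ K.map f := Submodule.mem_map_of_mem hu
    rw [hf2, Submodule.mem_bot] at this
    simp [this]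
  · simp [hf1]

theorem ext_trans (b : V →ₗ[F] V →ₗ[F] F) (r : Module.Dual F V) (d : F)
    (γ : Module.Dual F (V × F)) (hγ : γ (0, 1) = 1) (x : F) (u v : V × F) :
    ext b (r + x • (γ ∘ₗ LinearMap.inl F V F)) (d + x) u v =
      ext b r d u v + x * γ u * v.2 := by
  have h : γ u = γ (u.1, 0) + u.2 := by
    have : u = (u.1, 0) + u.2 • ((0, 1) : V × F) := by simp
    conv_lhs => rw [this]
    rw [map_add, map_smul, hγ]; simp
  simp only [ext_apply, LinearMap.add_apply, LinearMap.smul_apply, LinearMap.comp_apply,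
    LinearMap.inl_apply, smul_eq_mul]
  rw [h]; ring

theorem ext_trans_eq (b : V →ₗ[F] V →ₗ[F] F) (r : Module.Dual F V) (d : F)
    (γ : Module.Dual F (V × F)) (hγ : γ (0, 1) = 1) (x : F) {Ip : Submodule F (V × F)}
    (h0 : ∀ u ∈ rp (ext b r d) Ip, γ u = 0) :
    ∀ u ∈ rp (ext b r d) Ip, ∀ v,
      ext b (r + x • (γ ∘ₗ LinearMap.inl F V F)) (d + x) u v = ext b r d u v := by
  intro u hu v
  rw [ext_trans b r d γ hγ x u v, h0 u hu]
  ring

end Trans

section Sum

variable {F V : Type} [Field F] [Fintype F] [AddCommGroup V] [Module F V] [Fintype V]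

omit [Fintype F] in
theorem exists_psi_ne {ψ : AddChar F ℂ} (hψ : ψ ≠ 1) {a : F} (ha : a ≠ 0) :
    ∃ x : F, ψ (a * x) ≠ 1 := by
  obtain ⟨y, hy⟩ := (AddChar.ne_one_iff).mp hψ
  exact ⟨a⁻¹ * y, by rwa [mul_inv_cancel_left₀ ha]⟩

theorem sum_psi {ψ : AddChar F ℂ} (hψ : ψ ≠ 1) {a : F} (ha : a ≠ 0) :
    ∑ d : F, ψ (a * d) = 0 := by
  obtain ⟨x, hx⟩ := exists_psi_ne hψ ha
  have h : ∑ d : F, ψ (a * d) = ψ (a * x) * ∑ d : F, ψ (a * d) := by
    rw [mul_sum]
    rw [← Equiv.sum_comp (Equiv.addLeft x) (fun d => ψ (a * d))]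
    apply sum_congr rfl
    intro d _
    simp [mul_add, AddChar.map_add_eq_mul]
  have h2 : (1 - ψ (a * x)) * ∑ d : F, ψ (a * d) = 0 := by
    rw [sub_mul, one_mul, ← h, sub_self]
  rcases mul_eq_zero.mp h2 with h3 | h3
  · exact absurd (sub_eq_zero.mp h3).symm hx
  · exact h3

/-- A function invariant under a translation with nonzero `d`-component is killed. -/
theorem sum_trans {ψ : AddChar F ℂ} (hψ : ψ ≠ 1) {a : F} (ha : a ≠ 0)
    (γ : Module.Dual F V) (f : Module.Dual F V → F → ℂ)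
    (hf : ∀ r d x, f (r + x • γ) (d + x) = f r d) :
    ∑ r : Module.Dual F V, ∑ d : F, ψ (a * d) * f r d = 0 := by
  obtain ⟨x, hx⟩ := exists_psi_ne hψ ha
  set S := ∑ r : Module.Dual F V, ∑ d : F, ψ (a * d) * f r d with hS
  have h : S = ψ (a * x) * S := by
    have h1 : S = ∑ r : Module.Dual F V, ∑ d : F, ψ (a * (d + x)) * f (r + x • γ) (d + x) := by
      rw [hS, ← Equiv.sum_comp (Equiv.addRight (x • γ))
        (fun r => ∑ d : F, ψ (a * d) * f r d)]
      apply sum_congr rfl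
      intro r _
      rw [← Equiv.sum_comp (Equiv.addRight x)]
      rfl
    refine h1.trans ?_
    rw [hS, mul_sum]
    apply sum_congr rfl
    intro r _
    rw [mul_sum]
    apply sum_congr rfl
    intro d _
    rw [hf, mul_add, AddChar.map_add_eq_mul]
    ring
  have h2 : (1 - ψ (a * x)) * S = 0 := by
    rw [sub_mul, one_mul, ← h, sub_self]
  rcases mul_eq_zero.mp h2 with h3 | h3
  · exact absurd (sub_eq_zero.mp h3).symm hx
  · exact h3

/-- The contribution of the good subspaces `I⁺` with `e ∉ (I⁺)^⊥` vanishes. -/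
theorem vanish {ψ : AddChar F ℂ} (hψ : ψ ≠ 1) {a : F} (ha : a ≠ 0)
    (b : V →ₗ[F] V →ₗ[F] F) (I₀ : Submodule F V)
    (H : Submodule F (V × F) → Submodule F (V × F) → ℂ) :
    ∑ r with (∀ i ∈ I₀, r i = 0), ∑ d : F, ψ (a * d) *
      ∑ Ip with (I₀.prod ⊥ ≤ Ip ∧ Good (ext b r d) Ip ∧ ((0, 1) : V × F) ∉ rp (ext b r d) Ip),
        H Ip (rp (ext b r d) Ip) * w (ext b r d) Ip = 0 := by
  -- the value for fixed `Ip`, `K`
  let f : Submodule F (V × F) → Submodule F (V × F) → Module.Dual F V → F → ℂ :=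
    fun Ip K r d => if (∀ i ∈ I₀, r i = 0) ∧ Good (ext b r d) Ip ∧ rp (ext b r d) Ip = K then
      w (ext b r d) Ip else 0
  have hf : ∀ Ip K, I₀.prod ⊥ ≤ Ip → ((0, 1) : V × F) ∉ K →
      ∑ r : Module.Dual F V, ∑ d : F, ψ (a * d) * f Ip K r d = 0 := by
    intro Ip K hle hK
    obtain ⟨γ, hγ0, hγ1⟩ := exists_gamma hK
    apply sum_trans hψ ha (γ ∘ₗ LinearMap.inl F V F)
    -- one direction suffices
    have key : ∀ r d x, ((∀ i ∈ I₀, r i = 0) ∧ Good (ext b r d) Ip ∧ rp (ext b r d) Ip = K) →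
        ((∀ i ∈ I₀, (r + x • (γ ∘ₗ LinearMap.inl F V F)) i = 0) ∧
          Good (ext b (r + x • (γ ∘ₗ LinearMap.inl F V F)) (d + x)) Ip ∧
          rp (ext b (r + x • (γ ∘ₗ LinearMap.inl F V F)) (d + x)) Ip = K) ∧
        w (ext b (r + x • (γ ∘ₗ LinearMap.inl F V F)) (d + x)) Ip = w (ext b r d) Ip := by
      rintro r d x ⟨h1, h2, h3⟩
      have h0 : ∀ u ∈ rp (ext b r d) Ip, γ u = 0 := by
        intro u hu; rw [h3] at hu; exact hγ0 u hu
      have hc := ext_trans_eq b r d γ hγ1 x h0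
      refine ⟨⟨?_, ?_, ?_⟩, ?_⟩
      · intro i hi
        have : γ (i, 0) = 0 := by
          apply h0
          apply h2.le_rp
          apply hle
          exact ⟨hi, Submodule.zero_mem _⟩
        simp [h1 i hi, this]
      · exact (good_congr h2.le_rp hc le_rfl).mpr h2
      · rw [rp_congr hc h2.le_rp, h3]
      · exact w_congr h2.le_rp hc le_rfl
    intro r d x
    simp only [f]
    by_cases hcond : (∀ i ∈ I₀, r i = 0) ∧ Good (ext b r d) Ip ∧ rp (ext b r d) Ip = K
    · obtain ⟨k1, k2⟩ := key r d x hcond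
      rw [if_pos hcond, if_pos k1, k2]
    · rw [if_neg hcond, if_neg]
      intro hcond'
      apply hcond
      have := (key _ _ (-x) hcond').1
      have e1 : r + x • (γ ∘ₗ LinearMap.inl F V F) + (-x) • (γ ∘ₗ LinearMap.inl F V F) = r := by
        apply LinearMap.ext; intro v; simp
      rw [e1, add_neg_cancel_right] at this
      exact this
  -- rewrite the sum
  have hrew : ∀ r : Module.Dual F V, (∀ i ∈ I₀, r i = 0) → ∀ d : F,
      ∑ Ip with (I₀.prod ⊥ ≤ Ip ∧ Good (ext b r d) Ip ∧ ((0, 1) : V × F) ∉ rp (ext b r d) Ip),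
        H Ip (rp (ext b r d) Ip) * w (ext b r d) Ip =
      ∑ Ip with I₀.prod ⊥ ≤ Ip, ∑ K with ((0, 1) : V × F) ∉ K, H Ip K * f Ip K r d := by
    intro r hr d
    have h1 : (univ.filter fun Ip : Submodule F (V × F) => I₀.prod ⊥ ≤ Ip ∧
          Good (ext b r d) Ip ∧ ((0, 1) : V × F) ∉ rp (ext b r d) Ip) =
        (univ.filter fun Ip : Submodule F (V × F) => I₀.prod ⊥ ≤ Ip).filter fun Ip =>
          Good (ext b r d) Ip ∧ ((0, 1) : V × F) ∉ rp (ext b r d) Ip := by
      rw [filter_filter]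
    rw [h1, sum_filter]
    apply sum_congr rfl
    intro Ip _
    by_cases hg : Good (ext b r d) Ip ∧ ((0, 1) : V × F) ∉ rp (ext b r d) Ip
    · rw [if_pos hg]
      rw [sum_eq_single_of_mem (rp (ext b r d) Ip) (by simpa using hg.2)]
      · dsimp only [f]
        rw [if_pos ⟨hr, hg.1, rfl⟩]
      · intro K _ hK
        simp only [f]
        rw [if_neg (fun h => hK h.2.2.symm), mul_zero]
    · rw [if_neg hg]
      symm
      apply sum_eq_zero
      intro K hK
      simp only [f]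
      rw [if_neg, mul_zero]
      rintro ⟨_, h2, h3⟩
      apply hg
      refine ⟨h2, ?_⟩
      rw [h3]
      simpa using hK
  have hrew2 : ∑ r with (∀ i ∈ I₀, r i = 0), ∑ d : F, ψ (a * d) *
      ∑ Ip with (I₀.prod ⊥ ≤ Ip ∧ Good (ext b r d) Ip ∧ ((0, 1) : V × F) ∉ rp (ext b r d) Ip),
        H Ip (rp (ext b r d) Ip) * w (ext b r d) Ip =
      ∑ r : Module.Dual F V, ∑ d : F, ψ (a * d) *
        ∑ Ip with I₀.prod ⊥ ≤ Ip, ∑ K with ((0, 1) : V × F) ∉ K, H Ip K * f Ip K r d := by
    rw [sum_filter]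
    apply sum_congr rfl
    intro r _
    split_ifs with hr
    · apply sum_congr rfl
      intro d _
      rw [hrew r hr d]
    · symm
      apply sum_eq_zero
      intro d _
      rw [sum_eq_zero, mul_zero]
      intro Ip _
      apply sum_eq_zero
      intro K _
      simp only [f]
      rw [if_neg (fun h => hr h.1), mul_zero]
  rw [hrew2]
  have hswap : ∑ r : Module.Dual F V, ∑ d : F, ψ (a * d) *
        ∑ Ip with I₀.prod ⊥ ≤ Ip, ∑ K with ((0, 1) : V × F) ∉ K, H Ip K * f Ip K r d =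
      ∑ Ip with I₀.prod ⊥ ≤ Ip, ∑ K with ((0, 1) : V × F) ∉ K,
        H Ip K * ∑ r : Module.Dual F V, ∑ d : F, ψ (a * d) * f Ip K r d := by
    have s1 : ∀ r : Module.Dual F V, ∑ d : F, ψ (a * d) *
        ∑ Ip with I₀.prod ⊥ ≤ Ip, ∑ K with ((0, 1) : V × F) ∉ K, H Ip K * f Ip K r d =
        ∑ Ip with I₀.prod ⊥ ≤ Ip, ∑ K with ((0, 1) : V × F) ∉ K, ∑ d : F,
          H Ip K * (ψ (a * d) * f Ip K r d) := by
      intro r
      simp only [mul_sum]
      rw [sum_comm]
      apply sum_congr rfl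
      intro Ip _
      rw [sum_comm]
      apply sum_congr rfl
      intro K _
      apply sum_congr rfl
      intro d _
      ring
    simp only [s1]
    rw [sum_comm]
    apply sum_congr rfl
    intro Ip _
    rw [sum_comm]
    apply sum_congr rfl
    intro K _
    simp only [mul_sum]
  rw [hswap]
  apply sum_eq_zero
  intro Ip hIp
  apply sum_eq_zero
  intro K hK
  rw [hf Ip K (mem_filter.mp hIp).2 (mem_filter.mp hK).2, mul_zero]

end Sum

end Pool.Agent.H3.Refl
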