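import Pool.Agent.H3.Refl.M1b

/-!
# M1c: the recursion
-/

namespace Pool.Agent.H3.Refl

open scoped Classical
open Finset

section Split

variable {F V : Type} [Field F] [Fintype F] [AddCommGroup V] [Module F V] [Fintype V]

/-- The number of functionals vanishing on `K`. -/
noncomputable def nAnn (K : Submodule F V) : ℕ :=
  (univ.filter fun r : Module.Dual F V => ∀ v ∈ K, r v = 0).card

theorem nAnn_prod_top (K : Submodule F V) : nAnn (K.prod (⊤ : Submodule F F)) = nAnn K := by
  unfold nAnn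
  symm
  refine Finset.card_bij (fun r _ => r ∘ₗ LinearMap.fst F V F) ?_ ?_ ?_
  · intro r hr
    simp only [mem_filter, mem_univ, true_and] at hr ⊢
    intro v hv
    exact hr v.1 hv.1
  · intro r _ r' _ h
    apply LinearMap.ext
    intro v
    have := LinearMap.congr_fun h (v, 0)
    simpa using this
  · intro r hr
    simp only [mem_filter, mem_univ, true_and] at hr
    refine ⟨r ∘ₗ LinearMap.inl F V F, ?_, ?_⟩
    · simp only [mem_filter, mem_univ, true_and]
      intro v hv
      exact hr (v, 0) ⟨hv, by simp⟩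
    · apply LinearMap.ext
      rintro ⟨v, m⟩
      have h1 : ((v, m) : V × F) = (v, 0) + (0, m) := by simp
      have h2 : r (0, m) = 0 := hr (0, m) ⟨K.zero_mem, by simp⟩
      simp only [LinearMap.comp_apply, LinearMap.fst_apply, LinearMap.inl_apply]
      rw [h1, map_add, h2]; simp

theorem sum_class_ne (b : V →ₗ[F] V →ₗ[F] F) (r : Module.Dual F V) {d : F} (hd : d ≠ 0)
    (I₀ : Submodule F V) (Φ : Submodule F (V × F) → ℂ) :
    ∑ Ip with (I₀.prod ⊥ ≤ Ip ∧ Good (ext b r d) Ip ∧ ((0, 1) : V × F) ∈ rp (ext b r d) Ip), Φ Ip =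
      ∑ I with (I₀ ≤ I ∧ Good b I ∧ ∀ i ∈ I, r i = 0), Φ (I.prod ⊥) := by
  symm
  refine Finset.sum_bij (fun (I : Submodule F V) _ => I.prod (⊥ : Submodule F F)) ?_ ?_ ?_ ?_
  · intro I hI
    simp only [mem_filter, mem_univ, true_and] at hI ⊢
    refine ⟨prod_bot_le_iff.mpr hI.1, ?_⟩
    exact (class_ne hd _).mpr ⟨I, rfl, hI.2⟩
  · intro I _ I' _ h
    exact prod_bot_inj.mp h
  · intro Ip hIp
    simp only [mem_filter, mem_univ, true_and] at hIp
    obtain ⟨I, rfl, hI, hr⟩ := (class_ne hd _).mp hIp.2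
    refine ⟨I, ?_, rfl⟩
    simp only [mem_filter, mem_univ, true_and]
    exact ⟨prod_bot_le_iff.mp hIp.1, hI, hr⟩
  · intro I _; rfl

theorem sum_class_zero (b : V →ₗ[F] V →ₗ[F] F) (r : Module.Dual F V)
    (I₀ : Submodule F V) (Φ : Submodule F (V × F) → ℂ) :
    ∑ Ip with (I₀.prod ⊥ ≤ Ip ∧ Good (ext b r 0) Ip ∧ ((0, 1) : V × F) ∈ rp (ext b r 0) Ip), Φ Ip =
      ∑ I with (I₀ ≤ I ∧ Good b I ∧ ∀ i ∈ rp b I, r i = 0), Φ (I.prod ⊤) := by
  symm
  refine Finset.sum_bij (fun (I : Submodule F V) _ => I.prod (⊤ : Submodule F F)) ?_ ?_ ?_ ?_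
  · intro I hI
    simp only [mem_filter, mem_univ, true_and] at hI ⊢
    refine ⟨prod_bot_le_top_iff.mpr hI.1, ?_⟩
    exact (class_zero _).mpr ⟨I, rfl, hI.2⟩
  · intro I _ I' _ h
    exact prod_top_inj.mp h
  · intro Ip hIp
    simp only [mem_filter, mem_univ, true_and] at hIp
    obtain ⟨I, rfl, hI, hr⟩ := (class_zero _).mp hIp.2
    refine ⟨I, ?_, rfl⟩
    simp only [mem_filter, mem_univ, true_and]
    exact ⟨prod_bot_le_top_iff.mp hIp.1, hI, hr⟩
  · intro I _; rfl

/-- The contribution of `d ≠ 0` attached to a good subspace `I`. -/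
noncomputable def Psi (ψ : AddChar F ℂ) (a : F) (b : V →ₗ[F] V →ₗ[F] F) (I : Submodule F V) : ℂ :=
  ∑ d : F with d ≠ 0, ψ (a * d) *
    ∑ r : Module.Dual F V with (∀ i ∈ I, r i = 0), w (ext b r d) (I.prod ⊥)

theorem split {ψ : AddChar F ℂ} (hψ : ψ ≠ 1) {a : F} (ha : a ≠ 0)
    (b : V →ₗ[F] V →ₗ[F] F) (I₀ : Submodule F V)
    (H : Submodule F (V × F) → Submodule F (V × F) → ℂ) :
    ∑ r with (∀ i ∈ I₀, r i = 0), ∑ d : F, ψ (a * d) *
      ∑ Ip with (I₀.prod ⊥ ≤ Ip ∧ Good (ext b r d) Ip),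
        H Ip (rp (ext b r d) Ip) * w (ext b r d) Ip =
      ∑ I with (I₀ ≤ I ∧ Good b I),
        (H (I.prod ⊥) ((rp b I).prod ⊤) * Psi ψ a b I +
          H (I.prod ⊤) ((rp b I).prod ⊤) * (nAnn (rp b I) * w b I)) := by
  -- split according to whether `e` lies in `rp`
  have h1 : ∀ (r : Module.Dual F V) (d : F),
      ∑ Ip with (I₀.prod ⊥ ≤ Ip ∧ Good (ext b r d) Ip),
        H Ip (rp (ext b r d) Ip) * w (ext b r d) Ip =
      ∑ Ip with (I₀.prod ⊥ ≤ Ip ∧ Good (ext b r d) Ip ∧ ((0, 1) : V × F) ∉ rp (ext b r d) Ip),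
        H Ip (rp (ext b r d) Ip) * w (ext b r d) Ip +
      ∑ Ip with (I₀.prod ⊥ ≤ Ip ∧ Good (ext b r d) Ip ∧ ((0, 1) : V × F) ∈ rp (ext b r d) Ip),
        H Ip (rp (ext b r d) Ip) * w (ext b r d) Ip := by
    intro r d
    rw [← sum_filter_add_sum_filter_not (univ.filter fun Ip : Submodule F (V × F) =>
      I₀.prod ⊥ ≤ Ip ∧ Good (ext b r d) Ip) (fun Ip => ((0, 1) : V × F) ∉ rp (ext b r d) Ip)]
    rw [filter_filter, filter_filter]
    congr 1
    · apply sum_congr _ (fun _ _ => rfl)
      ext Ip; simp only [mem_filter, mem_univ, true_and, and_assoc]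
    · apply sum_congr _ (fun _ _ => rfl)
      ext Ip; simp only [mem_filter, mem_univ, true_and, and_assoc, not_not]
  simp only [h1, mul_add, sum_add_distrib]
  rw [vanish hψ ha b I₀ H, zero_add]
  -- sum over `d` first
  have h2 : ∀ r : Module.Dual F V, ∑ d : F, ψ (a * d) *
      ∑ Ip with (I₀.prod ⊥ ≤ Ip ∧ Good (ext b r d) Ip ∧ ((0, 1) : V × F) ∈ rp (ext b r d) Ip),
        H Ip (rp (ext b r d) Ip) * w (ext b r d) Ip =
      ∑ d : F with d ≠ 0, ψ (a * d) *
        ∑ I with (I₀ ≤ I ∧ Good b I ∧ ∀ i ∈ I, r i = 0),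
          H (I.prod ⊥) ((rp b I).prod ⊤) * w (ext b r d) (I.prod ⊥) +
      ∑ I with (I₀ ≤ I ∧ Good b I ∧ ∀ i ∈ rp b I, r i = 0),
          H (I.prod ⊤) ((rp b I).prod ⊤) * w b I := by
    intro r
    rw [← sum_filter_add_sum_filter_not (univ : Finset F) (fun d => d ≠ 0)]
    congr 1
    · apply sum_congr rfl
      intro d hd
      have hd' : d ≠ 0 := by simpa using hd
      rw [sum_class_ne b r hd' I₀]
      congr 1
      apply sum_congr rfl
      intro I hI
      simp only [mem_filter, mem_univ, true_and] at hI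
      rw [rp_ext_prod_bot hI.2.2]
    · have : (univ.filter fun d : F => ¬ d ≠ 0) = {0} := by
        ext d; simp
      rw [this, sum_singleton, mul_zero, AddChar.map_zero_eq_one, one_mul]
      rw [sum_class_zero b r I₀]
      apply sum_congr rfl
      intro I hI
      simp only [mem_filter, mem_univ, true_and] at hI
      rw [rp_ext_prod_top (fun i hi => hI.2.2 i (hI.2.1.le_rp hi)), w_prod_top hI.2.1 hI.2.2]
  simp only [h2, sum_add_distrib]
  congr 1
  · -- the part `d ≠ 0`
    rw [sum_comm]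
    have h3 : ∀ d : F, ∑ r : Module.Dual F V with (∀ i ∈ I₀, r i = 0), ψ (a * d) *
        ∑ I with (I₀ ≤ I ∧ Good b I ∧ ∀ i ∈ I, r i = 0),
          H (I.prod ⊥) ((rp b I).prod ⊤) * w (ext b r d) (I.prod ⊥) =
        ∑ I with (I₀ ≤ I ∧ Good b I), H (I.prod ⊥) ((rp b I).prod ⊤) * (ψ (a * d) *
          ∑ r : Module.Dual F V with (∀ i ∈ I, r i = 0), w (ext b r d) (I.prod ⊥)) := by
      intro d
      simp only [mul_sum]
      rw [sum_comm' (s := univ.filter fun r : Module.Dual F V => ∀ i ∈ I₀, r i = 0)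
        (t := fun r => univ.filter fun I : Submodule F V => I₀ ≤ I ∧ Good b I ∧ ∀ i ∈ I, r i = 0)
        (t' := univ.filter fun I : Submodule F V => I₀ ≤ I ∧ Good b I)
        (s' := fun I => univ.filter fun r : Module.Dual F V => ∀ i ∈ I, r i = 0)]
      · apply sum_congr rfl
        intro I _
        apply sum_congr rfl
        intro r _
        ring
      · intro r I
        simp only [mem_filter, mem_univ, true_and]
        constructor
        · rintro ⟨_, h2, h3, h4⟩; exact ⟨h4, h2, h3⟩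
        · rintro ⟨h1, h2, h3⟩; exact ⟨fun i hi => h1 i (h2 hi), h2, h3, h1⟩
    simp only [h3]
    rw [sum_comm]
    apply sum_congr rfl
    intro I _
    rw [Psi, mul_sum]
  · rw [sum_comm' (s := univ.filter fun r : Module.Dual F V => ∀ i ∈ I₀, r i = 0)
        (t := fun r => univ.filter fun I : Submodule F V => I₀ ≤ I ∧ Good b I ∧ ∀ i ∈ rp b I, r i = 0)
        (t' := univ.filter fun I : Submodule F V => I₀ ≤ I ∧ Good b I)
        (s' := fun I => univ.filter fun r : Module.Dual F V => ∀ i ∈ rp b I, r i = 0)]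
    · apply sum_congr rfl
      intro I _
      rw [sum_const, nsmul_eq_mul]
      unfold nAnn
      ring
    · intro r I
      simp only [mem_filter, mem_univ, true_and]
      constructor
      · rintro ⟨_, h2, h3, h4⟩; exact ⟨h4, h2, h3⟩
      · rintro ⟨h1, h2, h3⟩
        exact ⟨fun i hi => h1 i (h3.le_rp (h2 hi)), h2, h3, h1⟩

/-- (E2). -/
theorem Psi_eq {ψ : AddChar F ℂ} (hψ : ψ ≠ 1) {a : F} (ha : a ≠ 0)
    (b : V →ₗ[F] V →ₗ[F] F) {I : Submodule F V} (hI : Good b I) :
    Psi ψ a b I = - (nAnn (rp b I) * w b I) := by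
  have key : ∀ I : Submodule F V, Good b I →
      ∑ I' with (I ≤ I' ∧ Good b I'), (Psi ψ a b I' + nAnn (rp b I') * w b I') = 0 := by
    intro I hI
    have h := split hψ ha b I (fun _ _ => 1)
    simp only [one_mul] at h
    rw [← h]
    have h2 : ∀ r : Module.Dual F V, (∀ i ∈ I, r i = 0) → ∀ d : F,
        ∑ Ip with (I.prod ⊥ ≤ Ip ∧ Good (ext b r d) Ip), w (ext b r d) Ip = 1 := by
      intro r hr d
      exact sum_w (preGood_prod_bot hI.toPreGood hr)
    apply sum_eq_zero
    intro r hr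
    rw [mem_filter] at hr
    simp only [h2 r hr.2, mul_one]
    exact sum_psi hψ ha
  revert hI
  induction I using WellFoundedGT.induction with
  | ind I ih =>
  intro hI
  have h := key I hI
  rw [sum_eq_single_of_mem I (by simp [hI])] at h
  · exact eq_neg_of_add_eq_zero_left h
  · intro I' hI' hne
    simp only [mem_filter, mem_univ, true_and] at hI'
    rw [ih I' (lt_of_le_of_ne hI'.1 (Ne.symm hne)) hI'.2]
    ring

end Split

section Main

variable {F : Type} [Field F] [Fintype F]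

/-- The right-hand side of the formula for `L`. -/
noncomputable def rhs {V : Type} [AddCommGroup V] [Module F V] [Fintype V] (t : ℂ) (n : ℕ)
    (b : V →ₗ[F] V →ₗ[F] F) : ℂ :=
  (t * (t - 1)) ^ n * ∑ I with Good b I,
    t ^ (Module.finrank F I + Module.finrank F (rp b I)) * (nAnn (rp b I) : ℂ) ^ n * w b I

/-- The product of two subspaces. -/
def prodEq {V W : Type} [AddCommGroup V] [Module F V] [AddCommGroup W] [Module F W]
    (K : Submodule F V) (K' : Submodule F W) : ↥(K.prod K') ≃ₗ[F] K × K' where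
  toFun x := (⟨x.1.1, x.2.1⟩, ⟨x.1.2, x.2.2⟩)
  invFun x := ⟨(x.1.1, x.2.1), ⟨x.1.2, x.2.2⟩⟩
  map_add' _ _ := rfl
  map_smul' _ _ := rfl
  left_inv _ := rfl
  right_inv _ := rfl

theorem finrank_prod_top {V : Type} [AddCommGroup V] [Module F V] [Fintype V]
    (K : Submodule F V) :
    Module.finrank F (K.prod (⊤ : Submodule F F)) = Module.finrank F K + 1 := by
  rw [(prodEq K (⊤ : Submodule F F)).finrank_eq, Module.finrank_prod, finrank_top,
    Module.finrank_self]

theorem finrank_prod_bot {V : Type} [AddCommGroup V] [Module F V] [Fintype V]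
    (K : Submodule F V) :
    Module.finrank F (K.prod (⊥ : Submodule F F)) = Module.finrank F K := by
  rw [(prodEq K (⊥ : Submodule F F)).finrank_eq, Module.finrank_prod, finrank_bot, add_zero]

/-- The formula for `L`. -/
theorem L_formula {ι : Type} [Fintype ι] (β : Matrix ι ι F) {ψ : AddChar F ℂ} (hψ : ψ ≠ 1)
    (t : ℂ) (D : ℕ)
    (hG : ∀ (V : Type) [AddCommGroup V] [Module F V] [Fintype V] (b : V →ₗ[F] V →ₗ[F] F),
      Module.finrank F V < D → gaussSum β ψ b = rhs t 0 b) :
    ∀ (as : List F), (∀ a ∈ as, a ≠ 0) → ∀ (V : Type) [AddCommGroup V] [Module F V] [Fintype V]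
      (b : V →ₗ[F] V →ₗ[F] F), Module.finrank F V + as.length < D →
      L β ψ as V b = rhs t as.length b := by
  intro as
  induction as with
  | nil =>
    intro _ V _ _ _ b hV
    exact hG V b (by simpa using hV)
  | cons a as ih =>
    intro has V _ _ _ b hV
    have ha : a ≠ 0 := has a (by simp)
    have has' : ∀ x ∈ as, x ≠ 0 := fun x hx => has x (by simp [hx])
    have h1 : ∀ (r : Module.Dual F V) (d : F),
        L β ψ as (V × F) (ext b r d) = rhs t as.length (ext b r d) := by
      intro r d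
      apply ih has'
      rw [Module.finrank_prod, Module.finrank_self]
      rw [List.length_cons] at hV
      omega
    have h2 : L β ψ (a :: as) V b =
        ∑ r : Module.Dual F V, ∑ d : F, ψ (a * d) * L β ψ as (V × F) (ext b r d) := rfl
    rw [h2]
    simp only [h1]
    set n := as.length with hn
    have hs := split hψ ha b ⊥ (fun Ip K => t ^ (Module.finrank F Ip + Module.finrank F K) *
      (nAnn K : ℂ) ^ n)
    have e1 : (univ.filter fun r : Module.Dual F V => ∀ i ∈ (⊥ : Submodule F V), r i = 0) =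
        univ := by
      ext r
      simp only [mem_filter, mem_univ, true_and, iff_true]
      intro i hi
      rw [Submodule.mem_bot] at hi
      rw [hi, map_zero]
    have e2 : ((⊥ : Submodule F V).prod (⊥ : Submodule F F)) = ⊥ := Submodule.prod_bot
    rw [e1, e2] at hs
    simp only [bot_le, true_and] at hs
    have h3 : ∑ r : Module.Dual F V, ∑ d : F, ψ (a * d) * rhs t n (ext b r d) =
        (t * (t - 1)) ^ n * ∑ r : Module.Dual F V, ∑ d : F, ψ (a * d) *
          ∑ Ip with Good (ext b r d) Ip,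
            t ^ (Module.finrank F Ip + Module.finrank F (rp (ext b r d) Ip)) *
              (nAnn (rp (ext b r d) Ip) : ℂ) ^ n * w (ext b r d) Ip := by
      rw [mul_sum]
      apply sum_congr rfl
      intro r _
      rw [mul_sum]
      apply sum_congr rfl
      intro d _
      rw [rhs]
      ring
    rw [h3, hs, rhs, List.length_cons, ← hn, mul_sum, mul_sum]
    apply sum_congr rfl
    intro I hI
    rw [mem_filter] at hI
    rw [Psi_eq hψ ha b hI.2, finrank_prod_top, finrank_prod_top, finrank_prod_bot, nAnn_prod_top]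
    ring

end Main

end Pool.Agent.H3.Refl
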