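import Pool.Agent.H3.Refl.M1c

/-!
# M1d: the Gauss sum of an arbitrary bilinear space from those of good subspaces
-/

namespace Pool.Agent.H3.Refl

open scoped Classical
open Finset

variable {F V : Type} [Field F] [Fintype F] [AddCommGroup V] [Module F V] [Fintype V]

/-- The quadratic function in the Gauss sum. -/
def qf {ι : Type} [Fintype ι] (β : Matrix ι ι F) (b : V →ₗ[F] V →ₗ[F] F) (x : ι → V) : F :=
  ∑ i, ∑ j, β i j * b (x i) (x j)

omit [Fintype F] [Fintype V] in
theorem qf_add {ι : Type} [Fintype ι] (β : Matrix ι ι F) (b : V →ₗ[F] V →ₗ[F] F) (x : ι → V)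
    (y : ι → F) (e : V) (h1 : ∀ i, b (x i) e = 0) (h2 : b e e = 0) :
    qf β b (fun i => x i + y i • e) = qf β b x + ∑ i, y i * ∑ j, β i j * b e (x j) := by
  unfold qf
  rw [← sum_add_distrib]
  apply sum_congr rfl
  intro i _
  rw [mul_sum, ← sum_add_distrib]
  apply sum_congr rfl
  intro j _
  simp only [map_add, map_smul, LinearMap.add_apply, LinearMap.smul_apply, smul_eq_mul, h1, h2]
  ring

theorem gauss_step {ι : Type} [Fintype ι] {β : Matrix ι ι F} (hβ : IsUnit β) {ψ : AddChar F ℂ}
    (hψ : ψ ≠ 1) (b : V →ₗ[F] V →ₗ[F] F) {R : Submodule F V} {e : V} (he : e ∈ rp b R)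
    (hu : ∀ u ∈ rp b R, b u e = 0) :
    gaussSumOn β ψ b (rp b R) = gaussSumOn β ψ b (rp b (R ⊔ Submodule.span F {e})) := by
  set K := rp b R with hK
  set K' := rp b (R ⊔ Submodule.span F {e}) with hK'
  -- the vector `v_x`
  let v : (ι → K) → (ι → F) := fun x i => ∑ j, β i j * b e (x j)
  have h1 : gaussSumOn β ψ b K = ∑ x : ι → K, ψ (qf β b (fun i => (x i : V))) := rfl
  have h1' : gaussSumOn β ψ b K' = ∑ x : ι → K', ψ (qf β b (fun i => (x i : V))) := rfl
  rw [h1, h1', ← sum_fiberwise univ v, sum_eq_single_of_mem 0 (mem_univ _)]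
  · -- the fibre over `0`
    symm
    have hle : K' ≤ K := rp_anti le_sup_left
    refine Finset.sum_bij (fun (x : ι → K') _ => fun i => (⟨x i, hle (x i).2⟩ : K)) ?_ ?_ ?_ ?_
    · intro x _
      simp only [mem_filter, mem_univ, true_and]
      funext i
      simp only [v, Pi.zero_apply]
      apply sum_eq_zero
      intro j _
      rw [(mem_rp_sup_span.mp (x j).2).2, mul_zero]
    · intro x _ y _ h
      funext i
      have := congrFun h i
      exact Subtype.ext (congrArg (fun z : K => (z : V)) this)
    · intro x hx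
      simp only [mem_filter, mem_univ, true_and] at hx
      have hx' : β.mulVec (fun j => b e (x j)) = 0 := hx
      have hx'' : (fun j => b e (x j : V)) = 0 := by
        have h3 := congrArg (β⁻¹).mulVec hx'
        rw [Matrix.mulVec_mulVec, Matrix.nonsing_inv_mul _ ((Matrix.isUnit_iff_isUnit_det _).mp hβ),
          Matrix.one_mulVec, Matrix.mulVec_zero] at h3
        exact h3
      refine ⟨fun i => ⟨x i, mem_rp_sup_span.mpr ⟨(x i).2, congrFun hx'' i⟩⟩, mem_univ _, rfl⟩
    · intro x _; rfl
  · -- the other fibres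
    intro c _ hc
    obtain ⟨i₀, hi₀⟩ : ∃ i, c i ≠ 0 := by
      by_contra hcon
      push Not at hcon
      exact hc (funext hcon)
    obtain ⟨z, hz⟩ := exists_psi_ne hψ hi₀
    let y : ι → F := Pi.single i₀ z
    let T : (ι → K) ≃ (ι → K) := Equiv.addRight (fun i => y i • (⟨e, he⟩ : K))
    have hTv : ∀ x, v (T x) = v x := by
      intro x
      funext i
      simp only [v, T, Equiv.coe_addRight, Pi.add_apply]
      apply sum_congr rfl
      intro j _
      simp [hu e he]
    have hTq : ∀ x : ι → K, v x = c → ψ (qf β b (fun i => (T x i : V))) =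
        ψ (c i₀ * z) * ψ (qf β b (fun i => (x i : V))) := by
      intro x hx
      have e1 : (fun i => (T x i : V)) = fun i => (x i : V) + y i • e := by
        funext i; simp [T]
      rw [e1, qf_add β b _ y e (fun i => hu _ (x i).2) (hu e he), AddChar.map_add_eq_mul, mul_comm]
      congr 1
      have e2 : ∑ i, y i * ∑ j, β i j * b e (x j) = ∑ i, y i * c i := by
        apply sum_congr rfl
        intro i _
        rw [← hx]
      rw [e2]
      simp only [y, Pi.single_apply, ite_mul, zero_mul, sum_ite_eq', mem_univ, if_true]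
      rw [mul_comm]
    set S := ∑ x with v x = c, ψ (qf β b (fun i => (x i : V))) with hS
    have h5 : S = ψ (c i₀ * z) * S := by
      have h6 : S = ∑ x with v x = c, ψ (qf β b (fun i => (T x i : V))) := by
        rw [hS]
        symm
        refine Finset.sum_bij (fun x _ => T x) ?_ ?_ ?_ ?_
        · intro x hx
          simp only [mem_filter, mem_univ, true_and] at hx ⊢
          rw [hTv, hx]
        · intro x _ x' _ h; exact T.injective h
        · intro x hx
          simp only [mem_filter, mem_univ, true_and] at hx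
          refine ⟨T.symm x, ?_, T.apply_symm_apply x⟩
          simp only [mem_filter, mem_univ, true_and]
          rw [← hTv, T.apply_symm_apply, hx]
        · intro x _; rfl
      refine h6.trans ?_
      rw [hS, mul_sum]
      apply sum_congr rfl
      intro x hx
      exact hTq x (mem_filter.mp hx).2
    have h7 : (1 - ψ (c i₀ * z)) * S = 0 := by
      rw [sub_mul, one_mul, ← h5, sub_self]
    rcases mul_eq_zero.mp h7 with h8 | h8
    · exact absurd (sub_eq_zero.mp h8).symm hz
    · exact h8

/-- The Gauss sum on `R^⊥` for pre-good `R`. -/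
theorem gaussSumOn_eq {ι : Type} [Fintype ι] {β : Matrix ι ι F} (hβ : IsUnit β) {ψ : AddChar F ℂ}
    (hψ : ψ ≠ 1) (t : ℂ) (b : V →ₗ[F] V →ₗ[F] F)
    (hM2 : ∀ R : Submodule F V, Good b R →
      gaussSumOn β ψ b (rp b R) = t ^ (Module.finrank F R + Module.finrank F (rp b R)))
    {R : Submodule F V} (hR : PreGood b R) :
    gaussSumOn β ψ b (rp b R) = ∑ I with (R ≤ I ∧ Good b I),
      t ^ (Module.finrank F I + Module.finrank F (rp b I)) * w b I := by
  revert hR
  induction R using WellFoundedGT.induction with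
  | ind R ih =>
  intro hR
  by_cases hg : Good b R
  · rw [hM2 R hg]
    have h1 : ∑ I with (R ≤ I ∧ Good b I),
        t ^ (Module.finrank F I + Module.finrank F (rp b I)) * w b I =
        t ^ (Module.finrank F R + Module.finrank F (rp b R)) *
          ∑ I with (R ≤ I ∧ Good b I), w b I := by
      rw [mul_sum]
      apply sum_congr rfl
      intro I hI
      simp only [mem_filter, mem_univ, true_and] at hI
      rw [hg.finrank_add hI.2 hI.1]
    rw [h1, sum_w hR, mul_one]
  · obtain ⟨e, he, heR, hu⟩ := exists_rad hR hg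
    have hlt : R < R ⊔ Submodule.span F {e} := by
      refine lt_of_le_of_ne le_sup_left ?_
      intro h
      apply heR
      rw [h]
      exact Submodule.mem_sup_right (Submodule.mem_span_singleton_self e)
    rw [gauss_step hβ hψ b he hu, ih _ hlt (preGood_sup hR he hu)]
    apply sum_congr _ (fun _ _ => rfl)
    ext I
    simp only [mem_filter, mem_univ, true_and]
    constructor
    · rintro ⟨h1, h2⟩
      exact ⟨hlt.le.trans h1, h2⟩
    · rintro ⟨h1, h2⟩
      exact ⟨h2.sup_le h1 hu, h2⟩

theorem gaussSum_eq_rhs {ι : Type} [Fintype ι] {β : Matrix ι ι F} (hβ : IsUnit β)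
    {ψ : AddChar F ℂ} (hψ : ψ ≠ 1) (t : ℂ) (b : V →ₗ[F] V →ₗ[F] F)
    (hM2 : ∀ R : Submodule F V, Good b R →
      gaussSumOn β ψ b (rp b R) = t ^ (Module.finrank F R + Module.finrank F (rp b R))) :
    gaussSum β ψ b = rhs t 0 b := by
  have h1 : gaussSum β ψ b = gaussSumOn β ψ b (rp b ⊥) := by
    have htop : rp b (⊥ : Submodule F V) = ⊤ := by
      rw [eq_top_iff]
      intro v _ i hi
      rw [Submodule.mem_bot] at hi
      simp [hi]
    rw [htop]
    unfold gaussSum gaussSumOn
    symm
    refine Fintype.sum_equiv (Equiv.piCongrRight fun _ : ι =>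
      (Submodule.topEquiv (R := F) (M := V)).toEquiv) _ _ ?_
    intro x
    rfl
  rw [h1, gaussSumOn_eq hβ hψ t b hM2 (preGood_bot b), rhs]
  simp only [pow_zero, mul_one, one_mul, bot_le, true_and]

end Pool.Agent.H3.Refl
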