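import Mathlib
import Pool.Agent.H20.Refl.Gauss

/-!
# M2: evaluation of the Gauss sums on the orthogonal space of a good subspace
-/

namespace Pool.Agent.H3.Refl

open scoped Classical
open Finset Pool.Agent.H20.Refl

theorem m2 : TargetM2 := by
  intro F _ _ n β C ε h ψ hψ V _ _ _ b hdim R hR
  set K := rp b R with hK
  have hfin : Module.Finite F V := Module.Finite.of_finite
  -- the form on `K`
  let bK : K →ₗ[F] K →ₗ[F] F := (b.domRestrict₁₂ K K)
  have hbK : ∀ u v : K, bK u v = b u v := fun u v => rfl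
  let R' : Submodule F K := R.comap K.subtype
  have hRK : R ≤ K := hR.le_rp
  have hdK : Module.finrank F K < 2 * n := lt_of_le_of_lt (Submodule.finrank_le K) hdim
  have hR' : Module.finrank F R' = Module.finrank F R := by
    have := Submodule.comapSubtypeEquivOfLe hRK
    exact LinearEquiv.finrank_eq this
  have hl : ∀ r ∈ R', ∀ u, bK r u = 0 := by
    intro r hr u
    rw [hbK]
    exact u.2 _ hr
  have hr : ∀ r ∈ R', ∀ u, bK u r = 0 := by
    intro r hr u
    rw [hbK]
    exact hR.rp_le u.2 _ hr
  have hrad : ∀ e, (∀ u, bK u e = 0) → e ∈ R' := by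
    intro e he
    exact hR.rad e.1 e.2 (fun u hu => he ⟨u, hu⟩)
  have key := gauss_eval h ψ hψ hdK bK R' hl hr hrad
  rw [hR'] at key
  rw [← key]
  unfold gaussSumOn
  refine Finset.sum_congr ?_ (fun x _ => rfl)
  ext x
  exact iff_of_true (@Finset.mem_univ _ (_) x) (@Finset.mem_univ _ (_) x)

end Pool.Agent.H3.Refl
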