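import Pool.Agent.H3.Refl.M1d

/-!
# M3: Fourier recursion
-/

namespace Pool.Agent.H3.Refl

open scoped Classical
open Finset

section Fourier

variable {F : Type} [Field F] [Fintype F] {ι : Type} [Fintype ι]

/-- Triangular sequences orthogonal to `x`. -/
def TP (β : Matrix ι ι F) (m : ℕ) (a : Fin m → F) {U : Type} [AddCommGroup U]
    [Module F U] (x : ι → U) (W : Fin m → ι → F) : Prop :=
  ((∀ i j, i < j → bil β (W i) (W j) = 0) ∧ (∀ i, bil β (W i) (W i) = a i)) ∧
    (∀ i, ∑ k, ∑ l, (β k l * W i l) • x k = 0)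

/-- Their number. -/
noncomputable def tc (β : Matrix ι ι F) (m : ℕ) (a : Fin m → F) {U : Type} [AddCommGroup U]
    [Module F U] (x : ι → U) : ℂ :=
  ∑ W : Fin m → ι → F, if TP β m a x W then 1 else 0

theorem tc_zero (β : Matrix ι ι F) (a : Fin 0 → F) {U : Type} [AddCommGroup U]
    [Module F U] (x : ι → U) : tc β 0 a x = 1 := by
  unfold tc TP
  rw [Fintype.sum_unique, if_pos]
  refine ⟨⟨fun i => i.elim0, fun i => i.elim0⟩, fun i => i.elim0⟩

omit [Fintype F] in
theorem TP_cons (β : Matrix ι ι F) (m : ℕ) (a : Fin (m + 1) → F) {U : Type} [AddCommGroup U]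
    [Module F U] (x : ι → U) (v : ι → F) (W : Fin m → ι → F) :
    TP β (m + 1) a x (Fin.cons v W : Fin (m + 1) → ι → F) ↔
      (bil β v v = a 0 ∧ ∑ k, ∑ l, (β k l * v l) • x k = 0) ∧
        TP β m (fun i => a i.succ) (fun i => ((x i, v i) : U × F)) W := by
  have hprod : ∀ i, (∑ k, ∑ l, (β k l * W i l) • ((x k, v k) : U × F) = 0 ↔
        (∑ k, ∑ l, (β k l * W i l) • x k = 0 ∧ bil β v (W i) = 0)) := by
    intro i
    rw [Prod.ext_iff]
    simp only [Prod.fst_sum, Prod.snd_sum, Prod.smul_fst, Prod.smul_snd, Prod.fst_zero,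
      Prod.snd_zero]
    have : ∑ k, ∑ l, (β k l * W i l) • v k = bil β v (W i) := by
      unfold bil
      apply sum_congr rfl; intro k _
      apply sum_congr rfl; intro l _
      rw [smul_eq_mul]; ring
    rw [this]
  unfold TP
  constructor
  · rintro ⟨⟨g1, g2⟩, g3⟩
    refine ⟨⟨?_, ?_⟩, ⟨?_, ?_⟩, ?_⟩
    · simpa using g2 0
    · simpa using g3 0
    · intro i j hij
      simpa using g1 i.succ j.succ (Fin.succ_lt_succ_iff.mpr hij)
    · intro i
      simpa using g2 i.succ
    · intro i
      rw [hprod]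
      constructor
      · simpa using g3 i.succ
      · simpa using g1 0 i.succ (Fin.succ_pos i)
  · rintro ⟨⟨h1, h2⟩, ⟨⟨g1, g2⟩, g3⟩⟩
    refine ⟨⟨?_, ?_⟩, ?_⟩
    · intro i j
      refine Fin.cases ?_ (fun i => ?_) i
      · refine Fin.cases ?_ (fun j => ?_) j
        · intro h; exact absurd h (lt_irrefl _)
        · intro _
          simpa using ((hprod j).mp (g3 j)).2
      · refine Fin.cases ?_ (fun j => ?_) j
        · intro h; exact absurd h (Fin.not_lt_zero _)
        · intro h
          simpa using g1 i j (Fin.succ_lt_succ_iff.mp h)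
    · intro i
      refine Fin.cases ?_ (fun i => ?_) i
      · simpa using h1
      · simpa using g2 i
    · intro i
      refine Fin.cases ?_ (fun i => ?_) i
      · simpa using h2
      · simpa using ((hprod i).mp (g3 i)).1

theorem tc_succ (β : Matrix ι ι F) (m : ℕ) (a : Fin (m + 1) → F) {U : Type} [AddCommGroup U]
    [Module F U] (x : ι → U) : tc β (m + 1) a x =
      ∑ v : ι → F, if bil β v v = a 0 ∧ ∑ k, ∑ l, (β k l * v l) • x k = 0 then
        tc β m (fun i => a i.succ) (fun i => ((x i, v i) : U × F)) else 0 := by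
  unfold tc
  have h1 : ∑ W : Fin (m + 1) → ι → F, (if TP β (m + 1) a x W then (1 : ℂ) else 0) =
      ∑ p : (ι → F) × (Fin m → ι → F),
        if TP β (m + 1) a x (Fin.cons p.1 p.2 : Fin (m + 1) → ι → F) then (1 : ℂ) else 0 := by
    symm
    exact Fintype.sum_equiv (Fin.consEquiv (fun _ : Fin (m + 1) => ι → F)) _ _ (fun p => rfl)
  rw [h1, Fintype.sum_prod_type]
  apply sum_congr rfl
  intro v _
  simp only [TP_cons]
  split_ifs with h
  · apply sum_congr rfl
    intro W _
    simp only [h, true_and, and_self]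
  · apply sum_eq_zero
    intro W _
    rw [if_neg]
    exact fun h' => h h'.1

theorem sum_dual_psi {ψ : AddChar F ℂ} (hψ : ψ ≠ 1) {U : Type} [AddCommGroup U] [Module F U]
    [Fintype U] (v : U) :
    ∑ r : Module.Dual F U, ψ (r v) =
      if v = 0 then (Fintype.card F : ℂ) ^ Module.finrank F U else 0 := by
  split_ifs with h
  · subst h
    simp only [map_zero, AddChar.map_zero_eq_one, sum_const, card_univ, nsmul_eq_mul, mul_one]
    rw [Module.card_eq_pow_finrank (K := F) (V := Module.Dual F U), Subspace.dual_finrank_eq]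
    push_cast
    rfl
  · obtain ⟨f, hf⟩ : ∃ f : Module.Dual F U, f v ≠ 0 := by
      by_contra hcon
      push Not at hcon
      exact h ((Module.forall_dual_apply_eq_zero_iff F v).mp hcon)
    obtain ⟨x, hx⟩ := exists_psi_ne hψ hf
    have h1 : ∑ r : Module.Dual F U, ψ (r v) = ψ (f v * x) * ∑ r : Module.Dual F U, ψ (r v) := by
      rw [mul_sum, ← Equiv.sum_comp (Equiv.addRight (x • f)) (fun r => ψ (r v))]
      apply sum_congr rfl
      intro r _
      simp only [Equiv.coe_addRight, LinearMap.add_apply, LinearMap.smul_apply, smul_eq_mul,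
        AddChar.map_add_eq_mul]
      rw [mul_comm x]; ring
    have h2 : (1 - ψ (f v * x)) * ∑ r : Module.Dual F U, ψ (r v) = 0 := by
      rw [sub_mul, one_mul, ← h1, sub_self]
    rcases mul_eq_zero.mp h2 with h3 | h3
    · exact absurd (sub_eq_zero.mp h3).symm hx
    · exact h3

theorem sum_psi_if {ψ : AddChar F ℂ} (hψ : ψ ≠ 1) (c : F) :
    ∑ d : F, ψ (c * d) = if c = 0 then (Fintype.card F : ℂ) else 0 := by
  split_ifs with h
  · subst h; simp
  · exact sum_psi hψ h

omit [Fintype F] in
theorem qf_ext (β : Matrix ι ι F) {U : Type} [AddCommGroup U] [Module F U]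
    (b : U →ₗ[F] U →ₗ[F] F) (r : Module.Dual F U) (d : F) (x : ι → U) (v : ι → F) :
    qf β (ext b r d) (fun i => ((x i, v i) : U × F)) =
      qf β b x + r (∑ k, ∑ l, (β k l * v l) • x k) + bil β v v * d := by
  unfold qf bil
  simp only [ext_apply, map_sum, map_smul, smul_eq_mul, sum_mul]
  rw [← sum_add_distrib, ← sum_add_distrib]
  apply sum_congr rfl; intro i _
  rw [← sum_add_distrib, ← sum_add_distrib]
  apply sum_congr rfl; intro j _
  ring

theorem L_count (β : Matrix ι ι F) {ψ : AddChar F ℂ} (hψ : ψ ≠ 1) (m : ℕ) :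
    ∀ (a : Fin m → F) (U : Type) [AddCommGroup U] [Module F U] [Fintype U]
      (b : U →ₗ[F] U →ₗ[F] F),
      L β ψ (List.ofFn fun i => - a i) U b =
        (∏ k ∈ range m, (Fintype.card F : ℂ) ^ (Module.finrank F U + k + 1)) *
          ∑ x : ι → U, ψ (qf β b x) * tc β m a x := by
  induction m with
  | zero =>
    intro a U _ _ _ b
    simp only [List.ofFn_zero, range_zero, prod_empty, one_mul, tc_zero, mul_one]
    rfl
  | succ m ih =>
    intro a U _ _ _ b
    have h0 : L β ψ (List.ofFn fun i => - a i) U b =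
        ∑ r : Module.Dual F U, ∑ d : F, ψ (- a 0 * d) *
          L β ψ (List.ofFn fun i : Fin m => - a i.succ) (U × F) (ext b r d) := by
      rw [List.ofFn_succ]
      rfl
    rw [h0]
    set P : ℂ := ∏ k ∈ range m, (Fintype.card F : ℂ) ^ (Module.finrank F U + 1 + k + 1) with hP
    have h1 : ∀ (r : Module.Dual F U) (d : F),
        L β ψ (List.ofFn fun i : Fin m => - a i.succ) (U × F) (ext b r d) =
        P * ∑ x : ι → U, ∑ v : ι → F, ψ (qf β b x) * ψ (r (∑ k, ∑ l, (β k l * v l) • x k)) *
          ψ (bil β v v * d) * tc β m (fun i => a i.succ) (fun i => ((x i, v i) : U × F)) := by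
      intro r d
      rw [ih (fun i => a i.succ) (U × F) (ext b r d), Module.finrank_prod, Module.finrank_self]
      congr 1
      have h2 : ∑ z : ι → U × F, ψ (qf β (ext b r d) z) * tc β m (fun i => a i.succ) z =
          ∑ p : (ι → U) × (ι → F), ψ (qf β (ext b r d) (fun i => ((p.1 i, p.2 i) : U × F))) *
            tc β m (fun i => a i.succ) (fun i => ((p.1 i, p.2 i) : U × F)) :=
        Fintype.sum_equiv (Equiv.arrowProdEquivProdArrow ι (fun _ => U) (fun _ => F)) _ _
          (fun z => rfl)
      rw [h2, Fintype.sum_prod_type]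
      apply sum_congr rfl; intro x _
      apply sum_congr rfl; intro v _
      rw [qf_ext, AddChar.map_add_eq_mul, AddChar.map_add_eq_mul]
    simp only [h1]
    -- interchange the sums
    have h3 : ∑ r : Module.Dual F U, ∑ d : F, ψ (- a 0 * d) *
        (P * ∑ x : ι → U, ∑ v : ι → F, ψ (qf β b x) * ψ (r (∑ k, ∑ l, (β k l * v l) • x k)) *
          ψ (bil β v v * d) * tc β m (fun i => a i.succ) (fun i => ((x i, v i) : U × F))) =
        P * ∑ x : ι → U, ∑ v : ι → F, ψ (qf β b x) *
          ((∑ r : Module.Dual F U, ψ (r (∑ k, ∑ l, (β k l * v l) • x k))) *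
          (∑ d : F, ψ ((bil β v v - a 0) * d)) *
          tc β m (fun i => a i.succ) (fun i => ((x i, v i) : U × F))) := by
      have h4 : ∀ (r : Module.Dual F U) (d : F), ψ (- a 0 * d) *
        (P * ∑ x : ι → U, ∑ v : ι → F, ψ (qf β b x) * ψ (r (∑ k, ∑ l, (β k l * v l) • x k)) *
          ψ (bil β v v * d) * tc β m (fun i => a i.succ) (fun i => ((x i, v i) : U × F))) =
        ∑ x : ι → U, ∑ v : ι → F, P * (ψ (qf β b x) * (ψ (r (∑ k, ∑ l, (β k l * v l) • x k)) *
          ψ ((bil β v v - a 0) * d) *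
            tc β m (fun i => a i.succ) (fun i => ((x i, v i) : U × F)))) := by
        intro r d
        simp only [mul_sum]
        apply sum_congr rfl; intro x _
        apply sum_congr rfl; intro v _
        have : (bil β v v - a 0) * d = bil β v v * d + (- a 0 * d) := by ring
        rw [this, AddChar.map_add_eq_mul]
        ring
      simp only [h4]
      have h5 : ∀ r : Module.Dual F U, ∑ d : F, ∑ x : ι → U, ∑ v : ι → F,
          P * (ψ (qf β b x) * (ψ (r (∑ k, ∑ l, (β k l * v l) • x k)) *
          ψ ((bil β v v - a 0) * d) *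
            tc β m (fun i => a i.succ) (fun i => ((x i, v i) : U × F)))) =
          ∑ x : ι → U, ∑ v : ι → F, P * (ψ (qf β b x) *
            (ψ (r (∑ k, ∑ l, (β k l * v l) • x k)) * (∑ d : F, ψ ((bil β v v - a 0) * d)) *
            tc β m (fun i => a i.succ) (fun i => ((x i, v i) : U × F)))) := by
        intro r
        rw [sum_comm]
        apply sum_congr rfl; intro x _
        rw [sum_comm]
        apply sum_congr rfl; intro v _
        simp only [mul_sum, sum_mul]
      simp only [h5]
      rw [sum_comm, mul_sum]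
      apply sum_congr rfl; intro x _
      rw [sum_comm, mul_sum]
      apply sum_congr rfl; intro v _
      simp only [mul_sum, sum_mul]
      rw [sum_comm]
    rw [h3]
    simp only [sum_dual_psi hψ, sum_psi_if hψ]
    rw [prod_range_succ']
    have hP' : ∏ k ∈ range m, (Fintype.card F : ℂ) ^ (Module.finrank F U + (k + 1) + 1) = P := by
      rw [hP]
      apply prod_congr rfl
      intro k _
      congr 1
      ring
    rw [hP']
    rw [mul_assoc]
    congr 1
    rw [mul_sum]
    apply sum_congr rfl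
    intro x _
    rw [tc_succ, mul_sum, mul_sum]
    apply sum_congr rfl
    intro v _
    by_cases hc1 : ∑ k, ∑ l, (β k l * v l) • x k = 0
    · by_cases hc2 : bil β v v = a 0
      · rw [if_pos hc1, if_pos (by rw [hc2, sub_self]), if_pos ⟨hc2, hc1⟩]
        rw [add_zero, pow_succ]
        ring
      · rw [if_neg (fun h : bil β v v - a 0 = 0 => hc2 (sub_eq_zero.mp h)),
          if_neg (show ¬ (bil β v v = a 0 ∧ ∑ k, ∑ l, (β k l * v l) • x k = 0) from
            fun h => hc2 h.1)]
        simp
    · rw [if_neg hc1, if_neg (show ¬ (bil β v v = a 0 ∧ ∑ k, ∑ l, (β k l * v l) • x k = 0) from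
            fun h => hc1 h.2)]
      simp

/-- M3. -/
theorem m3 : TargetM3 := by
  intro F _ _ ι _ β ψ hψ m a
  rw [L_count β hψ m a PUnit 0]
  have h1 : ∑ x : ι → PUnit, ψ (qf β (0 : PUnit →ₗ[F] PUnit →ₗ[F] F) x) * tc β m a x =
      (Set.ncard (tri β m a) : ℂ) := by
    rw [Fintype.sum_unique]
    have h2 : qf β (0 : PUnit →ₗ[F] PUnit →ₗ[F] F) default = 0 := by
      unfold qf; simp
    rw [h2, AddChar.map_zero_eq_one, one_mul]
    unfold tc
    rw [← sum_filter, sum_const, nsmul_eq_mul, mul_one]
    congr 1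
    rw [Set.ncard_eq_toFinset_card']
    congr 1
    ext W
    rw [mem_filter, Set.mem_toFinset]
    constructor
    · exact fun h => h.2.1
    · intro h
      exact ⟨mem_univ _, h, fun i => Subsingleton.elim _ _⟩
  rw [h1]
  congr 1
  rw [Module.finrank_zero_of_subsingleton]
  rw [prod_pow_eq_pow_sum]
  congr 1
  have h3 : ∑ i ∈ range m, (0 + i + 1) = ∑ i ∈ range (m + 1), i := by
    rw [sum_range_succ']
    simp [add_comm]
  rw [h3, sum_range_id]
  rw [Nat.add_sub_cancel, mul_comm]

end Fourier

end Pool.Agent.H3.Refl
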