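import Pool.Agent.H3.Refl.M4b

/-!
# Common part of the modules M4Sp and M4O
-/

namespace Pool.Agent.H3.Refl

namespace M4c

section

variable {F V : Type} [Field F] [AddCommGroup V] [Module F V] [Module.Finite F V]

/-- `1 - c` is bijective if `c ≠ 1` is irreducible. -/
theorem bij_sub {c : V ≃ₗ[F] V} (hirr : IsIrred c) (hc : c ≠ 1) :
    Function.Bijective (fun x => x - c x) := by
  set f : V →ₗ[F] V := LinearMap.id - (c : V →ₗ[F] V) with hf
  have hfx : ∀ x, f x = x - c x := fun x => rfl
  have hker : LinearMap.ker f = ⊥ := by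
    rcases hirr (LinearMap.ker f) (by
      intro x hx
      rw [LinearMap.mem_ker, hfx, sub_eq_zero] at hx ⊢
      rw [← hx]; exact hx) with h | h
    · exact h
    · exfalso
      apply hc
      apply LinearEquiv.ext
      intro x
      have hx : x ∈ LinearMap.ker f := by rw [h]; trivial
      rw [LinearMap.mem_ker, hfx, sub_eq_zero] at hx
      exact hx.symm
  have hinj : Function.Injective f := LinearMap.ker_eq_bot.1 hker
  exact ⟨hinj, LinearMap.injective_iff_surjective.1 hinj⟩

/-- Values of polynomials of small degree at an irreducible `c` are invertible. -/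
theorem isUnit_aeval {c : V ≃ₗ[F] V} (hirr : IsIrred c) (p : Polynomial F) (hp : p ≠ 0)
    (hd : p.natDegree < Module.finrank F V) :
    IsUnit (Polynomial.aeval (c : V →ₗ[F] V) p) := by
  have hcomm : ∀ (q : Polynomial F) (x : V), Polynomial.aeval (c : V →ₗ[F] V) q (c x) =
      c (Polynomial.aeval (c : V →ₗ[F] V) q x) := by
    intro q x
    have h : Polynomial.aeval (c : V →ₗ[F] V) (q * Polynomial.X) =
        Polynomial.aeval (c : V →ₗ[F] V) (Polynomial.X * q) := by rw [mul_comm]
    rw [map_mul, map_mul, Polynomial.aeval_X] at h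
    exact LinearMap.congr_fun h x
  rw [LinearMap.isUnit_iff_ker_eq_bot]
  rcases hirr (LinearMap.ker (Polynomial.aeval (c : V →ₗ[F] V) p)) (by
    intro x hx
    rw [LinearMap.mem_ker] at hx ⊢
    rw [hcomm, hx, map_zero]) with h | h
  · exact h
  · exfalso
    have h0 : Polynomial.aeval (c : V →ₗ[F] V) p = 0 := LinearMap.ker_eq_top.1 h
    have : Nontrivial V := Module.nontrivial_of_finrank_pos (R := F) (by omega)
    obtain ⟨x, hx⟩ := exists_ne (0 : V)
    -- the evaluation map
    let φ : Polynomial F →ₗ[F] V :=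
      (LinearMap.applyₗ x).comp (Polynomial.aeval (c : V →ₗ[F] V)).toLinearMap
    have hφ : ∀ q, φ q = Polynomial.aeval (c : V →ₗ[F] V) q x := fun q => rfl
    have hr : LinearMap.range φ = ⊤ := by
      rcases hirr (LinearMap.range φ) (by
        rintro _ ⟨q, rfl⟩
        refine ⟨q * Polynomial.X, ?_⟩
        rw [hφ, hφ, map_mul, Polynomial.aeval_X, ← hcomm]
        rfl) with h1 | h1
      · exfalso
        apply hx
        have : φ 1 ∈ LinearMap.range φ := ⟨1, rfl⟩
        rw [h1, Submodule.mem_bot, hφ, map_one] at this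
        exact this
      · exact h1
    let ψ : Polynomial.degreeLT F p.natDegree →ₗ[F] V :=
      φ.comp (Polynomial.degreeLT F p.natDegree).subtype
    have hψ : Function.Surjective ψ := by
      intro y
      have hy : y ∈ LinearMap.range φ := by rw [hr]; trivial
      obtain ⟨q, rfl⟩ := hy
      refine ⟨⟨q % p, ?_⟩, ?_⟩
      · rw [Polynomial.mem_degreeLT, ← Polynomial.degree_eq_natDegree hp]
        exact EuclideanDomain.mod_lt q hp
      · change φ (q % p) = φ q
        rw [hφ, hφ]
        conv_rhs => rw [← EuclideanDomain.mod_add_div q p]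
        rw [map_add, map_mul, h0, zero_mul, add_zero]
    have h2 := LinearMap.finrank_le_finrank_of_surjective hψ
    rw [LinearEquiv.finrank_eq (Polynomial.degreeLTEquiv F p.natDegree), Module.finrank_fin_fun]
      at h2
    omega

end

section

variable {F V : Type} [Field F] [Fintype F] [AddCommGroup V] [Module F V] [Fintype V]

/-- Version of M4b with `N`. -/
theorem m4b' {N : ℕ} (hN : Module.finrank F V = N)
    (B β : V →ₗ[F] V →ₗ[F] F) (δ : F) (c : V ≃ₗ[F] V) (ℛ : Set (V ≃ₗ[F] V))
    (hB : ∀ x y, B x y = β x y + δ * β y x)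
    (hc : ∀ x y, β (x - c x) y = B x y)
    (hbij : Function.Bijective (fun x => x - c x))
    (hnd : ∀ x, (∀ y, B x y = 0) → x = 0)
    (hR1 : ∀ t ∈ ℛ, ∃ (w : V) (κ : F), w ≠ 0 ∧ κ ≠ 0 ∧ ∀ x, t x = x - (κ⁻¹ * B x w) • w)
    (hR2 : ∀ w : V, β w w ≠ 0 → ∃ t ∈ ℛ, ∀ x, t x = x - ((β w w)⁻¹ * B x w) • w) :
    Set.ncard {w : Fin N → V |
        (∀ i j, i < j → β (w i) (w j) = 0) ∧ ∀ i, β (w i) (w i) ≠ 0} =
      (Fintype.card F - 1) ^ N *
        Set.ncard {t : Fin N → (V ≃ₗ[F] V) | (∀ i, t i ∈ ℛ) ∧ (List.ofFn t).prod = c} := by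
  subst hN
  exact m4b F V B β δ c ℛ hB hc hbij hnd hR1 hR2

/-- The common part of M4Sp and M4O. -/
theorem common (n : ℕ) (B β : V →ₗ[F] V →ₗ[F] F) (δ ε : F) (c : V ≃ₗ[F] V)
    (G : Subgroup (V ≃ₗ[F] V)) (hn : 0 < n) (hfr : Module.finrank F V = 2 * n)
    (hirr : IsIrred c) (hord : orderOf c = Fintype.card F ^ n + 1)
    (hε : ε = 1 ∨ ε = -1)
    (hB : ∀ x y, B x y = β x y + δ * β y x)
    (hc : ∀ x y, β (x - c x) y = B x y)
    (hnd : ∀ x, (∀ y, B x y = 0) → x = 0)
    (hasym : ∀ x y, β y x = ε * β (c x) y)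
    (hisom : ∀ x y, β (c x) (c y) = β x y)
    (hR1 : ∀ t ∈ G, IsReflection t →
      ∃ (w : V) (κ : F), w ≠ 0 ∧ κ ≠ 0 ∧ ∀ x, t x = x - (κ⁻¹ * B x w) • w)
    (hR2 : ∀ w : V, β w w ≠ 0 → ∃ t ∈ G, IsReflection t ∧
      ∀ x, t x = x - ((β w w)⁻¹ * B x w) • w) :
    ∃ (β C : Matrix (Fin (2 * n)) (Fin (2 * n)) F) (ε : F), SingerForm n β C ε ∧
      Set.ncard {w : Fin (2 * n) → Fin (2 * n) → F |
        (∀ i j, i < j → bil β (w i) (w j) = 0) ∧ ∀ i, bil β (w i) (w i) ≠ 0} =
      (Fintype.card F - 1) ^ (2 * n) * Set.ncard (factorizations G c (2 * n)) := by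
  classical
  have hc1 : c ≠ 1 := by
    intro h
    rw [h, orderOf_one] at hord
    have : 0 < Fintype.card F ^ n := pow_pos Fintype.card_pos n
    omega
  have hbij := bij_sub hirr hc1
  let b : Module.Basis (Fin (2 * n)) F V := Module.finBasisOfFinrankEq F V hfr
  let M : Matrix (Fin (2 * n)) (Fin (2 * n)) F := fun i j => β (b i) (b j)
  let C : Matrix (Fin (2 * n)) (Fin (2 * n)) F := LinearMap.toMatrix b b (c : V →ₗ[F] V)
  have hMbil : ∀ u v : Fin (2 * n) → F, bil M u v = β (∑ i, u i • b i) (∑ j, v j • b j) := by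
    intro u v
    have e1 : β (∑ i, u i • b i) = ∑ i, u i • β (b i) := by
      rw [map_sum]
      exact Finset.sum_congr rfl fun i _ => map_smul _ _ _
    rw [e1, LinearMap.sum_apply]
    refine Finset.sum_congr rfl fun i _ => ?_
    rw [LinearMap.smul_apply, map_sum, smul_eq_mul, Finset.mul_sum]
    refine Finset.sum_congr rfl fun j _ => ?_
    rw [map_smul, smul_eq_mul]
    change β (b i) (b j) * u i * v j = _
    ring
  have hCb : ∀ i, c (b i) = ∑ k, C k i • b k := by
    intro i
    have h := b.sum_repr (c (b i))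
    refine h.symm.trans (Finset.sum_congr rfl fun k _ => ?_)
    congr 1
    change _ = LinearMap.toMatrix b b (c : V →ₗ[F] V) k i
    rw [LinearMap.toMatrix_apply]
    rfl
  refine ⟨M, C, ε, ⟨hn, ?_, ?_, ?_, hε, ?_, ?_⟩, ?_⟩
  · -- invertibility
    rw [← Matrix.vecMul_injective_iff_isUnit]
    intro u v huv
    have h1 : ∀ w : Fin (2 * n) → F, ∀ j, Matrix.vecMul w M j = β (∑ i, w i • b i) (b j) := by
      intro w j
      rw [map_sum, LinearMap.sum_apply]
      simp only [Matrix.vecMul, dotProduct, map_smul, LinearMap.smul_apply, smul_eq_mul]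
      rfl
    have h2 : ∀ y, β (∑ i, u i • b i - ∑ i, v i • b i) y = 0 := by
      intro y
      rw [← b.sum_repr y, map_sum]
      refine Finset.sum_eq_zero fun j _ => ?_
      rw [map_smul, map_sub, LinearMap.sub_apply, ← h1, ← h1]
      have := congrFun huv j
      simp only at this
      rw [this, sub_self, smul_zero]
    obtain ⟨x, hx⟩ := hbij.2 (∑ i, u i • b i - ∑ i, v i • b i)
    simp only at hx
    have h3 : x = 0 := by
      apply hnd
      intro y
      rw [← hc, hx, h2]
    rw [h3, map_zero, sub_zero] at hx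
    have h4 : ∑ i, (u i - v i) • b i = 0 := by
      simp only [sub_smul, Finset.sum_sub_distrib]
      exact hx.symm
    funext i
    exact sub_eq_zero.1 ((Fintype.linearIndependent_iff.1 b.linearIndependent) _ h4 i)
  · -- isometry
    ext i j
    have h1 : (C.transpose * M * C) i j = ∑ l, (∑ k, C k i * β (b k) (b l)) * C l j := by
      rw [Matrix.mul_apply]
      refine Finset.sum_congr rfl fun l _ => ?_
      rw [Matrix.mul_apply]
      rfl
    rw [h1]
    change _ = β (b i) (b j)
    rw [← hisom, hCb i, hCb j, map_sum, map_sum]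
    refine Finset.sum_congr rfl fun l _ => ?_
    rw [map_smul, LinearMap.sum_apply, smul_eq_mul, mul_comm]
    congr 1
    refine Finset.sum_congr rfl fun k _ => ?_
    rw [map_smul, LinearMap.smul_apply, smul_eq_mul]
  · -- asymmetry
    ext i j
    rw [Matrix.smul_apply, Matrix.mul_apply, smul_eq_mul]
    change β (b j) (b i) = ε * ∑ k, C k i * β (b k) (b j)
    rw [hasym (b i) (b j), hCb i, map_sum, LinearMap.sum_apply]
    congr 1
    refine Finset.sum_congr rfl fun k _ => ?_
    rw [map_smul, LinearMap.smul_apply, smul_eq_mul]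
  · -- order
    rw [← hord]
    have h1 : orderOf ((LinearMap.toMatrixAlgEquiv b) (c : V →ₗ[F] V)) =
        orderOf (c : V →ₗ[F] V) :=
      orderOf_injective (LinearMap.toMatrixAlgEquiv b : (V →ₗ[F] V) ≃ₐ[F] _).toMulEquiv.toMonoidHom
        (LinearMap.toMatrixAlgEquiv b).injective _
    have h2 : orderOf (c : V →ₗ[F] V) = orderOf c := by
      refine orderOf_injective (LinearEquiv.automorphismGroup.toLinearMapMonoidHom
        (R := F) (M := V)) ?_ c
      intro x y hxy
      apply LinearEquiv.toLinearMap_injective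
      exact hxy
    rw [← h2, ← h1]
    rfl
  · -- polynomials
    intro p hp hd
    have h1 := isUnit_aeval hirr p hp (by rw [hfr]; exact hd)
    have h2 : Polynomial.aeval C p =
        (LinearMap.toMatrixAlgEquiv b) (Polynomial.aeval (c : V →ₗ[F] V) p) := by
      have := Polynomial.aeval_algHom_apply (LinearMap.toMatrixAlgEquiv b).toAlgHom
        (c : V →ₗ[F] V) p
      exact this
    rw [h2]
    exact h1.map (LinearMap.toMatrixAlgEquiv b)
  · -- the count
    have h1 := m4b' hfr B β δ c {t | t ∈ G ∧ IsReflection t} hB hc hbij hnd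
      (fun t ht => hR1 t ht.1 ht.2)
      (fun w hw => by
        obtain ⟨t, ht1, ht2, ht3⟩ := hR2 w hw
        exact ⟨t, ⟨ht1, ht2⟩, ht3⟩)
    have h2 : factorizations G c (2 * n) =
        {t : Fin (2 * n) → (V ≃ₗ[F] V) | (∀ i, t i ∈ {t | t ∈ G ∧ IsReflection t}) ∧
          (List.ofFn t).prod = c} := rfl
    rw [h2, ← h1, ← Nat.card_coe_set_eq, ← Nat.card_coe_set_eq]
    refine Nat.card_congr ?_
    refine Equiv.subtypeEquiv (Equiv.piCongrRight fun _ => b.equivFun.symm.toEquiv) ?_
    intro w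
    have h3 : ∀ i j, bil M (w i) (w j) = β (b.equivFun.symm (w i)) (b.equivFun.symm (w j)) := by
      intro i j
      rw [hMbil, Module.Basis.equivFun_symm_apply, Module.Basis.equivFun_symm_apply]
    simp only [Set.mem_ofPred_eq, h3]
    rfl

omit [Fintype F] [Fintype V] in
/-- Existence of `β`. -/
theorem exists_beta (B : V →ₗ[F] V →ₗ[F] F) (c : V ≃ₗ[F] V)
    (hbij : Function.Bijective (fun x => x - c x)) :
    ∃ β : V →ₗ[F] V →ₗ[F] F, ∀ x y, β (x - c x) y = B x y := by
  let e : V ≃ₗ[F] V := LinearEquiv.ofBijective (LinearMap.id - (c : V →ₗ[F] V)) hbij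
  refine ⟨B.comp (e.symm : V →ₗ[F] V), fun x y => ?_⟩
  have : e.symm (x - c x) = x := by
    rw [LinearEquiv.symm_apply_eq]
    rfl
  rw [LinearMap.comp_apply]
  change B (e.symm (x - c x)) y = _
  rw [this]

end

end M4c

end Pool.Agent.H3.Refl
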