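import Pool.Agent.H3.Refl.Targets

/-!
# General form of M4Sp / M4O for MP_f86ddb_al

A form `B` with `B y x = δ * B x y`, `δ = ± 1`.
-/

namespace Pool.Agent.H3.Refl.M4Orth

open Finset

section G

variable {F V : Type} [Field F] [AddCommGroup V] [Module F V]

/-- `x ↦ x - c x` as a linear map. -/
def oneSub (c : V ≃ₗ[F] V) : V →ₗ[F] V := LinearMap.id - (c : V →ₗ[F] V)

@[simp] theorem oneSub_apply (c : V ≃ₗ[F] V) (x : V) : oneSub c x = x - c x := by
  simp [oneSub]

theorem oneSub_injective {c : V ≃ₗ[F] V} (hirr : IsIrred c) (hc : c ≠ 1) :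
    Function.Injective (oneSub c) := by
  rw [← LinearMap.ker_eq_bot]
  rcases hirr (LinearMap.ker (oneSub c)) (by
    intro x hx
    simp only [LinearMap.mem_ker, oneSub_apply, sub_eq_zero] at hx ⊢
    rw [← hx, ← hx]) with h | h
  · exact h
  · exfalso
    apply hc
    ext x
    have : x ∈ LinearMap.ker (oneSub c) := by rw [h]; trivial
    simp only [LinearMap.mem_ker, oneSub_apply, sub_eq_zero] at this
    simpa using this.symm

/-- polynomials of small degree in an irreducible map are injective -/
theorem aeval_injective [Nontrivial V] [FiniteDimensional F V] {c : V ≃ₗ[F] V} (hirr : IsIrred c)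
    (p : Polynomial F) (hp : p ≠ 0) (hdeg : p.natDegree < Module.finrank F V) :
    Function.Injective (Polynomial.aeval (c : V →ₗ[F] V) p) := by
  set cl : V →ₗ[F] V := (c : V →ₗ[F] V) with hcl
  rw [← LinearMap.ker_eq_bot]
  rcases hirr (LinearMap.ker (Polynomial.aeval cl p)) (by
    intro x hx
    rw [LinearMap.mem_ker] at hx ⊢
    have h1 : (Polynomial.aeval cl p) (cl x) = cl ((Polynomial.aeval cl p) x) := by
      have h2 : Polynomial.aeval cl p * cl = cl * Polynomial.aeval cl p := by
        have e1 : Polynomial.aeval cl (p * Polynomial.X) =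
            Polynomial.aeval cl (Polynomial.X * p) := by rw [mul_comm]
        rwa [map_mul, map_mul, Polynomial.aeval_X] at e1
      exact LinearMap.congr_fun h2 x
    have h3 : cl x = c x := rfl
    rw [← h3, h1, hx, map_zero]) with h | h
  · exact h
  · exfalso
    have hz : Polynomial.aeval cl p = 0 := by
      ext x
      have : x ∈ LinearMap.ker (Polynomial.aeval cl p) := by rw [h]; trivial
      simpa using this
    obtain ⟨v, hv⟩ := exists_ne (0 : V)
    let W : Submodule F V := Submodule.span F (Set.range fun i : Fin p.natDegree => (cl ^ (i : ℕ)) v)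
    have hmem : ∀ i, i < p.natDegree → (cl ^ i) v ∈ W := by
      intro i hi
      exact Submodule.subset_span ⟨⟨i, hi⟩, rfl⟩
    have hd : (cl ^ p.natDegree) v ∈ W := by
      have h1 : (Polynomial.aeval cl p) v = 0 := by rw [hz]; rfl
      rw [Polynomial.aeval_eq_sum_range, Finset.sum_range_succ] at h1
      rw [LinearMap.add_apply, LinearMap.smul_apply, LinearMap.sum_apply] at h1
      have hl : p.coeff p.natDegree ≠ 0 := by
        simpa using hp
      have h2 : (cl ^ p.natDegree) v =
          (p.coeff p.natDegree)⁻¹ • (- ∑ i ∈ Finset.range p.natDegree,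
            (p.coeff i • cl ^ i) v) := by
        rw [eq_inv_smul_iff₀ hl, eq_neg_iff_add_eq_zero, add_comm]
        exact h1
      rw [h2]
      apply W.smul_mem
      apply W.neg_mem
      apply W.sum_mem
      intro i hi
      rw [LinearMap.smul_apply]
      exact W.smul_mem _ (hmem i (Finset.mem_range.mp hi))
    have hmem' : ∀ i, i ≤ p.natDegree → (cl ^ i) v ∈ W := by
      intro i hi
      rcases hi.lt_or_eq with h | h
      · exact hmem i h
      · rw [h]; exact hd
    have hinv : ∀ x ∈ W, c x ∈ W := by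
      intro x hx
      have : W ≤ W.comap cl := by
        apply Submodule.span_le.mpr
        rintro _ ⟨i, rfl⟩
        simp only [SetLike.mem_coe, Submodule.mem_comap]
        have := hmem' ((i : ℕ) + 1) i.2
        rwa [pow_succ'] at this
      exact this hx
    have hfin : Module.finrank F W ≤ p.natDegree := by
      have := finrank_range_le_card (R := F) (fun i : Fin p.natDegree => (cl ^ (i : ℕ)) v)
      rw [Fintype.card_fin] at this
      exact this
    rcases hirr W hinv with hW | hW
    · by_cases h0 : p.natDegree = 0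
      · have : p = Polynomial.C (p.coeff 0) := Polynomial.eq_C_of_natDegree_eq_zero h0
        rw [this] at hz
        have h4 := LinearMap.congr_fun hz v
        rw [Polynomial.aeval_C] at h4
        simp only [LinearMap.zero_apply, Module.algebraMap_end_apply, smul_eq_zero] at h4
        rcases h4 with h4 | h4
        · apply hp
          rw [this, h4, map_zero]
        · exact hv h4
      · have := hmem 0 (Nat.pos_of_ne_zero h0)
        rw [hW] at this
        simp only [pow_zero, Submodule.mem_bot] at this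
        exact hv this
    · rw [hW, finrank_top] at hfin
      omega

/-- An isometry fixing a hyperplane pointwise is given by the reflection formula. -/
theorem reflection_formula (B : V →ₗ[F] V →ₗ[F] F) (δ : F)
    (hsym : ∀ x y, B y x = δ * B x y) (hnd : ∀ x, (∀ y, B x y = 0) → x = 0)
    (t : V ≃ₗ[F] V) (ht : ∀ x y, B (t x) (t y) = B x y) (hr : IsReflection t) :
    ∃ (w : V) (κ : F), w ≠ 0 ∧ κ ≠ 0 ∧ ∀ x, t x = x - (κ⁻¹ * B x w) • w := by
  obtain ⟨hne, H, hH, hfix⟩ := hr
  have hex : ∃ x0, t x0 ≠ x0 := by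
    by_contra hcon
    push Not at hcon
    exact hne (LinearEquiv.ext hcon)
  obtain ⟨x0, hx0⟩ := hex
  have hx0H : x0 ∉ H := fun h => hx0 (hfix x0 h)
  have hdec : ∀ x, ∃ h ∈ H, ∃ s : F, x = h + s • x0 := by
    intro x
    have htop : H ⊔ Submodule.span F {x0} = ⊤ := by
      apply hH.2
      refine lt_of_le_of_ne le_sup_left ?_
      intro h
      apply hx0H
      rw [h]
      exact Submodule.mem_sup_right (Submodule.mem_span_singleton_self x0)
    have hx : x ∈ H ⊔ Submodule.span F {x0} := by rw [htop]; trivial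
    obtain ⟨h, hh, z, hz, rfl⟩ := Submodule.mem_sup.mp hx
    obtain ⟨s, rfl⟩ := Submodule.mem_span_singleton.mp hz
    exact ⟨h, hh, s, rfl⟩
  set w : V := t x0 - x0 with hw
  have hw0 : w ≠ 0 := sub_ne_zero.mpr hx0
  have hperp : ∀ h ∈ H, B h w = 0 := by
    intro h hh
    rw [hw, map_sub, sub_eq_zero]
    have := ht h x0
    rwa [hfix h hh] at this
  have hx0w : B x0 w ≠ 0 := by
    intro h0
    apply hw0
    apply hnd
    intro y
    rw [hsym]
    obtain ⟨h, hh, s, rfl⟩ := hdec y
    rw [map_add, map_smul, LinearMap.add_apply, LinearMap.smul_apply, hperp h hh, h0]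
    simp
  refine ⟨w, -(B x0 w), hw0, neg_ne_zero.mpr hx0w, ?_⟩
  intro x
  obtain ⟨h, hh, s, rfl⟩ := hdec x
  have e1 : t (h + s • x0) = h + s • x0 + s • w := by
    rw [map_add, map_smul, hfix h hh, hw, smul_sub]
    abel
  rw [e1, map_add, map_smul, LinearMap.add_apply, LinearMap.smul_apply, hperp h hh, zero_add,
    smul_eq_mul]
  have : (-(B x0 w))⁻¹ * (s * B x0 w) = -s := by
    field_simp
  rw [this, neg_smul, sub_neg_eq_add]

/-- the general statement -/
theorem m4General (h4b : TargetM4b) {F V : Type} [Field F] [Fintype F] [AddCommGroup V]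
    [Module F V] [Fintype V] (n : ℕ) (B : V →ₗ[F] V →ₗ[F] F) (δ : F) (hδ : δ = 1 ∨ δ = -1)
    (hsym : ∀ x y, B y x = δ * B x y) (hnd : ∀ x, (∀ y, B x y = 0) → x = 0)
    (G : Subgroup (V ≃ₗ[F] V)) (hG : ∀ g ∈ G, ∀ x y, B (g x) (g y) = B x y)
    (c : V ≃ₗ[F] V) (hn : 0 < n) (hdim : Module.finrank F V = 2 * n) (hc : c ∈ G)
    (hirr : IsIrred c) (hord : orderOf c = Fintype.card F ^ n + 1)
    (hrefl : ∀ u : V, B u (u - c u) ≠ 0 → ∃ t ∈ G, IsReflection t ∧
      ∀ x, t x = x - ((B u (u - c u))⁻¹ * B x (u - c u)) • (u - c u)) :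
    ∃ (β C : Matrix (Fin (2 * n)) (Fin (2 * n)) F) (ε : F), SingerForm n β C ε ∧
      Set.ncard {w : Fin (2 * n) → Fin (2 * n) → F |
        (∀ i j, i < j → bil β (w i) (w j) = 0) ∧ ∀ i, bil β (w i) (w i) ≠ 0} =
      (Fintype.card F - 1) ^ (2 * n) * Set.ncard (factorizations G c (2 * n)) := by
  have hfd : FiniteDimensional F V := Module.finite_of_finrank_pos (by omega)
  have hnt : Nontrivial V := Module.nontrivial_of_finrank_pos (R := F) (by omega)
  have hδ2 : δ * δ = 1 := by rcases hδ with rfl | rfl <;> ring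
  have hδ0 : δ ≠ 0 := by rintro rfl; simp at hδ2
  have hc1 : c ≠ 1 := by
    rintro rfl
    rw [orderOf_one] at hord
    have : 0 < Fintype.card F ^ n := pow_pos Fintype.card_pos n
    omega
  have hinj := oneSub_injective hirr hc1
  let e : V ≃ₗ[F] V := LinearEquiv.ofInjectiveEndo (oneSub c) hinj
  have he : ∀ x, e x = x - c x := by
    intro x
    simp [e]
  let β : V →ₗ[F] V →ₗ[F] F := B ∘ₗ (e.symm : V →ₗ[F] V)
  have hβ : ∀ x y, β x y = B (e.symm x) y := fun x y => rfl
  have hβ1 : ∀ x y, β (x - c x) y = B x y := by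
    intro x y
    rw [hβ, ← he, LinearEquiv.symm_apply_apply]
  have hbij : Function.Bijective (fun x => x - c x) := by
    have : (fun x => x - c x) = e := by ext x; rw [he]
    rw [this]
    exact e.bijective
  have hcB : ∀ x y, B (c x) (c y) = B x y := hG c hc
  -- main identities
  have hsum : ∀ x y, B x y = β x y + δ * β y x := by
    intro x y
    obtain ⟨u, rfl⟩ := hbij.2 x
    obtain ⟨v, rfl⟩ := hbij.2 y
    simp only [hβ1]
    have e1 := hcB u v
    have e2 := hsym u v
    have e3 := hsym (c u) v
    simp only [map_sub, LinearMap.sub_apply, e1, e2, e3]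
    linear_combination (-(B u v) + B (c u) v) * hδ2
  have hasym : ∀ x y, β y x = -δ * β (c x) y := by
    intro x y
    obtain ⟨u, rfl⟩ := hbij.2 x
    obtain ⟨v, rfl⟩ := hbij.2 y
    simp only
    have : c (u - c u) = c u - c (c u) := map_sub _ _ _
    rw [this]
    simp only [hβ1]
    have e1 := hcB u v
    have e2 := hsym u v
    have e3 := hsym (c u) v
    simp only [map_sub, e1, e2, e3]
    ring
  have hisom : ∀ x y, β (c x) (c y) = β x y := by
    intro x y
    obtain ⟨u, rfl⟩ := hbij.2 x
    simp only
    have : c (u - c u) = c u - c (c u) := map_sub _ _ _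
    rw [this, hβ1, hβ1, hcB]
  have hβnd : ∀ y, (∀ x, β x y = 0) → y = 0 := by
    intro y hy
    apply hnd
    intro x
    rw [hsym, ← hβ1, hy, mul_zero]
  -- coordinates
  let b : Module.Basis (Fin (2 * n)) F V := Module.finBasisOfFinrankEq F V hdim
  let βm : Matrix (Fin (2 * n)) (Fin (2 * n)) F := Matrix.of fun i j => β (b i) (b j)
  let φ := LinearMap.toMatrixAlgEquiv b
  let C : Matrix (Fin (2 * n)) (Fin (2 * n)) F := φ (c : V →ₗ[F] V)
  have hCb : ∀ j, ∑ i, C i j • b i = c (b j) := by
    intro j
    have : ∀ i, C i j = b.repr (c (b j)) i := by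
      intro i
      simp [C, φ, LinearMap.toMatrixAlgEquiv_apply]
    simp only [this]
    exact b.sum_repr _
  have hbil : ∀ u v : Fin (2 * n) → F, bil βm u v = β (∑ i, u i • b i) (∑ j, v j • b j) := by
    intro u v
    simp only [bil, βm, Matrix.of_apply, map_sum, map_smul, LinearMap.sum_apply,
      LinearMap.smul_apply, smul_eq_mul]
    rw [Finset.sum_comm]
    apply Finset.sum_congr rfl; intro i _
    try rw [Finset.mul_sum]
    apply Finset.sum_congr rfl; intro j _
    ring
  have hCβ : ∀ i j, (C.transpose * βm) i j = β (c (b i)) (b j) := by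
    intro i j
    rw [Matrix.mul_apply, ← hCb i, map_sum, LinearMap.sum_apply]
    apply Finset.sum_congr rfl; intro k _
    rw [Matrix.transpose_apply, map_smul, LinearMap.smul_apply, smul_eq_mul]
    rfl
  have hsf : SingerForm n βm C (-δ) := by
    refine ⟨hn, ?_, ?_, ?_, ?_, ?_, ?_⟩
    · rw [← Matrix.mulVec_injective_iff_isUnit]
      intro u v huv
      have h0 : βm.mulVec (u - v) = 0 := by rw [Matrix.mulVec_sub, huv, sub_self]
      have h1 : ∀ i, β (b i) (∑ j, (u - v) j • b j) = 0 := by
        intro i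
        have := congrFun h0 i
        simp only [Matrix.mulVec, dotProduct, βm, Matrix.of_apply, Pi.zero_apply] at this
        rw [map_sum, ← this]
        apply Finset.sum_congr rfl; intro j _
        rw [map_smul, smul_eq_mul, mul_comm]
      have h2 : ∑ j, (u - v) j • b j = 0 := by
        apply hβnd
        have hf : β.flip (∑ j, (u - v) j • b j) = 0 := b.ext fun i => by
          rw [LinearMap.flip_apply]
          exact h1 i
        intro x
        exact LinearMap.congr_fun hf x
      have h3 := Fintype.linearIndependent_iff.mp b.linearIndependent _ h2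
      ext i
      have := h3 i
      rwa [Pi.sub_apply, sub_eq_zero] at this
    · ext i j
      rw [Matrix.mul_apply]
      simp only [hCβ]
      have : ∑ k, β (c (b i)) (b k) * C k j = β (c (b i)) (c (b j)) := by
        rw [← hCb j, map_sum]
        apply Finset.sum_congr rfl; intro k _
        rw [map_smul, smul_eq_mul, mul_comm]
      rw [this, hisom]
      rfl
    · ext i j
      rw [Matrix.smul_apply, hCβ, Matrix.transpose_apply, smul_eq_mul, ← hasym]
      rfl
    · rcases hδ with rfl | rfl
      · right; rfl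
      · left; ring
    · rw [← hord]
      have e1 : orderOf (φ (c : V →ₗ[F] V)) = orderOf (c : V →ₗ[F] V) :=
        orderOf_injective (φ : (V →ₗ[F] V) →* Matrix (Fin (2 * n)) (Fin (2 * n)) F)
          φ.injective _
      have e2 : orderOf (c : V →ₗ[F] V) = orderOf c := by
        have := orderOf_injective (LinearEquiv.automorphismGroup.toLinearMapMonoidHom
          (R := F) (M := V)) (fun x y h => LinearEquiv.toLinearMap_injective h) c
        exact this
      exact e1.trans e2
    · intro p hp hdeg
      have hi := aeval_injective hirr p hp (by rw [hdim]; exact hdeg)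
      have hu : IsUnit (Polynomial.aeval (c : V →ₗ[F] V) p) :=
        (LinearMap.isUnit_iff_ker_eq_bot _).mpr (LinearMap.ker_eq_bot.mpr hi)
      have h2 : Polynomial.aeval C p = φ (Polynomial.aeval (c : V →ₗ[F] V) p) := by
        rw [show C = φ (c : V →ₗ[F] V) from rfl, Polynomial.aeval_algHom_apply]
      rw [h2]
      exact hu.map φ
  refine ⟨βm, C, -δ, hsf, ?_⟩
  have key := h4b F V B β δ c {t | t ∈ G ∧ IsReflection t} hsum hβ1 hbij hnd
    (fun t ht => reflection_formula B δ hsym hnd t (hG t ht.1) ht.2)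
    (by
      intro w hw
      obtain ⟨u, rfl⟩ := hbij.2 w
      rw [hβ1] at hw ⊢
      obtain ⟨t, ht1, ht2, ht3⟩ := hrefl u hw
      exact ⟨t, ⟨ht1, ht2⟩, ht3⟩)
  rw [hdim] at key
  have hfac : {t : Fin (2 * n) → (V ≃ₗ[F] V) | (∀ i, t i ∈ {t | t ∈ G ∧ IsReflection t}) ∧
      (List.ofFn t).prod = c} = factorizations G c (2 * n) := rfl
  rw [hfac] at key
  rw [← key]
  -- transport along the basis
  let g : (Fin (2 * n) → Fin (2 * n) → F) ≃ (Fin (2 * n) → V) :=
    Equiv.piCongrRight fun _ => b.equivFun.symm.toEquiv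
  have hg : ∀ (w : Fin (2 * n) → Fin (2 * n) → F) i, g w i = ∑ j, w i j • b j := by
    intro w i
    simp [g, Module.Basis.equivFun_symm_apply]
  rw [← Set.ncard_image_of_injective _ g.injective]
  congr 1
  ext w
  constructor
  · rintro ⟨w', ⟨h1, h2⟩, rfl⟩
    refine ⟨?_, ?_⟩
    · intro i j hij
      rw [hg, hg, ← hbil]
      exact h1 i j hij
    · intro i
      rw [hg, ← hbil]
      exact h2 i
  · rintro ⟨h1, h2⟩
    refine ⟨g.symm w, ⟨?_, ?_⟩, g.apply_symm_apply w⟩
    · intro i j hij
      rw [hbil, ← hg, ← hg, g.apply_symm_apply]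
      exact h1 i j hij
    · intro i
      rw [hbil, ← hg, g.apply_symm_apply]
      exact h2 i

end G

end Pool.Agent.H3.Refl.M4Orth
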