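import Pool.Agent.H3.Refl.Targets

/-!
# Factorisations into reflections and triangular sequences (module M4b)
-/

namespace Pool.Agent.H3.Refl

namespace M4b

section

variable {F V : Type} [Field F] [AddCommGroup V] [Module F V]

/-- The coefficients of the product of a list of transvections/reflections. -/
theorem expand (B : V →ₗ[F] V →ₗ[F] F) : ∀ (n : ℕ) (t : Fin n → (V ≃ₗ[F] V)) (w : Fin n → V)
    (κ : Fin n → F), (∀ i, κ i ≠ 0) → (∀ i x, t i x = x - ((κ i)⁻¹ * B x (w i)) • w i) →
    ∀ x : V, ∃ cf : Fin n → F, (List.ofFn t).prod x = x - ∑ j, cf j • w j ∧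
      ∀ i, κ i * cf i + ∑ j, (if i < j then cf j * B (w j) (w i) else 0) = B x (w i) := by
  intro n
  induction n with
  | zero =>
    intro t w κ _ _ x
    refine ⟨fun _ => 0, ?_, fun i => i.elim0⟩
    simp
  | succ n ih =>
    intro t w κ hκ ht x
    obtain ⟨cf, h1, h2⟩ := ih (fun i => t i.succ) (fun i => w i.succ) (fun i => κ i.succ)
      (fun i => hκ _) (fun i x => ht _ x) x
    refine ⟨Fin.cons ((κ 0)⁻¹ * B ((List.ofFn fun i : Fin n => t i.succ).prod x) (w 0)) cf, ?_, ?_⟩
    · rw [List.ofFn_succ, List.prod_cons, LinearEquiv.mul_apply, ht, Fin.sum_univ_succ]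
      simp only [Fin.cons_zero, Fin.cons_succ]
      rw [h1]
      abel
    · intro i
      refine Fin.cases ?_ (fun i => ?_) i
      · rw [Fin.sum_univ_succ]
        simp only [Fin.cons_zero, Fin.cons_succ, lt_irrefl, if_false, zero_add, Fin.succ_pos,
          if_true]
        rw [h1, mul_inv_cancel_left₀ (hκ 0), map_sub, LinearMap.sub_apply, map_sum]
        simp only [map_smul, LinearMap.sum_apply, LinearMap.smul_apply, smul_eq_mul]
        ring
      · rw [Fin.sum_univ_succ]
        simp only [Fin.cons_zero, Fin.cons_succ, Fin.not_lt_zero, if_false, zero_add,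
          Fin.succ_lt_succ_iff]
        exact h2 i

variable {N : ℕ}

/-- Triangular sequences are linearly independent. -/
theorem indep {β : V →ₗ[F] V →ₗ[F] F} {w : Fin N → V} (h1 : ∀ i j, i < j → β (w i) (w j) = 0)
    (h2 : ∀ i, β (w i) (w i) ≠ 0) : LinearIndependent F w := by
  rw [Fintype.linearIndependent_iff]
  intro g hg i
  induction i using WellFoundedGT.induction with
  | ind i ih =>
    have h3 : β (∑ j, g j • w j) (w i) = 0 := by rw [hg]; simp
    rw [map_sum, LinearMap.sum_apply, Finset.sum_eq_single i] at h3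
    · rw [map_smul, LinearMap.smul_apply, smul_eq_mul] at h3
      exact (mul_eq_zero.1 h3).resolve_right (h2 i)
    · intro j _ hji
      rcases lt_or_gt_of_ne hji with h | h
      · rw [map_smul, LinearMap.smul_apply, h1 j i h, smul_zero]
      · rw [ih j h, zero_smul]; simp
    · intro h; exact absurd (Finset.mem_univ i) h

variable [Module.Finite F V]

/-- A triangular sequence gives a factorisation. -/
theorem prod_eq {B β : V →ₗ[F] V →ₗ[F] F} {δ : F} {c : V ≃ₗ[F] V}
    (hB : ∀ x y, B x y = β x y + δ * β y x)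
    (hc : ∀ x y, β (x - c x) y = B x y)
    (hbij : Function.Bijective (fun x => x - c x))
    (hnd : ∀ x, (∀ y, B x y = 0) → x = 0)
    (hN : Module.finrank F V = N)
    {w : Fin N → V} (h1 : ∀ i j, i < j → β (w i) (w j) = 0) (h2 : ∀ i, β (w i) (w i) ≠ 0)
    {t : Fin N → (V ≃ₗ[F] V)} (ht : ∀ i x, t i x = x - ((β (w i) (w i))⁻¹ * B x (w i)) • w i) :
    (List.ofFn t).prod = c := by
  have hli := indep h1 h2
  have hspan : Submodule.span F (Set.range w) = ⊤ :=
    hli.span_eq_top_of_card_eq_finrank' (by simp [hN])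
  apply LinearEquiv.ext
  intro x
  obtain ⟨cf, e1, e2⟩ := expand B N t w (fun i => β (w i) (w i)) h2 ht x
  obtain ⟨x', hx'⟩ := hbij.2 (∑ j, cf j • w j)
  simp only at hx'
  have key : ∀ i, B (x' - x) (w i) = 0 := by
    intro i
    rw [map_sub, LinearMap.sub_apply, ← e2 i, ← hc, hx', map_sum, LinearMap.sum_apply, sub_eq_zero]
    have h3 : ∀ j, (β (cf j • w j)) (w i) =
        (if j = i then β (w i) (w i) * cf i else 0) +
          (if i < j then cf j * B (w j) (w i) else 0) := by
      intro j
      rw [map_smul, LinearMap.smul_apply, smul_eq_mul]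
      rcases lt_trichotomy j i with h | h | h
      · rw [if_neg h.ne, if_neg h.asymm, h1 j i h]; ring
      · subst h; rw [if_pos rfl, if_neg (lt_irrefl _)]; ring
      · rw [if_neg h.ne', if_pos h, hB, h1 i j h]; ring
    rw [Finset.sum_congr rfl fun j _ => h3 j, Finset.sum_add_distrib, Finset.sum_ite_eq']
    simp
  have hx : x' - x = 0 := by
    apply hnd
    intro y
    have hy : y ∈ Submodule.span F (Set.range w) := by rw [hspan]; trivial
    induction hy using Submodule.span_induction with
    | mem y hy => obtain ⟨i, rfl⟩ := hy; exact key i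
    | zero => simp
    | add y z _ _ hy hz => rw [map_add, hy, hz, add_zero]
    | smul a y _ hy => rw [map_smul, hy, smul_zero]
  rw [sub_eq_zero] at hx
  rw [e1, ← hx', hx]
  abel

omit [Module.Finite F V] in
/-- A factorisation gives a triangular sequence. -/
theorem tri_of_prod {B β : V →ₗ[F] V →ₗ[F] F} {c : V ≃ₗ[F] V}
    (hc : ∀ x y, β (x - c x) y = B x y)
    (hbij : Function.Bijective (fun x => x - c x))
    (hN : Module.finrank F V = N)
    {w : Fin N → V} {κ : Fin N → F} (hκ : ∀ i, κ i ≠ 0)
    {t : Fin N → (V ≃ₗ[F] V)} (ht : ∀ i x, t i x = x - ((κ i)⁻¹ * B x (w i)) • w i)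
    (hp : (List.ofFn t).prod = c) :
    (∀ i j, i < j → β (w i) (w j) = 0) ∧ ∀ i, β (w i) (w i) = κ i := by
  have hspan : ⊤ ≤ Submodule.span F (Set.range w) := by
    intro y _
    obtain ⟨x, hx⟩ := hbij.2 y
    obtain ⟨cf, e1, -⟩ := expand B N t w κ hκ ht x
    rw [hp] at e1
    simp only at hx
    rw [← hx, e1, sub_sub_cancel]
    exact Submodule.sum_mem _ fun j _ =>
      Submodule.smul_mem _ _ (Submodule.subset_span ⟨j, rfl⟩)
  have hli : LinearIndependent F w :=
    linearIndependent_of_top_le_span_of_card_eq_finrank hspan (by simp [hN])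
  have key : ∀ a : Fin N → F, ∀ i, κ i * a i +
      ∑ j, (if i < j then a j * B (w j) (w i) else 0) = ∑ j, a j * β (w j) (w i) := by
    intro a i
    obtain ⟨x, hx⟩ := hbij.2 (∑ j, a j • w j)
    obtain ⟨cf, e1, e2⟩ := expand B N t w κ hκ ht x
    rw [hp] at e1
    simp only at hx
    have h3 : ∑ j, (cf j - a j) • w j = 0 := by
      simp only [sub_smul, Finset.sum_sub_distrib]
      rw [← hx, e1]
      abel
    have h4 : cf = a := by
      funext j
      have := (Fintype.linearIndependent_iff.1 hli) _ h3 j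
      exact sub_eq_zero.1 this
    rw [h4] at e2
    rw [e2 i, ← hc, hx, map_sum, LinearMap.sum_apply]
    simp only [map_smul, LinearMap.smul_apply, smul_eq_mul]
  constructor
  · intro i j hij
    have := key (Pi.single i 1) j
    rw [Finset.sum_eq_zero, Finset.sum_eq_single i] at this
    · rw [Pi.single_eq_same, Pi.single_eq_of_ne hij.ne', one_mul, mul_zero, zero_add] at this
      exact this.symm
    · intro k _ hk
      rw [Pi.single_eq_of_ne hk, zero_mul]
    · intro h; exact absurd (Finset.mem_univ i) h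
    · intro k _
      split_ifs with h
      · rw [Pi.single_eq_of_ne (hij.trans h).ne', zero_mul]
      · rfl
  · intro i
    have := key (Pi.single i 1) i
    rw [Finset.sum_eq_zero, Finset.sum_eq_single i] at this
    · rw [Pi.single_eq_same, one_mul, mul_one, add_zero] at this
      exact this.symm
    · intro k _ hk
      rw [Pi.single_eq_of_ne hk, zero_mul]
    · intro h; exact absurd (Finset.mem_univ i) h
    · intro k _
      split_ifs with h
      · rw [Pi.single_eq_of_ne h.ne', zero_mul]
      · rfl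

end

end M4b

/-- Module M4b. -/
theorem m4b : TargetM4b := by
  intro F V _ _ _ _ _ B β δ c ℛ hB hc hbij hnd hR1 hR2
  set N := Module.finrank F V with hN
  -- the set of triangular sequences and the set of factorisations
  set W : Set (Fin N → V) := {w | (∀ i j, i < j → β (w i) (w j) = 0) ∧ ∀ i, β (w i) (w i) ≠ 0}
    with hW
  set T : Set (Fin N → (V ≃ₗ[F] V)) := {t | (∀ i, t i ∈ ℛ) ∧ (List.ofFn t).prod = c} with hT
  -- the relation
  let Rel : (Fin N → V) → (Fin N → (V ≃ₗ[F] V)) → Prop := fun w t =>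
    ∀ i x, t i x = x - ((β (w i) (w i))⁻¹ * B x (w i)) • w i
  have hex : ∀ t : T, ∃ w : Fin N → V, w ∈ W ∧ Rel w t := by
    rintro ⟨t, ht1, ht2⟩
    choose w κ hw hκ hr using fun i => hR1 (t i) (ht1 i)
    obtain ⟨h1, h2⟩ := M4b.tri_of_prod hc hbij hN.symm hκ hr ht2
    refine ⟨w, ⟨h1, fun i => by rw [h2 i]; exact hκ i⟩, ?_⟩
    intro i x
    rw [h2 i]
    exact hr i x
  choose rep hrepW hrepR using hex
  have hex2 : ∀ w : Fin N → V, w ∈ W → ∃ t : Fin N → (V ≃ₗ[F] V), t ∈ T ∧ Rel w t := by
    intro w hw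
    choose t ht1 ht2 using fun i => hR2 (w i) (hw.2 i)
    exact ⟨t, ⟨ht1, M4b.prod_eq hB hc hbij hnd hN.symm hw.1 hw.2 ht2⟩, ht2⟩
  have hne : ∀ w : Fin N → V, w ∈ W → ∀ i, w i ≠ 0 := by
    intro w hw i h0
    apply hw.2 i
    rw [h0]; simp
  -- the scaled sequence
  let Φ : T × (Fin N → Fˣ) → W := fun p => ⟨fun i => (p.2 i : F) • rep p.1 i, by
    refine ⟨fun i j hij => ?_, fun i => ?_⟩
    · rw [map_smul, map_smul, LinearMap.smul_apply, (hrepW p.1).1 i j hij]; simp
    · rw [map_smul, map_smul, LinearMap.smul_apply, smul_smul, smul_eq_mul]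
      exact mul_ne_zero (mul_ne_zero (Units.ne_zero _) (Units.ne_zero _)) ((hrepW p.1).2 i)⟩
  have hscale : ∀ (w : Fin N → V) (t : Fin N → (V ≃ₗ[F] V)) (a : Fin N → Fˣ), w ∈ W →
      Rel w t → Rel (fun i => (a i : F) • w i) t := by
    intro w t a hw hr i x
    have ha : (a i : F) ≠ 0 := Units.ne_zero _
    have hb := hw.2 i
    simp only [map_smul, LinearMap.smul_apply, smul_eq_mul, smul_smul]
    rw [hr i x]
    congr 2
    field_simp
  have hinj : Function.Injective Φ := by
    rintro ⟨t, a⟩ ⟨t', a'⟩ h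
    have h1 : ∀ i, (a i : F) • rep t i = (a' i : F) • rep t' i := by
      intro i
      exact congrFun (congrArg Subtype.val h) i
    have ht : t = t' := by
      apply Subtype.ext
      funext i
      apply LinearEquiv.ext
      intro x
      have e1 := hscale _ _ a (hrepW t) (hrepR t) i x
      have e2 := hscale _ _ a' (hrepW t') (hrepR t') i x
      simp only at e1 e2
      rw [e1, e2, h1 i]
    subst ht
    have ha : a = a' := by
      funext i
      apply Units.ext
      have h2 := h1 i
      rw [← sub_eq_zero, ← sub_smul] at h2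
      exact sub_eq_zero.1 ((smul_eq_zero.1 h2).resolve_right (hne _ (hrepW t) i))
    rw [ha]
  have hsurj : Function.Surjective Φ := by
    rintro ⟨w, hw⟩
    obtain ⟨t, ht, hr⟩ := hex2 w hw
    -- `w i` is a multiple of `rep t i`
    have h1 : ∀ i, ∃ a : Fˣ, (a : F) • rep ⟨t, ht⟩ i = w i := by
      intro i
      set u := rep ⟨t, ht⟩ i with hu
      have huu : β u u ≠ 0 := (hrepW ⟨t, ht⟩).2 i
      obtain ⟨x, hx⟩ := hbij.2 (w i)
      simp only at hx
      have hBx : B x (w i) = β (w i) (w i) := by rw [← hc, hx]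
      have e1 := hr i x
      have e2 := hrepR ⟨t, ht⟩ i x
      rw [hBx, inv_mul_cancel₀ (hw.2 i), one_smul] at e1
      simp only at e2
      rw [e1, ← hu] at e2
      have e3 : w i = ((β u u)⁻¹ * B x u) • u := by
        have := congrArg (fun z => x - z) e2
        simpa using this
      have hne0 : (β u u)⁻¹ * B x u ≠ 0 := by
        intro h0
        rw [h0, zero_smul] at e3
        exact hne w hw i e3
      exact ⟨Units.mk0 _ hne0, e3.symm⟩
    choose a ha using h1
    refine ⟨⟨⟨t, ht⟩, a⟩, ?_⟩
    apply Subtype.ext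
    funext i
    exact ha i
  have hcard := Nat.card_congr (Equiv.ofBijective Φ ⟨hinj, hsurj⟩)
  rw [Nat.card_prod, Nat.card_pi] at hcard
  rw [← Nat.card_coe_set_eq, ← Nat.card_coe_set_eq, ← hcard, mul_comm]
  congr 1
  classical
  simp only [Finset.prod_const, Finset.card_univ, Fintype.card_fin]
  rw [Nat.card_eq_fintype_card, Fintype.card_units]

end Pool.Agent.H3.Refl
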