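import Pool.Agent.H3.Refl.M4G
import Pool.Agent.H3.Refl.M4b

/-!
# M4O for MP_f86ddb_al
-/

namespace Pool.Agent.H3.Refl.M4Orth

open Finset

section G

variable {F V : Type} [Field F] [AddCommGroup V] [Module F V]

/-- kernel of a nonzero functional is a coatom -/
theorem isCoatom_ker {f : V →ₗ[F] F} (hf : f ≠ 0) : IsCoatom (LinearMap.ker f) := by
  have hsurj : Function.Surjective f := LinearMap.surjective hf
  refine ⟨?_, ?_⟩
  · intro h
    rw [LinearMap.ker_eq_top] at h
    exact hf h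
  · intro W hW
    obtain ⟨w, hwW, hwk⟩ := SetLike.exists_of_lt hW
    rw [LinearMap.mem_ker] at hwk
    rw [eq_top_iff]
    intro x _
    have : x - (f x * (f w)⁻¹) • w ∈ LinearMap.ker f := by
      rw [LinearMap.mem_ker, map_sub, map_smul, smul_eq_mul]
      field_simp
      ring
    have h2 := W.add_mem (hW.le this) (W.smul_mem (f x * (f w)⁻¹) hwW)
    simpa using h2

/-- the reflection formula defines a linear equivalence -/
theorem exists_refl (B : V →ₗ[F] V →ₗ[F] F) (δ : F)
    (hsym : ∀ x y, B y x = δ * B x y) (hnd : ∀ x, (∀ y, B x y = 0) → x = 0)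
    (w : V) (hw : w ≠ 0) (κ : F) (hκ : κ ≠ 0)
    (hinv : Function.Injective (fun x => x - (κ⁻¹ * B x w) • w)) [Finite V] :
    ∃ t : V ≃ₗ[F] V, IsReflection t ∧ ∀ x, t x = x - (κ⁻¹ * B x w) • w := by
  let f : V →ₗ[F] V := LinearMap.id - (κ⁻¹ • B.flip w).smulRight w
  have hf : ∀ x, f x = x - (κ⁻¹ * B x w) • w := by
    intro x
    simp [f]
  have hfi : Function.Injective f := by
    intro x y hxy
    rw [hf, hf] at hxy
    exact hinv hxy
  let t : V ≃ₗ[F] V := LinearEquiv.ofBijective f ⟨hfi, Finite.surjective_of_injective hfi⟩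
  have ht : ∀ x, t x = x - (κ⁻¹ * B x w) • w := hf
  have hB : B.flip w ≠ 0 := by
    intro h
    apply hw
    apply hnd
    intro y
    rw [hsym]
    have := LinearMap.congr_fun h y
    rw [LinearMap.flip_apply] at this
    rw [this]
    simp
  refine ⟨t, ⟨?_, LinearMap.ker (B.flip w), isCoatom_ker hB, ?_⟩, ht⟩
  · intro h
    apply hB
    ext x
    have h1 := ht x
    rw [h] at h1
    have h2 : (κ⁻¹ * B x w) • w = 0 := by
      have : (1 : V ≃ₗ[F] V) x = x := rfl
      rw [this] at h1
      have := sub_eq_self.mp h1.symm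
      exact this
    rcases smul_eq_zero.mp h2 with h3 | h3
    · rcases mul_eq_zero.mp h3 with h4 | h4
      · exact absurd h4 (inv_ne_zero hκ)
      · simpa using h4
    · exact absurd h3 hw
  · intro x hx
    rw [LinearMap.mem_ker, LinearMap.flip_apply] at hx
    rw [ht, hx]
    simp

end G

theorem m4Sp_of (h4b : TargetM4b) : TargetM4Sp := by
  intro F V _ _ _ _ _ n ω c hn hdim halt hnd hc hirr hord
  have hsym : ∀ x y, ω y x = -1 * ω x y := by
    intro x y
    have := halt.neg_eq x y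
    rw [← this]; ring
  have hnd' : ∀ x, (∀ y, ω x y = 0) → x = 0 := by
    intro x hx
    exact hnd.1 x hx
  refine m4General h4b n ω (-1) (Or.inr rfl) hsym hnd' (isomGroup ω) (fun g hg => hg) c hn hdim hc
    hirr hord ?_
  intro u hu
  set w := u - c u with hw
  set κ := ω u w with hκ
  have hww : ω w w = 0 := halt.self_eq_zero w
  have hw0 : w ≠ 0 := by
    intro h
    apply hu
    rw [hκ, h, map_zero]
  have hpres : ∀ x y, ω (x - (κ⁻¹ * ω x w) • w) (y - (κ⁻¹ * ω y w) • w) = ω x y := by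
    intro x y
    simp only [map_sub, map_smul, LinearMap.sub_apply, LinearMap.smul_apply, smul_eq_mul, hww]
    rw [hsym y w]
    ring
  have hinj : Function.Injective (fun x => x - (κ⁻¹ * ω x w) • w) := by
    intro x y hxy
    simp only at hxy
    rw [← sub_eq_zero]
    apply hnd'
    intro z
    rw [map_sub, LinearMap.sub_apply, ← hpres x z, ← hpres y z, hxy, sub_self]
  obtain ⟨t, ht1, ht2⟩ := exists_refl ω (-1) hsym hnd' w hw0 κ hu hinj
  refine ⟨t, ?_, ht1, ht2⟩
  intro x y
  rw [ht2, ht2, hpres]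

theorem m4O_of (h4b : TargetM4b) : TargetM4O := by
  intro F V _ _ _ _ _ n Q c hn hdim hnd hc hirr hord
  let B : V →ₗ[F] V →ₗ[F] F := Q.polarBilin
  have hB : ∀ x y, B x y = QuadraticMap.polar Q x y := fun x y => rfl
  have hsym : ∀ x y, B y x = 1 * B x y := by
    intro x y
    rw [hB, hB, QuadraticMap.polar_comm, one_mul]
  have hG : ∀ g ∈ orthGroup Q, ∀ x y, B (g x) (g y) = B x y := by
    intro g hg x y
    have hg' : ∀ x, Q (g x) = Q x := hg
    rw [hB, hB, QuadraticMap.polar, QuadraticMap.polar, ← map_add, hg', hg', hg']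
  refine m4General h4b n B 1 (Or.inl rfl) hsym hnd (orthGroup Q) hG c hn hdim hc
    hirr hord ?_
  intro u hu
  set w := u - c u with hw
  set κ := B u w with hκ
  have hQw : Q w = κ := by
    have h1 : B u (c u) = Q (u + c u) - Q u - Q (c u) := rfl
    have h2 : B u u = Q (u + u) - Q u - Q u := rfl
    have h3 : Q (c u) = Q u := hc u
    have h4 : Q (u - c u) = Q u + Q (c u) - B u (c u) := by
      have : B u (-(c u)) = Q (u + -(c u)) - Q u - Q (-(c u)) := rfl
      rw [map_neg, QuadraticMap.map_neg, ← sub_eq_add_neg] at this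
      linear_combination -this
    have h5 : B u u = 2 * Q u := by
      rw [hB, QuadraticMap.polar_self]
      simp
    rw [hκ, hw, h4, h3, map_sub, h5]
    ring
  have hw0 : w ≠ 0 := by
    intro h
    apply hu
    rw [hκ, h, map_zero]
  have hpres : ∀ x, Q (x - (κ⁻¹ * B x w) • w) = Q x := by
    intro x
    have e1 : B x (-((κ⁻¹ * B x w) • w)) = Q (x + -((κ⁻¹ * B x w) • w)) - Q x
      - Q (-((κ⁻¹ * B x w) • w)) := rfl
    rw [QuadraticMap.map_neg, QuadraticMap.map_smul, map_neg, map_smul, ← sub_eq_add_neg, hQw,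
      smul_eq_mul, smul_eq_mul] at e1
    have e2 : κ⁻¹ * κ = 1 := inv_mul_cancel₀ hu
    have : Q (x - (κ⁻¹ * B x w) • w) = Q x + (κ⁻¹ * B x w) * (κ⁻¹ * B x w) * κ
      - κ⁻¹ * B x w * B x w := by
      linear_combination -e1
    rw [this]
    linear_combination (κ⁻¹ * B x w * B x w) * e2
  have hinj : Function.Injective (fun x => x - (κ⁻¹ * B x w) • w) := by
    have hww : B w w = 2 * κ := by
      rw [hB, QuadraticMap.polar_self, hQw]
      simp
    have hinvol : ∀ x, (x - (κ⁻¹ * B x w) • w) -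
        (κ⁻¹ * B (x - (κ⁻¹ * B x w) • w) w) • w = x := by
      intro x
      have : κ⁻¹ * B (x - (κ⁻¹ * B x w) • w) w = -(κ⁻¹ * B x w) := by
        rw [LinearMap.map_sub₂, LinearMap.map_smul₂, smul_eq_mul, hww]
        have e2 : κ⁻¹ * κ = 1 := inv_mul_cancel₀ hu
        linear_combination (-2 * κ⁻¹ * B x w) * e2
      rw [this]
      simp
    intro x y hxy
    simp only at hxy
    rw [← hinvol x, ← hinvol y, hxy]
  obtain ⟨t, ht1, ht2⟩ := exists_refl B 1 hsym hnd w hw0 κ hu hinj
  refine ⟨t, ?_, ht1, ht2⟩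
  intro x
  rw [ht2, hpres]

end Pool.Agent.H3.Refl.M4Orth

namespace Pool.Agent.H3.Refl

/-- M4O -/
theorem m4O : TargetM4O := M4Orth.m4O_of m4b

end Pool.Agent.H3.Refl
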