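import Pool.Agent.H3.Refl.M4Common

/-!
# The symplectic case (module M4Sp)
-/

namespace Pool.Agent.H3.Refl

namespace M4c

section

variable {F V : Type} [Field F] [AddCommGroup V] [Module F V]

/-- The kernel of a nonzero functional is a hyperplane. -/
theorem coatom_ker {f : V →ₗ[F] F} (hf : f ≠ 0) : IsCoatom (LinearMap.ker f) := by
  have hs : Function.Surjective f := LinearMap.surjective hf
  have h : IsCoatom (⊥ : Submodule F F) := isCoatom_bot
  exact (Submodule.isCoatom_comap_iff hs).2 h

/-- The form of a reflection. -/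
theorem refl_form {t : V ≃ₗ[F] V} (ht : IsReflection t) :
    ∃ (w : V) (f : V →ₗ[F] F), w ≠ 0 ∧ f ≠ 0 ∧ ∀ x, t x = x + f x • w := by
  obtain ⟨ht1, H, hH, hfix⟩ := ht
  obtain ⟨x₀, hx₀⟩ : ∃ x₀, x₀ ∉ H := by
    by_contra hcon
    push Not at hcon
    exact hH.1 (Submodule.eq_top_iff'.2 hcon)
  set g : V →ₗ[F] V := (t : V →ₗ[F] V) - LinearMap.id with hg
  have hgx : ∀ x, g x = t x - x := fun x => rfl
  have hcompl := Submodule.isCompl_span_singleton_of_isCoatom_of_notMem hH hx₀
  have hdec : ∀ x : V, ∃ a : F, g x = a • g x₀ := by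
    intro x
    have hx : x ∈ H ⊔ Submodule.span F {x₀} := by rw [hcompl.sup_eq_top]; trivial
    obtain ⟨h, hh, y, hy, rfl⟩ := Submodule.mem_sup.1 hx
    obtain ⟨a, rfl⟩ := Submodule.mem_span_singleton.1 hy
    refine ⟨a, ?_⟩
    rw [map_add, map_smul, hgx h, hfix h hh, sub_self, zero_add]
  have hw : g x₀ ≠ 0 := by
    intro h0
    apply ht1
    apply LinearEquiv.ext
    intro x
    obtain ⟨a, ha⟩ := hdec x
    rw [h0, smul_zero, hgx, sub_eq_zero] at ha
    exact ha
  obtain ⟨φ, hφ⟩ : ∃ φ : Module.Dual F V, φ (g x₀) ≠ 0 := by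
    by_contra hcon
    push Not at hcon
    exact hw ((Module.forall_dual_apply_eq_zero_iff F _).1 hcon)
  refine ⟨g x₀, (φ (g x₀))⁻¹ • φ.comp g, hw, ?_, ?_⟩
  · intro h0
    have := LinearMap.congr_fun h0 x₀
    rw [LinearMap.smul_apply, LinearMap.comp_apply, smul_eq_mul, inv_mul_cancel₀ hφ] at this
    exact one_ne_zero this
  · intro x
    obtain ⟨a, ha⟩ := hdec x
    have h1 : t x = x + g x := by rw [hgx]; abel
    rw [h1, LinearMap.smul_apply, LinearMap.comp_apply, ha, map_smul, smul_eq_mul, smul_eq_mul]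
    congr 2
    field_simp

/-- The transformation `x ↦ x - κ⁻¹ B(x,w) w`, if it is its own inverse up to sign of `κ`:
general constructor from an inverse. -/
theorem isReflection_of {t : V ≃ₗ[F] V} {w : V} {f : V →ₗ[F] F} (hw : w ≠ 0) (hf : f ≠ 0)
    (ht : ∀ x, t x = x + f x • w) : IsReflection t := by
  refine ⟨?_, LinearMap.ker f, coatom_ker hf, ?_⟩
  · intro h1
    obtain ⟨x, hx⟩ : ∃ x, f x ≠ 0 := by
      by_contra hcon
      push Not at hcon
      exact hf (LinearMap.ext hcon)
    have h2 := ht x
    rw [h1] at h2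
    have h3 : f x • w = 0 := by
      have h4 : (1 : V ≃ₗ[F] V) x = x := rfl
      rw [h4] at h2
      exact left_eq_add.1 h2
    exact (smul_ne_zero hx hw) h3
  · intro x hx
    rw [ht, LinearMap.mem_ker.1 hx, zero_smul, add_zero]

end

end M4c

open M4c

/-- Module M4Sp. -/
theorem m4Sp : TargetM4Sp := by
  intro F V _ _ _ _ _ n ω c hn hfr halt hnd hc hirr hord
  have hc1 : c ≠ 1 := by
    intro h
    rw [h, orderOf_one] at hord
    have : 0 < Fintype.card F ^ n := pow_pos Fintype.card_pos n
    omega
  have hbij := bij_sub hirr hc1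
  obtain ⟨β, hβ⟩ := exists_beta ω c hbij
  have hneg : ∀ x y, ω x y = - ω y x := fun x y => (LinearMap.IsAlt.neg halt y x).symm
  have hcc : ∀ x y, ω (c x) (c y) = ω x y := hc
  have hndl : ∀ x, (∀ y, ω x y = 0) → x = 0 := hnd.1
  -- the basic identities
  have hB : ∀ x y, ω x y = β x y + (-1) * β y x := by
    intro x y
    obtain ⟨u, rfl⟩ := hbij.2 x
    obtain ⟨v, rfl⟩ := hbij.2 y
    simp only
    rw [hβ, hβ]
    simp only [map_sub, LinearMap.sub_apply]
    rw [hcc, hneg v u, hneg v (c u)]
    ring
  have hasym : ∀ x y, β y x = 1 * β (c x) y := by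
    intro x y
    obtain ⟨u, rfl⟩ := hbij.2 x
    obtain ⟨v, rfl⟩ := hbij.2 y
    simp only
    rw [hβ, map_sub c, hβ]
    simp only [map_sub]
    rw [hcc, hneg v u, hneg v (c u)]
    ring
  have hisom : ∀ x y, β (c x) (c y) = β x y := by
    intro x y
    obtain ⟨u, rfl⟩ := hbij.2 x
    simp only
    rw [map_sub c, hβ, hβ, hcc]
  refine common n ω β (-1) 1 c (isomGroup ω) hn hfr hirr hord (Or.inl rfl) hB hβ hndl hasym
    hisom ?_ ?_
  · -- reflections in the group
    intro t htG htR
    obtain ⟨w, f, hw, hf, ht⟩ := refl_form htR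
    have h1 : ∀ x y, f y * ω x w = f x * ω y w := by
      intro x y
      have h2 : ω (t x) (t y) = ω x y := htG x y
      rw [ht x, ht y] at h2
      simp only [map_add, LinearMap.add_apply, map_smul, LinearMap.smul_apply, smul_eq_mul,
        halt.self_eq_zero] at h2
      rw [hneg w y] at h2
      linear_combination h2
    obtain ⟨y, hy⟩ : ∃ y, ω y w ≠ 0 := by
      by_contra hcon
      push Not at hcon
      apply hw
      apply hndl
      intro y
      rw [hneg, hcon, neg_zero]
    have hfy : f y ≠ 0 := by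
      intro h0
      apply hf
      apply LinearMap.ext
      intro x
      have h2 := h1 x y
      rw [h0, zero_mul] at h2
      exact (mul_eq_zero.1 h2.symm).resolve_right hy
    refine ⟨w, -(ω y w / f y), hw, neg_ne_zero.2 (div_ne_zero hy hfy), ?_⟩
    intro x
    rw [ht x, sub_eq_add_neg, ← neg_smul]
    congr 2
    have h2 := h1 x y
    field_simp
    linear_combination -h2
  · -- transvections
    intro w hw
    have hw0 : w ≠ 0 := by
      intro h0
      apply hw
      rw [h0]; simp
    set k : F := (β w w)⁻¹ with hk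
    have hk0 : k ≠ 0 := inv_ne_zero hw
    let f : V →ₗ[F] F := -(k • ω.flip w)
    have hfx : ∀ x, f x = -(k * ω x w) := fun x => rfl
    have hfw : f w = 0 := by rw [hfx, halt.self_eq_zero, mul_zero, neg_zero]
    let T : V →ₗ[F] V := LinearMap.id + f.smulRight w
    let T' : V →ₗ[F] V := LinearMap.id - f.smulRight w
    have hT : ∀ x, T x = x + f x • w := fun x => rfl
    have hT' : ∀ x, T' x = x - f x • w := fun x => rfl
    let t : V ≃ₗ[F] V := LinearEquiv.ofLinearMap T T'
      (by
        apply LinearMap.ext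
        intro x
        rw [LinearMap.comp_apply, hT', hT, map_sub, map_smul, hfw]
        simp)
      (by
        apply LinearMap.ext
        intro x
        rw [LinearMap.comp_apply, hT', hT, map_add, map_smul, hfw]
        simp)
    have ht : ∀ x, t x = x + f x • w := fun x => rfl
    refine ⟨t, ?_, ?_, ?_⟩
    · intro x y
      change ω (t x) (t y) = ω x y
      rw [ht, ht]
      simp only [map_add, LinearMap.add_apply, map_smul, LinearMap.smul_apply, smul_eq_mul,
        halt.self_eq_zero]
      rw [hneg w y, hfx, hfx]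
      ring
    · refine isReflection_of hw0 ?_ ht
      intro h0
      apply hw0
      apply hndl
      intro y
      have h1 := LinearMap.congr_fun h0 y
      rw [hfx, LinearMap.zero_apply, neg_eq_zero] at h1
      rw [hneg, (mul_eq_zero.1 h1).resolve_left hk0, neg_zero]
    · intro x
      rw [ht, hfx, neg_smul, sub_eq_add_neg]

end Pool.Agent.H3.Refl
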