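import Pool.Agent.H3.Refl.M3
import Pool.Agent.H3.Refl.Targets

/-!
# M5: counting triangular sequences
-/

namespace Pool.Agent.H3.Refl

open scoped Classical
open Finset

theorem isUnit_dec {F ι : Type} [Field F] [Fintype ι] (i1 i2 : DecidableEq ι) (β : Matrix ι ι F)
    (h : @IsUnit _ (@Semiring.toMonoid _ (@Matrix.semiring ι F _ _ i1)) β) :
    @IsUnit _ (@Semiring.toMonoid _ (@Matrix.semiring ι F _ _ i2)) β := by
  have : i1 = i2 := Subsingleton.elim _ _
  subst this
  exact h

theorem rhs_punit {F : Type} [Field F] [Fintype F] (t : ℂ) (m : ℕ) :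
    rhs t m (0 : PUnit →ₗ[F] PUnit →ₗ[F] F) = (t * (t - 1)) ^ m := by
  have hg : ∀ I : Submodule F PUnit, Good (0 : PUnit →ₗ[F] PUnit →ₗ[F] F) I := by
    intro I
    refine ⟨⟨?_, ?_⟩, ?_⟩
    · intro x _ i _; rfl
    · intro x _ i _; rfl
    · intro e _ _
      rw [Subsingleton.elim e 0]; exact I.zero_mem
  have hw : ∀ I : Submodule F PUnit, w (0 : PUnit →ₗ[F] PUnit →ₗ[F] F) I = 1 := by
    intro I
    rw [w_eq]
    rw [sum_eq_zero, sub_zero]
    intro x _
    exact absurd (Subsingleton.elim _ _) (ne_of_gt x.2.1)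
  have hn : ∀ K : Submodule F PUnit, nAnn K = 1 := by
    intro K
    unfold nAnn
    have : Subsingleton (Module.Dual F PUnit) := by
      constructor
      intro f g
      ext x
      rw [Subsingleton.elim x 0, map_zero, map_zero]
    rw [card_eq_one]
    refine ⟨0, ?_⟩
    ext r
    simp only [mem_filter, mem_univ, true_and, mem_singleton]
    constructor
    · intro _; exact Subsingleton.elim _ _
    · rintro rfl i _; rfl
  unfold rhs
  rw [filter_true_of_mem (fun I _ => hg I)]
  refine (congrArg _ (sum_eq_single (⊥ : Submodule F PUnit)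
    (fun I _ h => absurd (Subsingleton.elim _ _) h)
    (fun h => absurd (by simp only [mem_univ]) h))).trans ?_
  rw [hw, hn]
  rw [Module.finrank_zero_of_subsingleton, Module.finrank_zero_of_subsingleton]
  simp

/-- The number of triangular sequences of length `m < 2n` with a prescribed nonzero diagonal. -/
theorem card_tri (h2 : TargetM2) {F : Type} [Field F] [Fintype F] {n : ℕ}
    {β C : Matrix (Fin (2 * n)) (Fin (2 * n)) F} {ε : F} (hS : SingerForm n β C ε) (m : ℕ)
    (hm : m < 2 * n) (a : Fin m → F) (ha : ∀ i, a i ≠ 0) :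
    Fintype.card F ^ (m * (m + 1) / 2) * Set.ncard (tri β m a) =
      (Fintype.card F ^ n * (Fintype.card F ^ n + 1)) ^ m := by
  obtain ⟨ψ, hψ1⟩ := (AddChar.exists_apply_ne_zero (a := (1 : F))).mpr one_ne_zero
  have hψ : ψ ≠ 1 := by
    rintro rfl
    exact hψ1 rfl
  have h3 := m3 F (Fin (2 * n)) β ψ hψ m a
  have hL := L_formula β hψ (-(Fintype.card F : ℂ) ^ n) (2 * n)
    (fun V _ _ _ b hV => gaussSum_eq_rhs (isUnit_dec _ _ β hS.det_ne) hψ _ b
      (fun R hR => h2 F n β C ε hS ψ hψ V b hV R hR))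
    (List.ofFn fun i => - a i) (by
      intro x hx
      rw [List.mem_ofFn] at hx
      obtain ⟨i, rfl⟩ := hx
      exact neg_ne_zero.mpr (ha i)) PUnit 0 (by
      rw [Module.finrank_zero_of_subsingleton, List.length_ofFn]
      omega)
  rw [h3, List.length_ofFn, rhs_punit] at hL
  have : ((Fintype.card F ^ (m * (m + 1) / 2) * Set.ncard (tri β m a) : ℕ) : ℂ) =
      (((Fintype.card F ^ n * (Fintype.card F ^ n + 1)) ^ m : ℕ) : ℂ) := by
    push_cast
    rw [hL]
    congr 1
    ring
  exact_mod_cast this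

section Full

variable {F : Type} [Field F] {ι : Type} [Fintype ι]

theorem bil_sum_right (β : Matrix ι ι F) (u : ι → F) {κ : Type} [Fintype κ] (c : κ → F)
    (W : κ → ι → F) : bil β u (∑ j, c j • W j) = ∑ j, c j * bil β u (W j) := by
  unfold bil
  simp only [Finset.sum_apply, Pi.smul_apply, smul_eq_mul, mul_sum]
  have h1 : ∀ i, ∑ k, ∑ j, β i k * u i * (c j * W j k) =
      ∑ j, ∑ k, c j * (β i k * u i * W j k) := by
    intro i
    rw [sum_comm]
    apply sum_congr rfl; intro j _
    apply sum_congr rfl; intro k _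
    ring
  simp only [h1]
  rw [sum_comm]

theorem bil_sum_left (β : Matrix ι ι F) (u : ι → F) {κ : Type} [Fintype κ] (c : κ → F)
    (W : κ → ι → F) : bil β (∑ j, c j • W j) u = ∑ j, c j * bil β (W j) u := by
  unfold bil
  simp only [Finset.sum_apply, Pi.smul_apply, smul_eq_mul, mul_sum, sum_mul]
  have h1 : ∀ i, ∑ k, ∑ j, β i k * (c j * W j i) * u k =
      ∑ j, ∑ k, c j * (β i k * W j i * u k) := by
    intro i
    rw [sum_comm]
    apply sum_congr rfl; intro j _
    apply sum_congr rfl; intro k _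
    ring
  simp only [h1]
  rw [sum_comm]

/-- In a combination of a triangular sequence which is orthogonal to the sequence all the
coefficients vanish. -/
theorem coeff_zero (β : Matrix ι ι F) {m : ℕ} (W : Fin m → ι → F)
    (h1 : ∀ i j, i < j → bil β (W i) (W j) = 0) (h2 : ∀ i, bil β (W i) (W i) ≠ 0)
    (c : Fin m → F) (h3 : ∀ i, bil β (W i) (∑ j, c j • W j) = 0) : ∀ i, c i = 0 := by
  intro i
  induction i using WellFoundedLT.induction with
  | ind i ih =>
  have := h3 i
  rw [bil_sum_right, sum_eq_single i] at this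
  · exact (mul_eq_zero.mp this).resolve_right (h2 i)
  · intro j _ hj
    rcases lt_or_gt_of_ne hj with h | h
    · rw [ih j h, zero_mul]
    · rw [h1 i j h, mul_zero]
  · intro h; exact absurd (mem_univ _) h

theorem bil_zero_right (β : Matrix ι ι F) (u : ι → F) : bil β u 0 = 0 := by
  unfold bil; simp

theorem linInd_tri (β : Matrix ι ι F) {m : ℕ} (W : Fin m → ι → F)
    (h1 : ∀ i j, i < j → bil β (W i) (W j) = 0) (h2 : ∀ i, bil β (W i) (W i) ≠ 0) :
    LinearIndependent F W := by
  rw [Fintype.linearIndependent_iff]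
  intro c hc
  apply coeff_zero β W h1 h2 c
  intro i
  rw [hc, bil_zero_right]

theorem bil_eq_mulVec (β : Matrix ι ι F) (u v : ι → F) :
    bil β u v = ∑ i, u i * (β.mulVec v) i := by
  unfold bil Matrix.mulVec dotProduct
  apply sum_congr rfl; intro i _
  rw [mul_sum]
  apply sum_congr rfl; intro j _
  ring

theorem eq_zero_of_bil (β : Matrix ι ι F) (hβ : IsUnit β) (v : ι → F)
    (h : ∀ u, bil β u v = 0) : v = 0 := by
  have h1 : β.mulVec v = 0 := by
    funext i
    have := h (Pi.single i 1)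
    rw [bil_eq_mulVec] at this
    simpa [Pi.single_apply] using this
  obtain ⟨B, hB⟩ := hβ.exists_left_inv
  calc v = (B * β).mulVec v := by rw [hB, Matrix.one_mulVec]
    _ = B.mulVec (β.mulVec v) := by rw [Matrix.mulVec_mulVec]
    _ = 0 := by rw [h1, Matrix.mulVec_zero]

theorem aniso (β : Matrix ι ι F) (hβ : IsUnit β) {m : ℕ} (hm : Fintype.card ι = m + 1)
    (W : Fin m → ι → F)
    (h1 : ∀ i j, i < j → bil β (W i) (W j) = 0) (h2 : ∀ i, bil β (W i) (W i) ≠ 0)
    (v : ι → F) (hv : v ≠ 0) (h3 : ∀ i, bil β (W i) v = 0) : bil β v v ≠ 0 := by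
  intro h4
  apply hv
  have hns : v ∉ Submodule.span F (Set.range W) := by
    intro hmem
    rw [Submodule.mem_span_range_iff_exists_fun] at hmem
    obtain ⟨c, rfl⟩ := hmem
    have := coeff_zero β W h1 h2 c h3
    apply hv
    apply sum_eq_zero
    intro i _
    rw [this i, zero_smul]
  have hli : LinearIndependent F (Fin.cons v W : Fin (m + 1) → ι → F) :=
    linearIndependent_finCons.mpr ⟨linInd_tri β W h1 h2, hns⟩
  have hspan : Submodule.span F (Set.range (Fin.cons v W : Fin (m + 1) → ι → F)) = ⊤ := by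
    apply hli.span_eq_top_of_card_eq_finrank'
    rw [Fintype.card_fin, Module.finrank_fintype_fun_eq_card, hm]
  apply eq_zero_of_bil β hβ
  intro u
  have hu : u ∈ Submodule.span F (Set.range (Fin.cons v W : Fin (m + 1) → ι → F)) := by
    rw [hspan]; trivial
  rw [Submodule.mem_span_range_iff_exists_fun] at hu
  obtain ⟨c, rfl⟩ := hu
  rw [bil_sum_left]
  apply sum_eq_zero
  intro i _
  refine Fin.cases ?_ (fun i => ?_) i
  · rw [Fin.cons_zero, h4, mul_zero]
  · rw [Fin.cons_succ, h3, mul_zero]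

theorem finrank_perp (β : Matrix ι ι F) (hβ : IsUnit β) {m : ℕ} (hm : Fintype.card ι = m + 1)
    (W : Fin m → ι → F) (hW : LinearIndependent F W) :
    Module.finrank F (LinearMap.ker (Matrix.mulVecLin ((Matrix.of W) * β))) = 1 := by
  have h1 : ((Matrix.of W) * β).rank = m := by
    rw [Matrix.rank_mul_eq_left_of_isUnit_det]
    · have := LinearIndependent.rank_matrix (M := Matrix.of W) hW
      rw [this, Fintype.card_fin]
    · exact (Matrix.isUnit_iff_isUnit_det β).mp hβ
  have h2 := LinearMap.finrank_range_add_finrank_ker (Matrix.mulVecLin ((Matrix.of W) * β))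
  rw [Matrix.rank] at h1
  rw [h1, Module.finrank_fintype_fun_eq_card, hm] at h2
  omega

theorem mem_perp (β : Matrix ι ι F) {m : ℕ} (W : Fin m → ι → F) (v : ι → F) :
    v ∈ LinearMap.ker (Matrix.mulVecLin ((Matrix.of W) * β)) ↔ ∀ i, bil β (W i) v = 0 := by
  rw [LinearMap.mem_ker, Matrix.mulVecLin_apply, ← Matrix.mulVec_mulVec, funext_iff]
  apply forall_congr'
  intro i
  rw [bil_eq_mulVec]
  rfl

end Full

section Count

variable {F : Type} [Field F] [Fintype F] {ι : Type} [Fintype ι]

theorem card_last (β : Matrix ι ι F) (hβ : IsUnit β) {m : ℕ} (hm : Fintype.card ι = m + 1)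
    (W : Fin m → ι → F)
    (h1 : ∀ i j, i < j → bil β (W i) (W j) = 0) (h2 : ∀ i, bil β (W i) (W i) ≠ 0) :
    #{v : ι → F | (∀ i, bil β (W i) v = 0) ∧ bil β v v ≠ 0} = Fintype.card F - 1 := by
  set K := LinearMap.ker (Matrix.mulVecLin ((Matrix.of W) * β)) with hK
  have hcard : #{v : ι → F | v ∈ K} = Fintype.card F := by
    have h3 := finrank_perp β hβ hm W (linInd_tri β W h1 h2)
    have h4 : Fintype.card K = Fintype.card F ^ Module.finrank F K :=
      Module.card_eq_pow_finrank (K := F) (V := K)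
    rw [← hK] at h3
    rw [h3, pow_one] at h4
    rw [← h4, Fintype.card_subtype]
  have h5 : (univ.filter fun v : ι → F => (∀ i, bil β (W i) v = 0) ∧ bil β v v ≠ 0) =
      (univ.filter fun v : ι → F => v ∈ K).erase 0 := by
    ext v
    simp only [mem_filter, mem_univ, true_and, mem_erase]
    rw [hK, mem_perp]
    constructor
    · rintro ⟨g1, g2⟩
      refine ⟨?_, g1⟩
      rintro rfl
      exact g2 (bil_zero_right β 0)
    · rintro ⟨g1, g2⟩
      exact ⟨g2, aniso β hβ hm W h1 h2 v g1 g2⟩
  rw [h5, card_erase_of_mem, hcard]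
  simp only [mem_filter, mem_univ, true_and]
  exact K.zero_mem

theorem ncard_setOf_eq {α : Type} [Fintype α] (p : α → Prop) [DecidablePred p] :
    Set.ncard {x | p x} = ∑ x : α, if p x then 1 else 0 := by
  rw [Set.ncard_eq_toFinset_card', ← card_filter]
  congr 1
  ext x
  simp

theorem count_full (β : Matrix ι ι F) (hβ : IsUnit β) (m : ℕ) (hm : Fintype.card ι = m + 1)
    (K : ℕ) (hK : ∀ a : Fin m → F, (∀ i, a i ≠ 0) → Set.ncard (tri β m a) = K) :
    Set.ncard {w : Fin (m + 1) → ι → F |
        (∀ i j, i < j → bil β (w i) (w j) = 0) ∧ ∀ i, bil β (w i) (w i) ≠ 0} =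
      (Fintype.card F - 1) ^ (m + 1) * K := by
  rw [ncard_setOf_eq]
  have h1 : ∑ w : Fin (m + 1) → ι → F, (if ((∀ i j, i < j → bil β (w i) (w j) = 0) ∧
        ∀ i, bil β (w i) (w i) ≠ 0) then 1 else 0) =
      ∑ p : (ι → F) × (Fin m → ι → F),
        if ((∀ i j, i < j → bil β (p.2 i) (p.2 j) = 0) ∧ ∀ i, bil β (p.2 i) (p.2 i) ≠ 0) then
          (if ((∀ i, bil β (p.2 i) p.1 = 0) ∧ bil β p.1 p.1 ≠ 0) then 1 else 0) else 0 := by
    symm
    apply Fintype.sum_equiv (Fin.snocEquiv (fun _ : Fin (m + 1) => ι → F))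
    rintro ⟨v, W⟩
    have e1 : (Fin.snocEquiv (fun _ : Fin (m + 1) => ι → F)) (v, W) =
      (Fin.snoc W v : Fin (m + 1) → ι → F) := rfl
    rw [e1]
    have e2 : ((∀ i j, i < j → bil β ((Fin.snoc W v : Fin (m + 1) → ι → F) i)
          ((Fin.snoc W v : Fin (m + 1) → ι → F) j) = 0) ∧
        ∀ i, bil β ((Fin.snoc W v : Fin (m + 1) → ι → F) i)
          ((Fin.snoc W v : Fin (m + 1) → ι → F) i) ≠ 0) ↔
        ((∀ i j, i < j → bil β (W i) (W j) = 0) ∧ ∀ i, bil β (W i) (W i) ≠ 0) ∧
          ((∀ i, bil β (W i) v = 0) ∧ bil β v v ≠ 0) := by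
      constructor
      · rintro ⟨g1, g2⟩
        refine ⟨⟨?_, ?_⟩, ?_, ?_⟩
        · intro i j hij
          simpa using g1 i.castSucc j.castSucc (Fin.castSucc_lt_castSucc_iff.mpr hij)
        · intro i
          simpa using g2 i.castSucc
        · intro i
          simpa using g1 i.castSucc (Fin.last m) (Fin.castSucc_lt_last i)
        · simpa using g2 (Fin.last m)
      · rintro ⟨⟨g1, g2⟩, g3, g4⟩
        constructor
        · intro i j
          refine Fin.lastCases ?_ (fun i => ?_) i
          · intro h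
            exact absurd h (not_lt.mpr (Fin.le_last j))
          · refine Fin.lastCases ?_ (fun j => ?_) j
            · intro _
              simpa using g3 i
            · intro h
              simpa using g1 i j (Fin.castSucc_lt_castSucc_iff.mp h)
        · intro i
          refine Fin.lastCases ?_ (fun i => ?_) i
          · simpa using g4
          · simpa using g2 i
    simp only [e2]
    split_ifs <;> simp_all
  rw [h1, Fintype.sum_prod_type, sum_comm]
  have h2 : ∀ W : Fin m → ι → F, ∑ v : ι → F,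
      (if ((∀ i j, i < j → bil β (W i) (W j) = 0) ∧ ∀ i, bil β (W i) (W i) ≠ 0) then
          (if ((∀ i, bil β (W i) v = 0) ∧ bil β v v ≠ 0) then 1 else 0) else 0) =
      if ((∀ i j, i < j → bil β (W i) (W j) = 0) ∧ ∀ i, bil β (W i) (W i) ≠ 0) then
        (Fintype.card F - 1) else 0 := by
    intro W
    split_ifs with h
    · rw [← card_filter]
      exact card_last β hβ hm W h.1 h.2
    · simp
  simp only [h2]
  have h3 : ∑ W : Fin m → ι → F,
      (if ((∀ i j, i < j → bil β (W i) (W j) = 0) ∧ ∀ i, bil β (W i) (W i) ≠ 0) then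
        (Fintype.card F - 1) else 0) =
      ∑ W : Fin m → ι → F, ∑ a : Fin m → F, if (∀ i, a i ≠ 0) then
        (if W ∈ tri β m a then (Fintype.card F - 1) else 0) else 0 := by
    apply sum_congr rfl
    intro W _
    rw [sum_eq_single (fun i => bil β (W i) (W i))]
    · unfold tri
      simp only [Set.mem_ofPred_eq]
      split_ifs <;> simp_all
    · intro a _ ha
      split_ifs with g1 g2
      · exact absurd (funext fun i => (g2.2 i).symm) ha
      · rfl
      · rfl
    · intro h; exact absurd (mem_univ _) h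
  rw [h3, sum_comm]
  have h4 : ∀ a : Fin m → F, ∑ W : Fin m → ι → F, (if (∀ i, a i ≠ 0) then
        (if W ∈ tri β m a then (Fintype.card F - 1) else 0) else 0) =
      if (∀ i, a i ≠ 0) then K * (Fintype.card F - 1) else 0 := by
    intro a
    split_ifs with h
    · rw [← hK a h]
      have : Set.ncard (tri β m a) = ∑ W : Fin m → ι → F, if W ∈ tri β m a then 1 else 0 :=
        ncard_setOf_eq (fun W => W ∈ tri β m a)
      rw [this, sum_mul]
      apply sum_congr rfl
      intro W _
      rw [ite_mul, one_mul, zero_mul]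
    · simp
  simp only [h4]
  rw [← sum_filter, sum_const, smul_eq_mul]
  have h5 : #{a : Fin m → F | ∀ i, a i ≠ 0} = (Fintype.card F - 1) ^ m := by
    have : (univ.filter fun a : Fin m → F => ∀ i, a i ≠ 0) =
        Fintype.piFinset (fun _ : Fin m => (univ : Finset F).erase 0) := by
      ext a
      simp [Fintype.mem_piFinset]
    rw [this, Fintype.card_piFinset]
    simp [card_erase_of_mem]
  rw [h5, pow_succ]
  ring

end Count

/-- The number of all triangular sequences of length `2n` with nonzero diagonal. -/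
theorem card_all (h2 : TargetM2) {F : Type} [Field F] [Fintype F] {n : ℕ}
    {β C : Matrix (Fin (2 * n)) (Fin (2 * n)) F} {ε : F} (hS : SingerForm n β C ε) :
    Set.ncard {w : Fin (2 * n) → Fin (2 * n) → F |
        (∀ i j, i < j → bil β (w i) (w j) = 0) ∧ ∀ i, bil β (w i) (w i) ≠ 0} =
      (Fintype.card F - 1) ^ (2 * n) * (Fintype.card F ^ n + 1) ^ (2 * n - 1) := by
  have hn := hS.n_pos
  have hq : 0 < Fintype.card F := Fintype.card_pos
  obtain ⟨m, hm⟩ : ∃ m, 2 * n = m + 1 := ⟨2 * n - 1, by omega⟩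
  have hK : ∀ a : Fin m → F, (∀ i, a i ≠ 0) →
      Set.ncard (tri β m a) = (Fintype.card F ^ n + 1) ^ m := by
    intro a ha
    have h3 := card_tri h2 hS m (by omega) a ha
    have h4 : m * (m + 1) / 2 = n * m := by
      rw [← hm, mul_comm, mul_assoc]
      rw [Nat.mul_div_cancel_left _ (by norm_num : 0 < 2)]
    rw [h4, mul_pow, pow_mul] at h3
    exact Nat.eq_of_mul_eq_mul_left (by positivity) h3
  have h5 := count_full β (isUnit_dec _ _ β hS.det_ne) m (by rw [Fintype.card_fin, hm]) _ hK
  have h6 : ∀ N : ℕ, N = m + 1 → Set.ncard {w : Fin N → Fin (2 * n) → F |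
        (∀ i j, i < j → bil β (w i) (w j) = 0) ∧ ∀ i, bil β (w i) (w i) ≠ 0} =
      (Fintype.card F - 1) ^ N * (Fintype.card F ^ n + 1) ^ (N - 1) := by
    rintro N rfl
    rw [h5, Nat.add_sub_cancel]
  exact h6 (2 * n) hm

/-- Final assembly, symplectic case. -/
theorem final_sp (h2 : TargetM2) (h4 : TargetM4Sp) (F V : Type) [Field F] [Fintype F]
    [AddCommGroup V] [Module F V] [Fintype V] (n : ℕ)
    (ω : LinearMap.BilinForm F V) (c : V ≃ₗ[F] V) (hn : 0 < n) (hV : Module.finrank F V = 2 * n)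
    (ha : ω.IsAlt) (hω : ω.Nondegenerate) (hc : c ∈ isomGroup ω) (hi : IsIrred c)
    (ho : orderOf c = Fintype.card F ^ n + 1) :
    Set.ncard (factorizations (isomGroup ω) c (2 * n)) = orderOf c ^ (2 * n - 1) := by
  obtain ⟨β, C, ε, hS, h⟩ := h4 F V n ω c hn hV ha hω hc hi ho
  rw [card_all h2 hS] at h
  rw [ho]
  have hq : 1 < Fintype.card F := Fintype.one_lt_card
  have : 0 < (Fintype.card F - 1) ^ (2 * n) := Nat.pow_pos (by omega)
  exact (Nat.eq_of_mul_eq_mul_left this h).symm

/-- Final assembly, orthogonal case. -/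
theorem final_o (h2 : TargetM2) (h4 : TargetM4O) (F V : Type) [Field F] [Fintype F]
    [AddCommGroup V] [Module F V] [Fintype V] (n : ℕ)
    (Q : QuadraticForm F V) (c : V ≃ₗ[F] V) (hn : 0 < n) (hV : Module.finrank F V = 2 * n)
    (hQ : ∀ x, (∀ y, QuadraticMap.polar Q x y = 0) → x = 0) (hc : c ∈ orthGroup Q)
    (hi : IsIrred c) (ho : orderOf c = Fintype.card F ^ n + 1) :
    Set.ncard (factorizations (orthGroup Q) c (2 * n)) = orderOf c ^ (2 * n - 1) := by
  obtain ⟨β, C, ε, hS, h⟩ := h4 F V n Q c hn hV hQ hc hi ho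
  rw [card_all h2 hS] at h
  rw [ho]
  have hq : 1 < Fintype.card F := Fintype.one_lt_card
  have : 0 < (Fintype.card F - 1) ^ (2 * n) := Nat.pow_pos (by omega)
  exact (Nat.eq_of_mul_eq_mul_left this h).symm

end Pool.Agent.H3.Refl
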