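import Pool.Agent.H3.Refl.Defs

/-!
# M6: a quadratic form with zero radical which has an irreducible isometry has a nondegenerate
polar form.
-/

namespace Pool.Agent.H3.Refl

open scoped Classical

theorem polar_nondeg {F V : Type} [Field F] [Fintype F] [AddCommGroup V] [Module F V]
    (Q : QuadraticForm F V) (c : V ≃ₗ[F] V) (hV : 1 < Module.finrank F V) (hQ : Q.radical = ⊥)
    (hc : c ∈ orthGroup Q) (hi : IsIrred c) :
    ∀ x, (∀ y, QuadraticMap.polar Q x y = 0) → x = 0 := by
  have hfd : FiniteDimensional F V := Module.finite_of_finrank_pos (by omega)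
  have hrad : ∀ x, Q x = 0 → (∀ y, QuadraticMap.polar Q x y = 0) → x = 0 := by
    intro x hx hy
    have : x ∈ Q.radical := by
      rw [QuadraticMap.mem_radical_iff']
      refine ⟨hx, fun y => ?_⟩
      have := hy y
      rw [QuadraticMap.polar, hx, sub_zero] at this
      exact sub_eq_zero.mp this
    rw [hQ] at this
    simpa using this
  -- the radical of the polar form
  let R : Submodule F V := LinearMap.ker Q.polarBilin
  have hR : ∀ x, x ∈ R ↔ ∀ y, QuadraticMap.polar Q x y = 0 := by
    intro x
    simp only [R, LinearMap.mem_ker, LinearMap.ext_iff, QuadraticMap.polarBilin_apply_apply,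
      LinearMap.zero_apply]
  have hcR : ∀ x ∈ R, c x ∈ R := by
    intro x hx
    rw [hR] at hx ⊢
    intro y
    have h1 := hx (c.symm y)
    have h2 : ∀ z, Q (c z) = Q z := hc
    rw [QuadraticMap.polar] at h1 ⊢
    rw [← h2 (x + c.symm y), ← h2 x, ← h2 (c.symm y), map_add, LinearEquiv.apply_symm_apply] at h1
    exact h1
  rcases hi R hcR with h | h
  · intro x hx
    have : x ∈ R := (hR x).mpr hx
    rw [h] at this
    simpa using this
  · exfalso
    have hpol : ∀ x y, QuadraticMap.polar Q x y = 0 := by
      intro x
      exact (hR x).mp (by rw [h]; trivial)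
    have hadd : ∀ x y, Q (x + y) = Q x + Q y := by
      intro x y
      have := hpol x y
      rw [QuadraticMap.polar] at this
      linear_combination this
    -- a vector which is not zero
    obtain ⟨x, hx⟩ : ∃ x : V, x ≠ 0 := by
      have : Nontrivial V := Module.nontrivial_of_finrank_pos (R := F) (by omega)
      exact exists_ne 0
    have hQx : Q x ≠ 0 := fun h0 => hx (hrad x h0 (hpol x))
    have h2 : (2 : F) = 0 := by
      have h3 := hadd x x
      have h4 : Q (x + x) = 4 * Q x := by
        have : x + x = (2 : F) • x := by rw [two_smul]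
        rw [this, QuadraticMap.map_smul, smul_eq_mul]
        norm_num
      rw [h4] at h3
      have : 2 * Q x = 0 := by linear_combination h3
      exact (mul_eq_zero.mp this).resolve_right hQx
    have hchar : ringChar F = 2 := by
      have h3 : ringChar F ∣ 2 := ringChar.dvd (by exact_mod_cast h2)
      exact ((Nat.dvd_prime Nat.prime_two).mp h3).resolve_left (CharP.ringChar_ne_one)
    -- a vector outside the line of `x`
    obtain ⟨y, hy⟩ : ∃ y : V, y ∉ Submodule.span F {x} := by
      by_contra hcon
      push Not at hcon
      have : Submodule.span F {x} = ⊤ := by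
        rw [eq_top_iff]; intro y _; exact hcon y
      have h3 := finrank_span_singleton (K := F) hx
      rw [this, finrank_top] at h3
      omega
    obtain ⟨a, ha⟩ := FiniteField.isSquare_of_char_two hchar (Q y / Q x)
    have h5 : Q (y + a • x) = 0 := by
      rw [hadd, QuadraticMap.map_smul, smul_eq_mul, ← ha, div_mul_cancel₀ _ hQx]
      have : Q y + Q y = 2 * Q y := by ring
      rw [this, h2, zero_mul]
    have h6 : y + a • x = 0 := hrad _ h5 (hpol _)
    apply hy
    rw [Submodule.mem_span_singleton]
    exact ⟨-a, by rw [neg_smul]; exact (eq_neg_of_add_eq_zero_left h6).symm⟩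

end Pool.Agent.H3.Refl
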